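import Pool.Agent.Lib.MP_3493b8_lc.Alg

/-! The second algorithm (splitting vertices) as functions of natural numbers. -/

set_option autoImplicit false

open Finset

namespace Pool.Agent.Lib.H2

open Pool.Agent.Lib.PTC

section split

variable (x : List ℤ)

/-- the label of the edge `i` (digits in base `n + 1`; `0`: no label) -/
def labN (Lb i : ℕ) : ℕ := Lb / (nn x + 1) ^ i % (nn x + 1)

/-- one more layer around `b`, along the edges without label -/
def growU (Lb b : ℕ) : ℕ :=
  ∑ v ∈ range (nn x), if b.testBit v = true ∨ (∃ i < mm x, labN x Lb i = 0 ∧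
    ((eu x i = v ∧ b.testBit (ev x i) = true) ∨ (ev x i = v ∧ b.testBit (eu x i) = true))) then
      2 ^ v else 0

/-- the ball of radius `h` around `r` -/
def ballU (Lb r h : ℕ) : ℕ := itr (fun _ b => growU x Lb b) (2 ^ r) h

/-- number of vertices of a mask -/
def cardU (b : ℕ) : ℕ := ∑ v ∈ range (nn x), if b.testBit v = true then 1 else 0

/-- the radius of the next cluster -/
def radU (B L Lb r : ℕ) : ℕ :=
  if srch (fun h => ballU x Lb r (h + 1) = ballU x Lb r h) (B + 1) ≤ B then
    srch (fun h => ballU x Lb r (h + 1) = ballU x Lb r h) (B + 1)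
  else srch (fun h => (cardU x (ballU x Lb r (h + 1)) - cardU x (ballU x Lb r h)) * B ≤
    L * cardU x (ballU x Lb r h)) (B + 1)

/-- the vertex `v` has a main copy -/
def FinU (M v : ℕ) : Prop := ∃ s < nn x, M.testBit (v * nn x + s) = true

instance (M v : ℕ) : Decidable (FinU x M v) := by unfold FinU; infer_instance

/-- labels after the step with centre `r` and radius `h` -/
def nLab (Lb r h : ℕ) : ℕ :=
  Lb + ∑ i ∈ range (mm x), if labN x Lb i = 0 ∧ ((ballU x Lb r h).testBit (eu x i) = true ∨
    (ballU x Lb r h).testBit (ev x i) = true) then (r + 1) * (nn x + 1) ^ i else 0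

/-- layers after the step -/
def nLay (Lb Ly r h : ℕ) : ℕ :=
  Ly + ∑ v ∈ range (nn x), if (ballU x Lb r (h + 1)).testBit v = true then
    srch (fun k => (ballU x Lb r k).testBit v = true) (h + 2) *
      (nn x * nn x + 2) ^ (v * nn x + r) else 0

/-- main copies after the step -/
def nM (Lb M r h : ℕ) : ℕ :=
  M + ∑ v ∈ range (nn x), if (ballU x Lb r h).testBit v = true then 2 ^ (v * nn x + r) else 0

/-- extra copies after the step -/
def nF (Lb F r h : ℕ) : ℕ :=
  F + ∑ v ∈ range (nn x), if (ballU x Lb r (h + 1)).testBit v = true ∧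
    (ballU x Lb r h).testBit v = false then 2 ^ (v * nn x + r) else 0

/-- one step; the state consists of labels, layers, main copies and extra copies -/
def nextU (B L r : ℕ) (c : ℕ × ℕ × ℕ × ℕ) : ℕ × ℕ × ℕ × ℕ :=
  if FinU x c.2.2.1 r then c
  else (nLab x c.1 r (radU x B L c.1 r), nLay x c.1 c.2.1 r (radU x B L c.1 r),
    nM x c.1 c.2.2.1 r (radU x B L c.1 r), nF x c.1 c.2.2.2 r (radU x B L c.1 r))

/-- the vertex splitting -/
def splU (B L : ℕ) : ℕ × ℕ × ℕ × ℕ :=
  itr (fun r c => nextU x B L r c)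
    (0, ∑ w ∈ range (nn x * nn x), (nn x * nn x + 2) ^ w, 0, 0) (nn x)

/-- the input which codes the split graph -/
def splL (Lb : ℕ) : List ℤ :=
  ((nn x * nn x : ℕ) : ℤ) :: ((mm x : ℕ) : ℤ) :: ((NN x : ℕ) : ℤ) ::
    ((List.range (mm x)).map fun i => [((eu x i * nn x + (labN x Lb i - 1) : ℕ) : ℤ),
      ((ev x i * nn x + (labN x Lb i - 1) : ℕ) : ℤ)]).flatten

end split

section parts

variable (x : List ℤ)

/-- the subset of `F` with number `a`, among the numbers below `K` -/
def subK (K F a : ℕ) : ℕ :=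
  ∑ w ∈ range K, if F.testBit w = true ∧ a.testBit (belowN F w) = true then 2 ^ w else 0

/-- the boundary at the copy `w` for the part `X` -/
def parT (M X w : ℕ) : ℕ :=
  ((if X.testBit w = true then 1 else 0) +
    (if M.testBit w = true then bdN x (2 ^ mm x - 1) (w / nn x) +
      ∑ s ∈ range (nn x), (if X.testBit (w / nn x * nn x + s) = true then 1 else 0) else 0)) % 2

/-- its mask -/
def maskT (M X : ℕ) : ℕ := ∑ w ∈ range (nn x * nn x), if parT x M X w = 1 then 2 ^ w else 0

/-- the start state: the sum of the paths from the odd copies to the roots -/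
def startU (Ly T : ℕ) : ℕ :=
  ∑ i ∈ range (mm x), if (∑ w ∈ range (nn x), if T.testBit w = true then pathN x Ly 0 w i else 0) %
    2 = 1 then 2 ^ i else 0

end parts

section main

variable (x : List ℤ)

def LU : ℕ := Nat.size (nn x)
def BU : ℕ := Nat.sqrt (nn x * LU x) + LU x + 1

/-- the splitting used by the algorithm -/
def sU : ℕ × ℕ × ℕ × ℕ := splU x (BU x) (LU x)
def lbU : ℕ := (sU x).1
def lyU : ℕ := (sU x).2.1
def mU : ℕ := (sU x).2.2.1
def fU : ℕ := (sU x).2.2.2

/-- the split graph -/
def yU : List ℤ := splL x (lbU x)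

/-- radius of the components of the split graph -/
def rU : ℕ := maxLay (yU x) (lyU x) - 1
/-- number of extra copies -/
def kU2 : ℕ := belowN (fU x) (nn x * nn x)

/-- number of steps of a run -/
def tU (q : ℕ) : ℕ :=
  (2 * mm (yU x) * ((nn (yU x) + 1) ^ 2 * q ^ (4 * rU x)) * (kE (yU x) * kU q) + 1) *
    (30 * q * S1 (yU x) * (rU x + 1))

/-- number of samples for one estimate -/
def smU (q : ℕ) : ℕ := 2 ^ 20 * 2 ^ kU2 x * S1 (yU x) ^ 7 * q ^ (4 * rU x + 1)

/-- number of coin flips -/
def bitsU (q : ℕ) : ℕ :=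
  (Nat.size (mm (yU x)) + (Nat.size q + 1)) * tU x q * (2 ^ kU2 x * mm (yU x) * smU x q)

/-- the boundary for the part `a` -/
def bU (a : ℕ) : ℕ := maskT x (mU x) (subK (nn x * nn x) (fU x) a)
/-- the start state for the part `a` -/
def aU (a : ℕ) : ℕ := startU (yU x) (lyU x) (bU x a)

/-- contribution of the part `a`, in fixed point format -/
def termU (p q b K a ω : ℕ) : ℕ :=
  if defN (yU x) (bU x a) (aU x a) = 0 then
    K ^ S1 x * q ^ nul x * 2 ^ (mm (yU x) + rootsN (yU x) (lyU x)) *
        numX (yU x) p q 0 (bU x a) (aU x a) (tU x q) (smU x q) a ω /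
      ((2 * b) ^ nul x * 2 ^ nn (yU x) *
        denX (yU x) p q 0 (bU x a) (aU x a) (tU x q) (smU x q) a ω)
  else 0

/-- the output: sign and absolute value -/
def outU (p q b K ω : ℕ) : ℕ × ℕ :=
  (nul x % 2, ∑ a ∈ range (2 ^ kU2 x), termU x p q b K a ω)

/-- the output as an integer -/
def outZU (p q b K ω : ℕ) : ℤ :=
  if (outU x p q b K ω).1 = 0 then ((outU x p q b K ω).2 : ℤ) else -((outU x p q b K ω).2 : ℤ)

end main

end Pool.Agent.Lib.H2
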