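import Pool.Agent.Lib.MP_3493b8_lc.Bd

/-! Ball growing along a set of edges. -/

set_option autoImplicit false

open Finset

namespace Pool.Agent.Lib.H2

namespace MGraph

variable (G : MGraph)

/-- one more layer around `b`, along the edges of `U` -/
def growE (U : Finset (Fin G.m)) (b : Finset (Fin G.n)) : Finset (Fin G.n) :=
  univ.filter fun v => v ∈ b ∨ ∃ i ∈ U, ((G.e i).1 = v ∧ (G.e i).2 ∈ b) ∨
    ((G.e i).2 = v ∧ (G.e i).1 ∈ b)

/-- the ball of radius `h` around `r` along the edges of `U` -/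
def ballE (U : Finset (Fin G.m)) (r : Fin G.n) : ℕ → Finset (Fin G.n)
  | 0 => {r}
  | h + 1 => G.growE U (ballE U r h)

private theorem bE_grow (U : Finset (Fin G.m)) (b : Finset (Fin G.n)) (v : Fin G.n) :
    v ∈ G.growE U b ↔ (v ∈ b ∨ ∃ i ∈ U, ((G.e i).1 = v ∧ (G.e i).2 ∈ b) ∨
      ((G.e i).2 = v ∧ (G.e i).1 ∈ b)) := by
  unfold growE
  rw [mem_filter]
  exact ⟨fun h => h.2, fun h => ⟨mem_univ _, h⟩⟩

private theorem bE_sub (U : Finset (Fin G.m)) (b : Finset (Fin G.n)) : b ⊆ G.growE U b := by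
  intro v hv
  exact (G.bE_grow U b v).2 (Or.inl hv)

theorem ballE_mono (U : Finset (Fin G.m)) (r : Fin G.n) {h k : ℕ} (hk : h ≤ k) :
    G.ballE U r h ⊆ G.ballE U r k := by
  induction k, hk using Nat.le_induction with
  | base => exact Subset.refl _
  | succ k _ ih => exact ih.trans (G.bE_sub U _)

theorem mem_ballE_self (U : Finset (Fin G.m)) (r : Fin G.n) (h : ℕ) : r ∈ G.ballE U r h :=
  G.ballE_mono U r (Nat.zero_le h) (mem_singleton_self r)

/-- a vertex of the ball other than the centre has an edge of `U` -/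
theorem ballE_edge (U : Finset (Fin G.m)) (r v : Fin G.n) (h : ℕ) (hv : v ∈ G.ballE U r h)
    (hr : v ≠ r) : ∃ i ∈ U, (G.e i).1 = v ∨ (G.e i).2 = v := by
  induction h with
  | zero => exact absurd (mem_singleton.1 hv) hr
  | succ h ih =>
    rcases (G.bE_grow U _ v).1 hv with h1 | ⟨i, hi, h1 | h1⟩
    · exact ih h1
    · exact ⟨i, hi, Or.inl h1.1⟩
    · exact ⟨i, hi, Or.inr h1.1⟩

/-- an edge of `U` with an end in the ball has the other end in the next ball -/
theorem ballE_next (U : Finset (Fin G.m)) (r : Fin G.n) (h : ℕ) (i : Fin G.m) (hi : i ∈ U)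
    (hv : (G.e i).1 ∈ G.ballE U r h ∨ (G.e i).2 ∈ G.ballE U r h) :
    (G.e i).1 ∈ G.ballE U r (h + 1) ∧ (G.e i).2 ∈ G.ballE U r (h + 1) := by
  rcases hv with hv | hv
  · exact ⟨G.bE_sub U _ hv, (G.bE_grow U _ _).2 (Or.inr ⟨i, hi, Or.inr ⟨rfl, hv⟩⟩)⟩
  · exact ⟨(G.bE_grow U _ _).2 (Or.inr ⟨i, hi, Or.inl ⟨rfl, hv⟩⟩), G.bE_sub U _ hv⟩

private theorem bE_stab (U : Finset (Fin G.m)) (r : Fin G.n) {h : ℕ}
    (h0 : G.ballE U r (h + 1) = G.ballE U r h) {k : ℕ} (hk : h ≤ k) :
    G.ballE U r k = G.ballE U r h := by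
  induction k, hk using Nat.le_induction with
  | base => rfl
  | succ k _ ih =>
    show G.growE U (G.ballE U r k) = G.ballE U r h
    rw [ih]
    exact h0

private theorem bE_card (U : Finset (Fin G.m)) (r : Fin G.n) (h : ℕ)
    (hc : ∀ k < h, G.ballE U r (k + 1) ≠ G.ballE U r k) : h + 1 ≤ (G.ballE U r h).card := by
  induction h with
  | zero => exact (Finset.card_singleton r).ge
  | succ h ih =>
    have h1 := ih fun k hk => hc k (by omega)
    have h2 : G.ballE U r h ⊂ G.ballE U r (h + 1) :=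
      (G.ballE_mono U r (Nat.le_succ h)).ssubset_of_ne (hc h (by omega)).symm
    have h3 := Finset.card_lt_card h2
    omega

private theorem bE_le (b : Finset (Fin G.n)) : b.card ≤ G.n := by
  have h1 := Finset.card_le_univ b
  rwa [Fintype.card_fin] at h1

/-- the ball of radius `n` is everything -/
theorem ballE_n (U : Finset (Fin G.m)) (r : Fin G.n) :
    G.ballE U r (G.n + 1) = G.ballE U r G.n := by
  by_contra hne
  have h1 := G.bE_card U r (G.n + 1) fun k hk h0 => hne (by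
    rw [G.bE_stab U r h0 (by omega : k ≤ G.n + 1), G.bE_stab U r h0 (by omega : k ≤ G.n)])
  have h2 := G.bE_le (G.ballE U r (G.n + 1))
  omega

private theorem bE_bern (B L : ℕ) (hL : L ≤ B) (hB : 1 ≤ B) :
    (2 : ℝ) ^ L ≤ (1 + (L : ℝ) / B) ^ B := by
  rcases Nat.eq_zero_or_pos L with rfl | hL0
  · rw [pow_zero, Nat.cast_zero, zero_div, add_zero, one_pow]
  · have hL1 : (0 : ℝ) < L := by exact_mod_cast hL0
    have hB1 : (0 : ℝ) < B := by exact_mod_cast hB
    have hLB : (L : ℝ) ≤ B := by exact_mod_cast hL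
    have h0 : (0 : ℝ) ≤ (L : ℝ) / B := div_nonneg hL1.le hB1.le
    have h1 := one_add_mul_self_le_rpow_one_add (s := (L : ℝ) / B) (by linarith)
      (p := (B : ℝ) / L) ((one_le_div hL1).2 hLB)
    have h2 : (B : ℝ) / L * ((L : ℝ) / B) = 1 := by
      field_simp
    rw [h2] at h1
    have h3 : (2 : ℝ) ≤ (1 + (L : ℝ) / B) ^ ((B : ℝ) / L) := by linarith
    have h4 : ((1 + (L : ℝ) / B) ^ ((B : ℝ) / L)) ^ L = (1 + (L : ℝ) / B) ^ B := by
      rw [← Real.rpow_natCast, ← Real.rpow_mul (by linarith), div_mul_cancel₀ _ hL1.ne',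
        Real.rpow_natCast]
    rw [← h4]
    exact pow_le_pow_left₀ (by norm_num) h3 L

/-- ball growing: some ball of radius at most `B` has a small next layer -/
theorem growthE (U : Finset (Fin G.m)) (r : Fin G.n) (B L : ℕ) (hL : L ≤ B) (hn : G.n < 2 ^ L) :
    ∃ h ≤ B, ((G.ballE U r (h + 1)).card - (G.ballE U r h).card) * B ≤
      L * (G.ballE U r h).card := by
  by_contra hne
  push Not at hne
  have hB : 1 ≤ B := by
    by_contra hcon
    have hB0 : B = 0 := by omega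
    have h1 := hne 0 (Nat.zero_le _)
    rw [hB0, mul_zero] at h1
    omega
  have hB1 : (0 : ℝ) < B := by exact_mod_cast hB
  have key : ∀ h ≤ B, (1 + (L : ℝ) / B) ^ h ≤ ((G.ballE U r h).card : ℝ) := by
    intro h
    induction h with
    | zero =>
      intro _
      rw [pow_zero]
      have h1 : (G.ballE U r 0).card = 1 := Finset.card_singleton r
      rw [h1, Nat.cast_one]
    | succ h ih =>
      intro hh
      have h1 := ih (by omega)
      have h2 := hne h (by omega)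
      have h3 := Finset.card_le_card (G.ballE_mono U r (Nat.le_succ h))
      have h2' : (L : ℝ) * ((G.ballE U r h).card : ℝ) <
          (((G.ballE U r (h + 1)).card : ℝ) - ((G.ballE U r h).card : ℝ)) * B := by
        rw [← Nat.cast_sub h3]
        exact_mod_cast h2
      have h4 : (L : ℝ) / B * ((G.ballE U r h).card : ℝ) ≤
          ((G.ballE U r (h + 1)).card : ℝ) - ((G.ballE U r h).card : ℝ) := by
        rw [div_mul_eq_mul_div, div_le_iff₀ hB1]
        exact h2'.le
      have h5 : (0 : ℝ) ≤ (L : ℝ) / B := div_nonneg (Nat.cast_nonneg _) hB1.le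
      rw [pow_succ]
      have h6 := mul_le_mul_of_nonneg_right h1 (by linarith : (0 : ℝ) ≤ 1 + (L : ℝ) / B)
      nlinarith
  have h1 := key B le_rfl
  have h2 := bE_bern B L hL hB
  have h3 := G.bE_le (G.ballE U r B)
  have h4 : ((G.ballE U r B).card : ℝ) ≤ G.n := by exact_mod_cast h3
  have h5 : (G.n : ℝ) < 2 ^ L := by exact_mod_cast hn
  linarith

/-- the distance of a vertex is less than `n` -/
theorem distE_lt (U : Finset (Fin G.m)) (r v : Fin G.n) (h : ℕ) (hv : v ∈ G.ballE U r h)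
    (hh : ∀ k < h, v ∉ G.ballE U r k) : h < G.n := by
  have h1 := G.bE_card U r h fun k hk h0 => hh k hk (by
    rw [G.bE_stab U r h0 hk.le] at hv
    exact hv)
  have h2 := G.bE_le (G.ballE U r h)
  omega

/-- a vertex of distance `h + 1` has a neighbour of distance `h` -/
theorem distE_par (U : Finset (Fin G.m)) (r v : Fin G.n) (h : ℕ)
    (hv : v ∈ G.ballE U r (h + 1)) (hh : ∀ k < h + 1, v ∉ G.ballE U r k) :
    ∃ i ∈ U, ∃ w, (G.e i = (v, w) ∨ G.e i = (w, v)) ∧ w ∈ G.ballE U r h ∧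
      ∀ k < h, w ∉ G.ballE U r k := by
  rcases (G.bE_grow U _ v).1 hv with h1 | ⟨i, hi, h1 | h1⟩
  · exact absurd h1 (hh h (by omega))
  · refine ⟨i, hi, (G.e i).2, Or.inl (Prod.ext h1.1 rfl), h1.2, fun k hk hw => ?_⟩
    exact hh (k + 1) (by omega) ((G.bE_grow U _ v).2 (Or.inr ⟨i, hi, Or.inl ⟨h1.1, hw⟩⟩))
  · refine ⟨i, hi, (G.e i).1, Or.inr (Prod.ext rfl h1.1), h1.2, fun k hk hw => ?_⟩
    exact hh (k + 1) (by omega) ((G.bE_grow U _ v).2 (Or.inr ⟨i, hi, Or.inr ⟨h1.1, hw⟩⟩))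

private theorem bE_out (U : Finset (Fin G.m)) (D : Finset (Fin G.n)) (r : Fin G.n) (hr : r ∉ D)
    (hU : ∀ i, (i ∈ U ∧ (G.e i).1 ∉ D ∧ (G.e i).2 ∉ D) ∨ ((G.e i).1 ∈ D ∧ (G.e i).2 ∈ D))
    (k : ℕ) (v : Fin G.n) (h : v ∈ G.ballE U r k) : v ∉ D := by
  induction k generalizing v with
  | zero =>
    rw [show v = r from mem_singleton.1 h]
    exact hr
  | succ k ih =>
    rcases (G.bE_grow U _ v).1 h with h1 | ⟨i, -, h1 | h1⟩
    · exact ih v h1
    · rcases hU i with h2 | h2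
      · rw [← h1.1]
        exact h2.2.1
      · exact absurd h2.2 (ih _ h1.2)
    · rcases hU i with h2 | h2
      · rw [← h1.1]
        exact h2.2.2
      · exact absurd h2.1 (ih _ h1.2)

private theorem bE_within (U : Finset (Fin G.m)) (r : Fin G.n) (k : ℕ) (v : Fin G.n)
    (h : v ∈ G.ballE U r k) : G.Within k r v := by
  induction k generalizing v with
  | zero => exact (mem_singleton.1 h).symm
  | succ k ih =>
    rcases (G.bE_grow U _ v).1 h with h1 | ⟨i, -, h1 | h1⟩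
    · exact Or.inl (ih v h1)
    · exact Or.inr ⟨(G.e i).2, ih _ h1.2, i, Or.inr (Prod.ext h1.1 rfl)⟩
    · exact Or.inr ⟨(G.e i).1, ih _ h1.2, i, Or.inl (Prod.ext rfl h1.1)⟩

private theorem bE_of_within (U : Finset (Fin G.m)) (D : Finset (Fin G.n)) (r : Fin G.n)
    (hr : r ∉ D)
    (hU : ∀ i, (i ∈ U ∧ (G.e i).1 ∉ D ∧ (G.e i).2 ∉ D) ∨ ((G.e i).1 ∈ D ∧ (G.e i).2 ∈ D))
    (k : ℕ) (v : Fin G.n) (h : G.Within k r v) : v ∈ G.ballE U r k := by
  induction k generalizing v with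
  | zero =>
    have h1 : r = v := h
    exact mem_singleton.2 h1.symm
  | succ k ih =>
    rcases h with h | ⟨w, hw, i, hi⟩
    · exact G.bE_sub U _ (ih v h)
    · have h1 := ih w hw
      have h2 : w ∉ D := G.bE_out U D r hr hU k w h1
      rcases hi with hi | hi
      · rcases hU i with h3 | h3
        · exact (G.bE_grow U _ v).2 (Or.inr ⟨i, h3.1, Or.inr (by rw [hi]; exact ⟨rfl, h1⟩)⟩)
        · rw [hi] at h3
          exact absurd h3.1 h2
      · rcases hU i with h3 | h3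
        · exact (G.bE_grow U _ v).2 (Or.inr ⟨i, h3.1, Or.inl (by rw [hi]; exact ⟨rfl, h1⟩)⟩)
        · rw [hi] at h3
          exact absurd h3.2 h2

/-- If every edge either is in `U` and has both ends outside `D` or has both ends in `D`, the balls
around `r ∉ D` are the balls of the graph. -/
theorem ballE_diam (U : Finset (Fin G.m)) (D : Finset (Fin G.n)) (r : Fin G.n) (hr : r ∉ D)
    (hU : ∀ i, (i ∈ U ∧ (G.e i).1 ∉ D ∧ (G.e i).2 ∉ D) ∨ ((G.e i).1 ∈ D ∧ (G.e i).2 ∈ D))
    (d : ℕ) (hd : G.DiamLe d) : G.ballE U r (d + 1) = G.ballE U r d := by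
  refine Finset.Subset.antisymm ?_ (G.ballE_mono U r (Nat.le_succ d))
  intro v hv
  exact G.bE_of_within U D r hr hU d v (hd (d + 1) r v (G.bE_within U r (d + 1) v hv))

end MGraph

end Pool.Agent.Lib.H2
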