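import Pool.Agent.Lib.MP_3493b8_lc.V.Term
import Pool.Agent.Lib.PTC.Prob

/-! Bounds for the size parameter of the second algorithm. -/

set_option autoImplicit false

open Finset

namespace Pool.Agent.Lib.H2

open Pool.Agent.Lib.PTC

/-- the size parameter -/
def szU (q : ℕ) (x : List ℤ) : ℕ :=
  nn x + mm x + NN x + tU x q + smU x q + 2 ^ kU2 x + 2

namespace MGraph

private theorem two_pow_size_leU {a : ℕ} (ha : 0 < a) : 2 ^ Nat.size a ≤ 2 * a := by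
  have h1 : 0 < Nat.size a := Nat.size_pos.2 ha
  have h2 : 2 ^ (Nat.size a - 1) ≤ a := Nat.lt_size.1 (Nat.sub_lt h1 one_pos)
  have h3 : Nat.size a = (Nat.size a - 1) + 1 := by omega
  rw [h3, pow_succ]
  omega

private theorem kE_leU (G : MGraph) (N : ℕ) :
    kE (yU (G.code N)) ≤ 2 * (G.n + G.m + N + 2) := by
  rw [G.yU_code N]
  unfold kE
  rw [(G.sp N).mm_code N]
  have hm : (G.sp N).m = G.m := rfl
  rw [hm]
  rcases Nat.eq_zero_or_pos G.m with h | h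
  · rw [h, Nat.size_zero, pow_zero]
    omega
  · have := two_pow_size_leU h
    omega

private theorem kU_leU {q : ℕ} (hq : 2 ≤ q) : kU q ≤ 4 * q := by
  unfold kU
  rw [pow_succ]
  have := two_pow_size_leU (a := q) (by omega)
  omega

private theorem tU_eq (G : MGraph) (N q : ℕ) : tU (G.code N) q =
    (2 * G.m * ((G.n * G.n + 1) ^ 2 * q ^ (4 * rU (G.code N))) * (kE (yU (G.code N)) * kU q) + 1) *
      (30 * q * (G.n * G.n + G.m + N + 2) * (rU (G.code N) + 1)) := by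
  unfold tU
  rw [G.yU_code N]
  rfl

private theorem smU_eq (G : MGraph) (N q : ℕ) : smU (G.code N) q =
    2 ^ 20 * 2 ^ kU2 (G.code N) * (G.n * G.n + G.m + N + 2) ^ 7 *
      q ^ (4 * rU (G.code N) + 1) := by
  unfold smU
  rw [G.yU_code N]
  rfl

private theorem sq_leU (G : MGraph) (N : ℕ) :
    G.n * G.n + G.m + N + 2 ≤ (G.n + G.m + N + 2) ^ 2 := by
  nlinarith [Nat.zero_le G.n, Nat.zero_le G.m, Nat.zero_le N, Nat.zero_le (G.n * G.m),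
    Nat.zero_le (G.n * N), Nat.zero_le (G.m * N), Nat.zero_le (G.m * G.m), Nat.zero_le (N * N)]

private theorem tU_le (G : MGraph) (N q : ℕ) (hq : 2 ≤ q) :
    tU (G.code N) q ≤ 510 * q ^ 2 * (G.n + G.m + N + 2) ^ 10 * (q ^ 5) ^ rU (G.code N) := by
  have hE := kE_leU G N
  have hU := kU_leU hq
  have h0 := tU_eq G N q
  have hsq := sq_leU G N
  obtain ⟨r, hr⟩ : ∃ r, r = rU (G.code N) := ⟨_, rfl⟩
  obtain ⟨S, hS⟩ : ∃ S, S = G.n + G.m + N + 2 := ⟨_, rfl⟩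
  obtain ⟨T, hT⟩ : ∃ T, T = G.n * G.n + G.m + N + 2 := ⟨_, rfl⟩
  obtain ⟨e, he⟩ : ∃ e, e = kE (yU (G.code N)) := ⟨_, rfl⟩
  obtain ⟨u, hu⟩ : ∃ u, u = kU q := ⟨_, rfl⟩
  rw [← hr, ← he, ← hu, ← hT] at h0
  rw [h0, ← hS, ← hr]
  rw [← he, ← hS] at hE
  rw [← hu] at hU
  rw [← hT, ← hS] at hsq
  have hq0 : 0 < q := by omega
  have hS0 : 0 < S := by omega
  have hS1 : 1 ≤ S := by omega
  have hnT : G.n * G.n + 1 ≤ S ^ 2 := by omega
  have hA : 2 * G.m * ((G.n * G.n + 1) ^ 2 * q ^ (4 * r)) * (e * u) ≤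
      2 * S * ((S ^ 2) ^ 2 * q ^ (4 * r)) * (2 * S * (4 * q)) :=
    Nat.mul_le_mul (Nat.mul_le_mul (by omega)
      (Nat.mul_le_mul_right _ (Nat.pow_le_pow_left hnT 2))) (Nat.mul_le_mul hE hU)
  have hB : 1 ≤ q * S ^ 6 * q ^ (4 * r) := Nat.succ_le_of_lt (by positivity)
  have hC : 2 * G.m * ((G.n * G.n + 1) ^ 2 * q ^ (4 * r)) * (e * u) + 1 ≤
      17 * (q * S ^ 6 * q ^ (4 * r)) := by
    have h1 : 2 * S * ((S ^ 2) ^ 2 * q ^ (4 * r)) * (2 * S * (4 * q)) =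
        16 * (q * S ^ 6 * q ^ (4 * r)) := by ring
    omega
  have hr2 : r + 1 ≤ q ^ r :=
    (Nat.succ_le_of_lt Nat.lt_two_pow_self).trans (Nat.pow_le_pow_left hq r)
  calc (2 * G.m * ((G.n * G.n + 1) ^ 2 * q ^ (4 * r)) * (e * u) + 1) * (30 * q * T * (r + 1))
      ≤ 17 * (q * S ^ 6 * q ^ (4 * r)) * (30 * q * S ^ 2 * q ^ r) :=
        Nat.mul_le_mul hC (Nat.mul_le_mul (Nat.mul_le_mul_left _ hsq) hr2)
    _ = 510 * q ^ 2 * S ^ 8 * (q ^ 5) ^ r := by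
        rw [← pow_mul, show 5 * r = 4 * r + r by ring, pow_add]
        ring
    _ ≤ 510 * q ^ 2 * S ^ 10 * (q ^ 5) ^ r :=
        Nat.mul_le_mul_right _ (Nat.mul_le_mul_left _ (Nat.pow_le_pow_right hS1 (by norm_num)))

private theorem smU_le (G : MGraph) (N q : ℕ) (hq : 2 ≤ q) :
    smU (G.code N) q ≤ 2 ^ 20 * q * (G.n + G.m + N + 2) ^ 14 *
      (q ^ 5) ^ (kU2 (G.code N) + rU (G.code N)) := by
  have h0 := smU_eq G N q
  have hsq := sq_leU G N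
  obtain ⟨r, hr⟩ : ∃ r, r = rU (G.code N) := ⟨_, rfl⟩
  obtain ⟨k, hk⟩ : ∃ k, k = kU2 (G.code N) := ⟨_, rfl⟩
  obtain ⟨S, hS⟩ : ∃ S, S = G.n + G.m + N + 2 := ⟨_, rfl⟩
  obtain ⟨T, hT⟩ : ∃ T, T = G.n * G.n + G.m + N + 2 := ⟨_, rfl⟩
  rw [← hr, ← hk, ← hT] at h0
  rw [h0, ← hS, ← hr, ← hk]
  rw [← hT, ← hS] at hsq
  have hq1 : 1 ≤ q := by omega
  have h1 : 2 ^ k ≤ (q ^ 5) ^ k :=
    Nat.pow_le_pow_left (hq.trans (Nat.le_self_pow (by norm_num) q)) k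
  have h2 : q ^ (4 * r) ≤ (q ^ 5) ^ r := by
    rw [← pow_mul]
    exact Nat.pow_le_pow_right hq1 (by omega)
  have h3 : T ^ 7 ≤ S ^ 14 := by
    calc T ^ 7 ≤ (S ^ 2) ^ 7 := Nat.pow_le_pow_left hsq 7
      _ = S ^ 14 := by rw [← pow_mul]
  calc 2 ^ 20 * 2 ^ k * T ^ 7 * q ^ (4 * r + 1) = 2 ^ 20 * q * T ^ 7 * (2 ^ k * q ^ (4 * r)) := by
        rw [pow_succ]
        ring
    _ ≤ 2 ^ 20 * q * S ^ 14 * ((q ^ 5) ^ k * (q ^ 5) ^ r) :=
        Nat.mul_le_mul (Nat.mul_le_mul_left _ h3) (Nat.mul_le_mul h1 h2)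
    _ = 2 ^ 20 * q * S ^ 14 * (q ^ 5) ^ (k + r) := by rw [← pow_add]

/-- the size parameter in terms of the number of extra copies and the radius -/
theorem szU_le (q : ℕ) (hq : 2 ≤ q) : ∃ C : ℕ, 2 ≤ C ∧ ∀ (G : MGraph) (N : ℕ), 1 ≤ N →
    szU q (G.code N) ≤ (G.n + G.m + N + 2) ^ C * C ^ (kU2 (G.code N) + rU (G.code N)) := by
  refine ⟨q ^ 5 + 2 * q + 35, by omega, fun G N _ => ?_⟩
  have ht := tU_le G N q hq
  have hs := smU_le G N q hq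
  obtain ⟨r, hr⟩ : ∃ r, r = rU (G.code N) := ⟨_, rfl⟩
  obtain ⟨k, hk⟩ : ∃ k, k = kU2 (G.code N) := ⟨_, rfl⟩
  obtain ⟨S, hS⟩ : ∃ S, S = G.n + G.m + N + 2 := ⟨_, rfl⟩
  obtain ⟨E, hE⟩ : ∃ E, E = (q ^ 5) ^ (k + r) := ⟨_, rfl⟩
  have h0 : szU q (G.code N) = S + tU (G.code N) q + smU (G.code N) q + 2 ^ k := by
    have h1 : szU q (G.code N) =
        G.n + G.m + N + tU (G.code N) q + smU (G.code N) q + 2 ^ k + 2 := by
      rw [hk]
      rfl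
    rw [h1, hS]
    ring
  rw [h0, ← hS, ← hr, ← hk]
  rw [← hS, ← hr] at ht
  rw [← hS, ← hr, ← hk, ← hE] at hs
  have hq1 : 1 ≤ q := by omega
  have hS2 : 2 ≤ S := by omega
  have hS1 : 1 ≤ S := by omega
  have hq5 : 1 ≤ q ^ 5 := Nat.one_le_pow _ _ hq1
  have hE1 : 1 ≤ E := by
    rw [hE]
    exact Nat.one_le_pow _ _ hq5
  have hq2 : 1 ≤ q ^ 2 := Nat.one_le_pow _ _ hq1
  have hrE : (q ^ 5) ^ r ≤ E := by
    rw [hE]
    exact Nat.pow_le_pow_right hq5 (by omega)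
  have h1 : S ≤ q ^ 2 * S ^ 14 * E := by
    calc S = 1 * S * 1 := by ring
      _ ≤ q ^ 2 * S ^ 14 * E :=
        Nat.mul_le_mul (Nat.mul_le_mul hq2 (Nat.le_self_pow (by norm_num) S)) hE1
  have h2 : tU (G.code N) q ≤ 510 * (q ^ 2 * S ^ 14 * E) := by
    refine ht.trans ?_
    calc 510 * q ^ 2 * S ^ 10 * (q ^ 5) ^ r ≤ 510 * q ^ 2 * S ^ 14 * E :=
          Nat.mul_le_mul (Nat.mul_le_mul_left _ (Nat.pow_le_pow_right hS1 (by norm_num))) hrE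
      _ = 510 * (q ^ 2 * S ^ 14 * E) := by ring
  have h3 : smU (G.code N) q ≤ 2 ^ 20 * (q ^ 2 * S ^ 14 * E) := by
    refine hs.trans ?_
    calc 2 ^ 20 * q * S ^ 14 * E ≤ 2 ^ 20 * q ^ 2 * S ^ 14 * E :=
          Nat.mul_le_mul_right _ (Nat.mul_le_mul_right _
            (Nat.mul_le_mul_left _ (Nat.le_self_pow (by norm_num) q)))
      _ = 2 ^ 20 * (q ^ 2 * S ^ 14 * E) := by ring
  have h4 : 2 ^ k ≤ q ^ 2 * S ^ 14 * E := by
    have h5 : 2 ^ k ≤ E := by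
      rw [hE]
      calc 2 ^ k ≤ (q ^ 5) ^ k :=
            Nat.pow_le_pow_left (hq.trans (Nat.le_self_pow (by norm_num) q)) k
        _ ≤ (q ^ 5) ^ (k + r) := Nat.pow_le_pow_right hq5 (by omega)
    have h6 : 1 ≤ q ^ 2 * S ^ 14 := Nat.succ_le_of_lt (by positivity)
    calc 2 ^ k ≤ 1 * E := by rw [one_mul]; exact h5
      _ ≤ q ^ 2 * S ^ 14 * E := Nat.mul_le_mul_right _ h6
  have h5 : S + tU (G.code N) q + smU (G.code N) q + 2 ^ k ≤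
      2 ^ 21 * (q ^ 2 * S ^ 14 * E) := by omega
  refine h5.trans ?_
  have h6 : 2 ^ 21 * q ^ 2 ≤ S ^ (21 + 2 * q) := by
    have h7 : q ^ 2 ≤ 2 ^ (2 * q) := by
      rw [mul_comm, pow_mul]
      exact Nat.pow_le_pow_left Nat.lt_two_pow_self.le 2
    calc 2 ^ 21 * q ^ 2 ≤ 2 ^ 21 * 2 ^ (2 * q) := Nat.mul_le_mul_left _ h7
      _ = 2 ^ (21 + 2 * q) := (pow_add _ _ _).symm
      _ ≤ S ^ (21 + 2 * q) := Nat.pow_le_pow_left hS2 _
  calc 2 ^ 21 * (q ^ 2 * S ^ 14 * E) = (2 ^ 21 * q ^ 2) * S ^ 14 * E := by ring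
    _ ≤ S ^ (21 + 2 * q) * S ^ 14 * E := Nat.mul_le_mul_right _ (Nat.mul_le_mul_right _ h6)
    _ = S ^ (21 + 2 * q + 14) * E := by rw [← pow_add]
    _ ≤ S ^ (q ^ 5 + 2 * q + 35) * (q ^ 5 + 2 * q + 35) ^ (k + r) := by
        refine Nat.mul_le_mul (Nat.pow_le_pow_right hS1 (by omega)) ?_
        rw [hE]
        exact Nat.pow_le_pow_left (by omega) _

/-- the input is valid for the size parameter -/
theorem szU_valid (G : MGraph) (N q : ℕ) (hN : 1 ≤ N) (hq : 2 ≤ q) :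
    2 ≤ szU q (G.code N) ∧ Valid (G.code N) (szU q (G.code N)) := by
  have h1 := tU_eq G N q
  obtain ⟨r, hr⟩ : ∃ r, r = rU (G.code N) := ⟨_, rfl⟩
  have h0 : szU q (G.code N) =
      G.n + G.m + N + tU (G.code N) q + smU (G.code N) q + 2 ^ kU2 (G.code N) + 2 := rfl
  have ht : 30 * (G.m + 2) ≤ tU (G.code N) q := by
    rw [h1]
    calc 30 * (G.m + 2) = 1 * (30 * 1 * (G.m + 2) * 1) := by ring
      _ ≤ _ := Nat.mul_le_mul (by omega) (Nat.mul_le_mul (Nat.mul_le_mul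
          (Nat.mul_le_mul_left _ (by omega)) (by omega)) (by omega))
  have h5 : 2 * G.m + 3 ≤ szU q (G.code N) ∧ G.n + G.m + N ≤ szU q (G.code N) := by
    rw [h0]
    generalize tU (G.code N) q = t at ht
    generalize smU (G.code N) q = s
    generalize 2 ^ kU2 (G.code N) = P
    omega
  refine ⟨by omega, ?_, fun a ha => ?_⟩
  · rw [G.length_code N]
    omega
  · obtain ⟨h1, h2⟩ := G.mem_code N a ha
    refine ⟨h1, lt_of_le_of_lt h2 ?_⟩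
    have h3 : G.n + G.m + N < 2 ^ szU q (G.code N) :=
      lt_of_lt_of_le Nat.lt_two_pow_self (Nat.pow_le_pow_right (by norm_num) h5.2)
    exact_mod_cast h3

private theorem szU_pow (C0 C1 : ℕ) (G : MGraph) (N : ℕ) {s : ℕ} {k : ℕ}
    (h : s ≤ (G.n + G.m + N + 2) ^ C1 * C1 ^ k) :
    (s : ℝ) ^ C0 ≤ ((G.n : ℝ) + G.m + N + 2) ^ (C1 * C0) * ((C1 : ℝ) ^ k) ^ C0 := by
  have h1 : (s : ℝ) ≤ ((G.n : ℝ) + G.m + N + 2) ^ C1 * (C1 : ℝ) ^ k := by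
    have h2 : (s : ℝ) ≤ (((G.n + G.m + N + 2) ^ C1 * C1 ^ k : ℕ) : ℝ) := by exact_mod_cast h
    push_cast at h2
    exact h2
  refine (pow_le_pow_left₀ (Nat.cast_nonneg _) h1 C0).trans_eq ?_
  rw [mul_pow, ← pow_mul]

/-- powers of the size parameter, for all graphs -/
theorem szU_sqrt (q C0 : ℕ) (hq : 2 ≤ q) : ∃ C : ℕ, ∀ (C' : ℕ), C ≤ C' →
    ∀ (G : MGraph) (N : ℕ), 1 ≤ N →
      (szU q (G.code N) : ℝ) ^ C0 ≤ ((G.n : ℝ) + G.m + N + 2) ^ C' *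
        (C' : ℝ) ^ Real.sqrt (G.n * Real.log (G.n + 2)) := by
  obtain ⟨C1, hC1, h⟩ := szU_le q hq
  refine ⟨14 * C1 * C0 + C1 ^ (10 * C0), fun C' hC' G N hN => ?_⟩
  obtain ⟨b, hb⟩ : ∃ b : ℝ, b = (G.n : ℝ) + G.m + N + 2 := ⟨_, rfl⟩
  obtain ⟨S, hS⟩ : ∃ S : ℝ, S = Real.sqrt (G.n * Real.log (G.n + 2)) := ⟨_, rfl⟩
  have hS0 : 0 ≤ S := by rw [hS]; exact Real.sqrt_nonneg _
  have hn0 : (0 : ℝ) ≤ G.n := Nat.cast_nonneg _
  have hm0 : (0 : ℝ) ≤ G.m := Nat.cast_nonneg _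
  have hN0 : (0 : ℝ) ≤ N := Nat.cast_nonneg _
  have hb2 : 2 ≤ b := by rw [hb]; linarith
  have hb1 : 1 ≤ b := by linarith
  have hb0 : 0 < b := by linarith
  have hmb : (G.n : ℝ) + 2 ≤ b := by rw [hb]; linarith
  have hC1r : (2 : ℝ) ≤ C1 := by exact_mod_cast hC1
  have hC10 : (0 : ℝ) < C1 := by linarith
  have hC11 : (1 : ℝ) ≤ C1 := by linarith
  have h1 := szU_pow C0 C1 G N (h G N hN)
  rw [← hb] at h1
  rw [← hb, ← hS]
  have h2 := G.kU2_rU_sqrt N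
  rw [← hS] at h2
  have h3 : (C1 : ℝ) ^ (kU2 (G.code N) + rU (G.code N)) ≤
      b ^ (13 * C1) * ((C1 : ℝ) ^ 10) ^ S := by
    have e1 : (C1 : ℝ) ^ (kU2 (G.code N) + rU (G.code N)) =
        (C1 : ℝ) ^ ((kU2 (G.code N) : ℝ) + rU (G.code N)) := by
      rw [← Real.rpow_natCast]
      push_cast
      rfl
    rw [e1]
    refine (Real.rpow_le_rpow_of_exponent_le hC11 h2).trans ?_
    rw [Real.rpow_add hC10, Real.rpow_add hC10]
    have e2 : (C1 : ℝ) ^ (10 * S) = ((C1 : ℝ) ^ 10) ^ S := by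
      rw [Real.rpow_mul hC10.le]
      norm_cast
    have e3 : (C1 : ℝ) ^ (10 * Real.log (G.n + 2)) ≤ b ^ (10 * C1) := by
      have e4 : (C1 : ℝ) ^ (10 * Real.log (G.n + 2)) = ((G.n : ℝ) + 2) ^ (10 * Real.log C1) := by
        rw [Real.rpow_def_of_pos hC10, Real.rpow_def_of_pos (by linarith)]
        congr 1
        ring
      rw [e4]
      have hl : Real.log C1 ≤ C1 := (Real.log_le_sub_one_of_pos hC10).trans (by linarith)
      have hl0 : 0 ≤ Real.log C1 := Real.log_nonneg hC11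
      calc ((G.n : ℝ) + 2) ^ (10 * Real.log C1) ≤ b ^ (10 * Real.log C1) :=
            Real.rpow_le_rpow (by linarith) hmb (by linarith)
        _ ≤ b ^ ((10 * C1 : ℕ) : ℝ) := by
            refine Real.rpow_le_rpow_of_exponent_le hb1 ?_
            push_cast
            linarith
        _ = b ^ (10 * C1) := Real.rpow_natCast _ _
    have e5 : (C1 : ℝ) ^ (3 : ℝ) ≤ b ^ (3 * C1) := by
      have e6 : (C1 : ℝ) ≤ b ^ C1 := by
        have e7 : (C1 : ℝ) ≤ (2 : ℝ) ^ C1 := by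
          exact_mod_cast (Nat.lt_two_pow_self (n := C1)).le
        exact e7.trans (pow_le_pow_left₀ (by norm_num) hb2 _)
      have e8 : (C1 : ℝ) ^ (3 : ℝ) = (C1 : ℝ) ^ (3 : ℕ) := by
        rw [← Real.rpow_natCast]
        norm_num
      rw [e8, mul_comm 3 C1, pow_mul]
      exact pow_le_pow_left₀ hC10.le e6 3
    rw [e2]
    have e9 : (0 : ℝ) ≤ ((C1 : ℝ) ^ 10) ^ S := Real.rpow_nonneg (by positivity) _
    calc ((C1 : ℝ) ^ 10) ^ S * (C1 : ℝ) ^ (10 * Real.log (G.n + 2)) * (C1 : ℝ) ^ (3 : ℝ) ≤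
          ((C1 : ℝ) ^ 10) ^ S * b ^ (10 * C1) * b ^ (3 * C1) := by
            refine mul_le_mul (mul_le_mul_of_nonneg_left e3 e9) e5 (Real.rpow_nonneg hC10.le _) ?_
            exact mul_nonneg e9 (pow_nonneg hb0.le _)
      _ = b ^ (13 * C1) * ((C1 : ℝ) ^ 10) ^ S := by
            rw [mul_assoc, ← pow_add, mul_comm]
            congr 2
            ring
  have h4 : ((C1 : ℝ) ^ (kU2 (G.code N) + rU (G.code N))) ^ C0 ≤
      b ^ (13 * C1 * C0) * ((C1 : ℝ) ^ (10 * C0)) ^ S := by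
    refine (pow_le_pow_left₀ (by positivity) h3 C0).trans_eq ?_
    rw [mul_pow, ← pow_mul, pow_mul (C1 : ℝ) 10 C0, ← Real.rpow_natCast (((C1 : ℝ) ^ 10) ^ S) C0,
      ← Real.rpow_mul (by positivity), mul_comm S, Real.rpow_mul (by positivity),
      Real.rpow_natCast]
  have h5 : b ^ (C1 * C0) * b ^ (13 * C1 * C0) ≤ b ^ C' := by
    rw [← pow_add]
    refine pow_le_pow_right₀ hb1 ?_
    have : C1 * C0 + 13 * C1 * C0 = 14 * C1 * C0 := by ring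
    rw [this]
    omega
  have h6 : ((C1 : ℝ) ^ (10 * C0)) ^ S ≤ (C' : ℝ) ^ S := by
    refine Real.rpow_le_rpow (by positivity) ?_ hS0
    have : C1 ^ (10 * C0) ≤ C' := by omega
    exact_mod_cast this
  calc (szU q (G.code N) : ℝ) ^ C0 ≤
        b ^ (C1 * C0) * ((C1 : ℝ) ^ (kU2 (G.code N) + rU (G.code N))) ^ C0 := h1
    _ ≤ b ^ (C1 * C0) * (b ^ (13 * C1 * C0) * ((C1 : ℝ) ^ (10 * C0)) ^ S) :=
        mul_le_mul_of_nonneg_left h4 (by positivity)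
    _ = b ^ (C1 * C0) * b ^ (13 * C1 * C0) * ((C1 : ℝ) ^ (10 * C0)) ^ S := by ring
    _ ≤ b ^ C' * (C' : ℝ) ^ S := mul_le_mul h5 h6 (by positivity) (by positivity)

/-- powers of the size parameter, for graphs of bounded diameter -/
theorem szU_diam (q C0 : ℕ) (hq : 2 ≤ q) : ∃ C : ℕ, ∀ (C' : ℕ), C ≤ C' →
    ∀ (G : MGraph) (N : ℕ), 1 ≤ N → ∀ d : ℕ, G.DiamLe d →
      (szU q (G.code N) : ℝ) ^ C0 ≤ ((G.n : ℝ) + G.m + N + 2) ^ C' * (C' : ℝ) ^ d := by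
  obtain ⟨C1, hC1, h⟩ := szU_le q hq
  refine ⟨C1 * C0 + C1 ^ (2 * C0), fun C' hC' G N hN d hd => ?_⟩
  have hn0 : (0 : ℝ) ≤ G.n := Nat.cast_nonneg _
  have hm0 : (0 : ℝ) ≤ G.m := Nat.cast_nonneg _
  have hN0 : (0 : ℝ) ≤ N := Nat.cast_nonneg _
  have hb1 : 1 ≤ (G.n : ℝ) + G.m + N + 2 := by linarith
  have hC1r : (2 : ℝ) ≤ C1 := by exact_mod_cast hC1
  have h1 := szU_pow C0 C1 G N (h G N hN)
  obtain ⟨h2, h3⟩ := G.kU2_diam N d hd
  refine h1.trans ?_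
  have h4 : ((G.n : ℝ) + G.m + N + 2) ^ (C1 * C0) ≤ ((G.n : ℝ) + G.m + N + 2) ^ C' :=
    pow_le_pow_right₀ hb1 (by omega)
  have h5 : ((C1 : ℝ) ^ (kU2 (G.code N) + rU (G.code N))) ^ C0 ≤ (C' : ℝ) ^ d := by
    have h6 : (C1 : ℝ) ^ (kU2 (G.code N) + rU (G.code N)) ≤ (C1 : ℝ) ^ (2 * d) :=
      pow_le_pow_right₀ (by linarith) (by omega)
    refine (pow_le_pow_left₀ (by positivity) h6 C0).trans ?_
    have h7 : ((C1 : ℝ) ^ (2 * d)) ^ C0 = ((C1 : ℝ) ^ (2 * C0)) ^ d := by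
      rw [← pow_mul, ← pow_mul]
      congr 1
      ring
    rw [h7]
    refine pow_le_pow_left₀ (by positivity) ?_ d
    have : C1 ^ (2 * C0) ≤ C' := by omega
    exact_mod_cast this
  exact mul_le_mul h4 h5 (by positivity) (by positivity)

end MGraph

end Pool.Agent.Lib.H2
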