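import Pool.Agent.Lib.MP_3493b8_lc.CompD
import Pool.Agent.Lib.MP_3493b8_lc.V.Alg

/-! The functions of the algorithm at a virtual input `y x` are computable in polynomial time. -/

set_option autoImplicit false
set_option linter.unusedVariables false

open Finset

namespace Pool.Agent.Lib.H2

open Pool.Agent.Lib.PTC

variable {S : List ℤ → ℕ} {σ : Type} [Tup σ] {y : List ℤ → List ℤ}

/-- The virtual input `y x` is computable, the size parameter dominates its size. -/
structure DomY (S : List ℤ → ℕ) (y : List ℤ → List ℤ) : Prop where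
  cn : Comp S fun x (_ : Unit) => nn (y x)
  cm : Comp S fun x (_ : Unit) => mm (y x)
  cN : Comp S fun x (_ : Unit) => NN (y x)
  tn : Tm S fun x (_ : Unit) => nn (y x)
  tm : Tm S fun x (_ : Unit) => mm (y x)
  tN : Tm S fun x (_ : Unit) => NN (y x)
  cu : Comp S fun x (i : ℕ) => eu (y x) i
  cv : Comp S fun x (i : ℕ) => ev (y x) i

theorem y_nn (H : DomY S y) : Comp S fun x (_ : σ) => nn (y x) := H.cn.comp (Comp.const ())

theorem y_mm (H : DomY S y) : Comp S fun x (_ : σ) => mm (y x) := H.cm.comp (Comp.const ())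

theorem y_NN (H : DomY S y) : Comp S fun x (_ : σ) => NN (y x) := H.cN.comp (Comp.const ())

theorem ty_nn (H : DomY S y) : Tm S fun x (_ : σ) => nn (y x) := H.tn.comp (Comp.const ())

theorem ty_mm (H : DomY S y) : Tm S fun x (_ : σ) => mm (y x) := H.tm.comp (Comp.const ())

theorem ty_NN (H : DomY S y) : Tm S fun x (_ : σ) => NN (y x) := H.tN.comp (Comp.const ())

theorem y_eu (H : DomY S y) {i : List ℤ → σ → ℕ} (hi : Comp S i) :
    Comp S fun x w => eu (y x) (i x w) := H.cu.comp hi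

theorem y_ev (H : DomY S y) {i : List ℤ → σ → ℕ} (hi : Comp S i) :
    Comp S fun x w => ev (y x) (i x w) := H.cv.comp hi

theorem y_incN (H : DomY S y) {i v : List ℤ → σ → ℕ} (hi : Comp S i) (hv : Comp S v) :
    Comp S fun x w => incN (y x) (i x w) (v x w) := by
  unfold incN
  exact Comp.add (Comp.ite (CompP.eq (y_eu H hi) hv) (Comp.const 1) (Comp.const 0))
    (Comp.ite (CompP.eq (y_ev H hi) hv) (Comp.const 1) (Comp.const 0))

theorem y_bdN (H : DomY S y) {A v : List ℤ → σ → ℕ} (hA : Comp S A) (hv : Comp S v) :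
    Comp S fun x w => bdN (y x) (A x w) (v x w) := by
  unfold bdN
  exact Comp.mod (Comp.sum (Comp.ite (CompP.testBit hA.up Comp.id.snd) (y_incN H Comp.id.snd hv.up)
    (Comp.const 0)) (y_mm H) (ty_mm H)) (Comp.const 2)

theorem y_defN (H : DomY S y) {T A : List ℤ → σ → ℕ} (hT : Comp S T) (hA : Comp S A) :
    Comp S fun x w => defN (y x) (T x w) (A x w) := by
  unfold defN
  exact Comp.sum (Comp.ite (CompP.eq (y_bdN H hA.up Comp.id.snd)
    (Comp.ite (CompP.testBit hT.up Comp.id.snd) (Comp.const 1) (Comp.const 0))) (Comp.const 0)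
    (Comp.const 1)) (y_nn H) (ty_nn H)

theorem y_kE (H : DomY S y) : Comp S fun x (_ : σ) => kE (y x) := by
  unfold kE
  exact Comp.pow2 (Comp.size (y_mm H)) (Tm.size (Comp.bd (y_mm H)))

theorem ty_kE (H : DomY S y) : Tm S fun x (_ : σ) => kE (y x) :=
  (((Tm.const 2).mul (ty_mm H)).add (Tm.const 1)).mono fun x _ => two_pow_size_le _

theorem y_stepN (H : DomY S y) (p q : ℕ) {F T j d A : List ℤ → σ → ℕ} (hF : Comp S F) (hT : Comp S T)
    (hj : Comp S j) (hd : Comp S d) (hA : Comp S A) :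
    Comp S fun x w => stepN (y x) p q (F x w) (T x w) (j x w) (d x w) (A x w) := by
  have hi : Comp S fun x w => d x w % kE (y x) := Comp.mod hd (y_kE H)
  have ti : Tm S fun x w => d x w % kE (y x) :=
    (ty_kE H).mono fun x w => (Nat.mod_lt _ (kE_pos (y x))).le
  have ht : Comp S fun x w => tog (A x w) (d x w % kE (y x)) := c_tog hA hi ti
  unfold stepN
  exact Comp.ite (CompP.and (CompP.lt hi (y_mm H)) (CompP.and (CompP.testBit_false hF hi)
    (CompP.and (CompP.le (y_defN H hT ht) (Comp.const 2)) (CompP.lt (Comp.div hd (y_kE H))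
      (Comp.ite (CompP.and (CompP.testBit_false hA hi) (CompP.lt hi hj)) (Comp.const p)
        (Comp.const q)))))) ht hA

theorem y_runN (H : DomY S y) (p q : ℕ) {F T j t r A : List ℤ → σ → ℕ} (hF : Comp S F) (hT : Comp S T)
    (hj : Comp S j) (ht : Comp S t) (tt : Tm S t) (hr : Comp S r) (hA : Comp S A) :
    Comp S fun x w => runN (y x) p q (F x w) (T x w) (j x w) (t x w) (r x w) (A x w) := by
  unfold runN
  refine Comp.itr_nat (F := fun x w => A x w + t x w * 2 ^ kE (y x))
    (y_stepN H p q hF.up hT.up hj.up (c_digs (Comp.mul (y_kE H) (Comp.const (kU q))) hr.up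
      Comp.id.snd.fst) Comp.id.snd.snd) hA ht tt
    (hA.bd.add (ht.bd.mul ((Bd.const 2).pow (ty_kE H)))) fun x w i hi => ?_
  have key : ∀ i, itr (fun i B => stepN (y x) p q (F x w) (T x w) (j x w)
      (digs (kE (y x) * kU q) (r x w) i) B) (A x w) i ≤ A x w + i * 2 ^ kE (y x) := by
    intro i
    induction i with
    | zero => rw [itr]; omega
    | succ i ih =>
      rw [itr]
      refine (stepN_le _ _ _ _ _ _ _ _).trans ?_
      rw [Nat.succ_mul]
      omega
  exact (key i).trans (Nat.add_le_add_left (Nat.mul_le_mul_right _ hi) _)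

theorem y_smpN (H : DomY S y) (p q : ℕ) {F T A j t ω i : List ℤ → σ → ℕ} (hF : Comp S F) (hT : Comp S T)
    (hA : Comp S A) (hj : Comp S j) (ht : Comp S t) (tt : Tm S t) (hω : Comp S ω) (hi : Comp S i) :
    Comp S fun x w => smpN (y x) p q (F x w) (T x w) (A x w) (j x w) (t x w) (ω x w) (i x w) := by
  unfold smpN
  exact y_runN H p q hF hT hj ht tt (c_digs (Comp.pow (Comp.mul (y_kE H) (Comp.const (kU q))) ht tt) hω hi) hA

theorem y_cntU (H : DomY S y) (p q : ℕ) {F T A j t s o ω : List ℤ → σ → ℕ} (hF : Comp S F)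
    (hT : Comp S T) (hA : Comp S A) (hj : Comp S j) (ht : Comp S t) (tt : Tm S t) (hs : Comp S s)
    (ts : Tm S s) (ho : Comp S o) (hω : Comp S ω) :
    Comp S fun x w => cntU (y x) p q (F x w) (T x w) (A x w) (j x w) (t x w) (s x w) (o x w) (ω x w) := by
  unfold cntU
  exact Comp.sum (Comp.ite (CompP.eq (y_defN H hT.up (y_smpN H p q hF.up hT.up hA.up hj.up ht.up tt.up
    hω.up (Comp.add ho.up Comp.id.snd))) (Comp.const 0)) (Comp.const 1) (Comp.const 0)) hs ts

theorem y_cntB (H : DomY S y) (p q : ℕ) {F T A j t s o ω : List ℤ → σ → ℕ} (hF : Comp S F)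
    (hT : Comp S T) (hA : Comp S A) (hj : Comp S j) (ht : Comp S t) (tt : Tm S t) (hs : Comp S s)
    (ts : Tm S s) (ho : Comp S o) (hω : Comp S ω) :
    Comp S fun x w => cntB (y x) p q (F x w) (T x w) (A x w) (j x w) (t x w) (s x w) (o x w) (ω x w) := by
  unfold cntB
  have h := y_smpN H p q hF.up hT.up hA.up hj.up ht.up tt.up hω.up (Comp.add ho.up (Comp.id (S := S) (σ := σ × ℕ)).snd)
  exact Comp.sum (Comp.ite (CompP.and (CompP.eq (y_defN H hT.up h) (Comp.const 0))
    (CompP.testBit h hj.up)) (Comp.const 1) (Comp.const 0)) hs ts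

theorem y_numX (H : DomY S y) (p q : ℕ) {F T A t s a ω : List ℤ → σ → ℕ} (hF : Comp S F)
    (hT : Comp S T) (hA : Comp S A) (ht : Comp S t) (tt : Tm S t) (hs : Comp S s)
    (ts : Tm S s) (ha : Comp S a) (hω : Comp S ω) :
    Comp S fun x w => numX (y x) p q (F x w) (T x w) (A x w) (t x w) (s x w) (a x w) (ω x w) := by
  unfold numX
  have ho : Comp S fun x (v : σ × ℕ) => (a x v.1 * mm (y x) + v.2) * s x v.1 :=
    Comp.mul (Comp.add (Comp.mul ha.up (y_mm H)) Comp.id.snd) hs.up
  have hj : Comp S fun _ (v : σ × ℕ) => v.2 := Comp.id.snd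
  have hU := y_cntU H p q hF.up hT.up hA.up hj ht.up tt.up hs.up ts.up ho hω.up
  have hB := y_cntB H p q hF.up hT.up hA.up hj ht.up tt.up hs.up ts.up ho hω.up
  exact Comp.prod (Comp.add (Comp.mul (Comp.const q) (Comp.sub hU hB)) (Comp.mul (Comp.const p) hB))
    (y_mm H) (ty_mm H)

theorem y_denX (H : DomY S y) (p q : ℕ) {F T A t s a ω : List ℤ → σ → ℕ} (hF : Comp S F)
    (hT : Comp S T) (hA : Comp S A) (ht : Comp S t) (tt : Tm S t) (hs : Comp S s)
    (ts : Tm S s) (ha : Comp S a) (hω : Comp S ω) :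
    Comp S fun x w => denX (y x) p q (F x w) (T x w) (A x w) (t x w) (s x w) (a x w) (ω x w) := by
  unfold denX
  have ho : Comp S fun x (v : σ × ℕ) => (a x v.1 * mm (y x) + v.2) * s x v.1 :=
    Comp.mul (Comp.add (Comp.mul ha.up (y_mm H)) Comp.id.snd) hs.up
  have hj : Comp S fun _ (v : σ × ℕ) => v.2 := Comp.id.snd
  have hU := y_cntU H p q hF.up hT.up hA.up hj ht.up tt.up hs.up ts.up ho hω.up
  exact Comp.prod (Comp.mul (Comp.const q) hU) (y_mm H) (ty_mm H)

/-- the loop variable below the number of edges -/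
theorem y_im (H : DomY S y) : Comp S fun x (v : σ × ℕ) => min v.2 (mm (y x)) := Comp.min Comp.id.snd (y_mm H)

theorem ty_im (H : DomY S y) : Tm S fun x (v : σ × ℕ) => min v.2 (mm (y x)) := Tm.min_right (ty_mm H)

theorem y_in (H : DomY S y) : Comp S fun x (v : σ × ℕ) => min v.2 (nn (y x)) := Comp.min Comp.id.snd (y_nn H)

theorem ty_in (H : DomY S y) : Tm S fun x (v : σ × ℕ) => min v.2 (nn (y x)) := Tm.min_right (ty_nn H)

theorem y_layN (H : DomY S y) {Ly v : List ℤ → σ → ℕ} (hL : Comp S Ly) (hv : Comp S v) :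
    Comp S fun x w => layN (y x) (Ly x w) (v x w) := by
  unfold layN
  exact Comp.digit hL (Comp.add (y_nn H) (Comp.const 2)) hv

theorem y_parN (H : DomY S y) {Ly F v : List ℤ → σ → ℕ} (hL : Comp S Ly) (hF : Comp S F) (hv : Comp S v) :
    Comp S fun x w => parN (y x) (Ly x w) (F x w) (v x w) := by
  unfold parN
  have hi : Comp S fun _ (p : σ × ℕ) => p.2 := Comp.id.snd
  exact c_srch (CompP.and (CompP.testBit_false hF.up hi) (CompP.or
    (CompP.and (CompP.eq (y_eu H hi) hv.up) (CompP.eq (Comp.succ (y_layN H hL.up (y_ev H hi)))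
      (y_layN H hL.up hv.up)))
    (CompP.and (CompP.eq (y_ev H hi) hv.up) (CompP.eq (Comp.succ (y_layN H hL.up (y_eu H hi)))
      (y_layN H hL.up hv.up))))) (y_mm H) (ty_mm H)

theorem y_othN (H : DomY S y) {i v : List ℤ → σ → ℕ} (hi : Comp S i) (hv : Comp S v) :
    Comp S fun x w => othN (y x) (i x w) (v x w) := by
  unfold othN
  exact Comp.ite (CompP.eq (y_eu H hi) hv) (y_ev H hi) (y_eu H hi)

theorem y_pathN (H : DomY S y) {Ly F v i : List ℤ → σ → ℕ} (hL : Comp S Ly) (hF : Comp S F)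
    (hv : Comp S v) (hi : Comp S i) :
    Comp S fun x w => pathN (y x) (Ly x w) (F x w) (v x w) (i x w) := by
  unfold pathN
  refine Comp.snd (Comp.itr_le (F := fun x w => v x w +
    (range (mm (y x) + 1)).sup (fun i => eu (y x) i + ev (y x) i) + nn (y x)) ?_ (Comp.pair hv (Comp.const 0)) (y_nn H)
    (ty_nn H) ?_ fun x w s hs => ?_)
  · have hc : Comp S fun _ (p : σ × ℕ × ℕ × ℕ) => p.2.2.1 := Comp.id.snd.snd.fst
    have hp := y_parN H hL.up hF.up hc
    exact Comp.ite (CompP.le (Comp.const 2) (y_layN H hL.up hc))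
      (Comp.pair (y_othN H hp hc) (Comp.add Comp.id.snd.snd.snd (Comp.ite (CompP.eq hp hi.up)
        (Comp.const 1) (Comp.const 0)))) Comp.id.snd.snd
  · exact (hv.bd.add (Bd.sup (F := fun x (_ : σ) i => eu (y x) i + ev (y x) i)
      ((y_eu H Comp.id.snd).bd.add (y_ev H Comp.id.snd).bd) (y_mm H).bd)).add (y_nn H).bd
  · have key : ∀ s ≤ nn (y x), (itr (fun _ (c : ℕ × ℕ) => if 2 ≤ layN (y x) (Ly x w) c.1 then
        (othN (y x) (parN (y x) (Ly x w) (F x w) c.1) c.1,
          c.2 + (if parN (y x) (Ly x w) (F x w) c.1 = i x w then 1 else 0)) else c) (v x w, 0) s).1 ≤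
        v x w + (range (mm (y x) + 1)).sup (fun i => eu (y x) i + ev (y x) i) ∧
        (itr (fun _ (c : ℕ × ℕ) => if 2 ≤ layN (y x) (Ly x w) c.1 then
        (othN (y x) (parN (y x) (Ly x w) (F x w) c.1) c.1,
          c.2 + (if parN (y x) (Ly x w) (F x w) c.1 = i x w then 1 else 0)) else c) (v x w, 0) s).2 ≤ s := by
      intro s
      induction s with
      | zero => intro _; exact ⟨Nat.le_add_right _ _, le_rfl⟩
      | succ s ih =>
        intro hs
        obtain ⟨h1, h2⟩ := ih (by omega)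
        rw [itr]
        generalize itr (fun _ (c : ℕ × ℕ) => if 2 ≤ layN (y x) (Ly x w) c.1 then
          (othN (y x) (parN (y x) (Ly x w) (F x w) c.1) c.1,
            c.2 + (if parN (y x) (Ly x w) (F x w) c.1 = i x w then 1 else 0)) else c) (v x w, 0) s = c at *
        by_cases h : 2 ≤ layN (y x) (Ly x w) c.1
        · rw [if_pos h]
          refine ⟨?_, ?_⟩
          · refine (othN_le _ _ _).trans (le_trans ?_ (Nat.le_add_left _ _))
            exact le_sup_range (F := fun i => eu (y x) i + ev (y x) i) (c_srch_le _ _)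
          · change c.2 + (if _ then 1 else 0) ≤ s + 1
            split_ifs <;> omega
        · rw [if_neg h]
          exact ⟨h1, by omega⟩
    obtain ⟨h1, h2⟩ := key s hs
    refine lt_prod.2 ⟨lt_nat.2 ?_, lt_nat.2 ?_⟩
    · refine lt_of_le_of_lt h1 ?_
      change _ < v x w + (range (mm (y x) + 1)).sup (fun i => eu (y x) i + ev (y x) i) + nn (y x) + 1
      omega
    · refine lt_of_le_of_lt h2 ?_
      change _ < v x w + (range (mm (y x) + 1)).sup (fun i => eu (y x) i + ev (y x) i) + nn (y x) + 1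
      omega

theorem y_rootsN (H : DomY S y) {Ly : List ℤ → σ → ℕ} (hL : Comp S Ly) :
    Comp S fun x w => rootsN (y x) (Ly x w) := by
  unfold rootsN
  exact Comp.sum (Comp.ite (CompP.eq (y_layN H hL.up Comp.id.snd) (Comp.const 1)) (Comp.const 1)
    (Comp.const 0)) (y_nn H) (ty_nn H)

theorem y_maxLay (H : DomY S y) {Ly : List ℤ → σ → ℕ} (hL : Comp S Ly) :
    Comp S fun x w => maxLay (y x) (Ly x w) := by
  unfold maxLay
  exact Comp.itr_nat (F := fun x _ => nn (y x) + 2) (Comp.max Comp.id.snd.snd (y_layN H hL.up Comp.id.snd.fst))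
    (Comp.const 0) (y_nn H) (ty_nn H) ((y_nn H).bd.add (Bd.const 2)) fun x w i hi => maxLay_aux _ _ _

end Pool.Agent.Lib.H2
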