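import Pool.Agent.Lib.MP_3493b8_lc.V.CompU
import Pool.Agent.Lib.MP_3493b8_lc.V.Bound

/-! The output of the second algorithm and the number of coin flips are computable in time polynomial
in `szU`. -/

set_option autoImplicit false

namespace Pool.Agent.Lib.H2

open Pool.Agent.Lib.PTC

theorem dom_szU (q : ℕ) : DomU (szU q) q := by
  have key : ∀ x, nn x ≤ szU q x ∧ mm x ≤ szU q x ∧ NN x ≤ szU q x ∧ tU x q ≤ szU q x ∧
      smU x q ≤ szU q x ∧ 2 ^ kU2 x ≤ szU q x := by
    intro x
    unfold szU
    generalize 2 ^ kU2 x = u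
    omega
  exact
    { n := fun x => (key x).1
      m := fun x => (key x).2.1
      N := fun x => (key x).2.2.1
      t := fun x => (key x).2.2.2.1
      s := fun x => (key x).2.2.2.2.1
      k := fun x => (key x).2.2.2.2.2 }

theorem comp_outU (s b : ℕ) :
    Comp (szU (s + b)) fun x om => outU x (s - b) (s + b) b (4 * (s + b) ^ 2) om :=
  c_outU (dom_szU (s + b)) (s - b) b (4 * (s + b) ^ 2) Comp.id

theorem comp_bitsU (q : ℕ) : Comp (szU q) fun x (_ : Unit) => bitsU x q := c_bitsU (dom_szU q)

theorem tm_bitsU (q : ℕ) : Tm (szU q) fun x (_ : Unit) => bitsU x q := t_bitsU (dom_szU q)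

end Pool.Agent.Lib.H2
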