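import Pool.Agent.Lib.MP_3493b8_lc.V.CompG

/-! The vertex splitting is computable in polynomial time. -/

set_option autoImplicit false
set_option linter.unusedVariables false

open Finset

namespace Pool.Agent.Lib.H2

open Pool.Agent.Lib.PTC

variable {S : List ℤ → ℕ} {σ : Type} [Tup σ]

theorem c_labN {Lb i : List ℤ → σ → ℕ} (hL : Comp S Lb) (hi : Comp S i) :
    Comp S fun x w => labN x (Lb x w) (i x w) := by
  unfold labN
  exact Comp.digit hL (Comp.succ c_nn) hi

theorem c_growU (H : Dom S) {Lb b : List ℤ → σ → ℕ} (hL : Comp S Lb) (hb : Comp S b) :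
    Comp S fun x w => growU x (Lb x w) (b x w) := by
  unfold growU
  have hv : Comp S fun _ (p : (σ × ℕ) × ℕ) => p.1.2 := Comp.id.fst.snd
  have hi : Comp S fun _ (p : (σ × ℕ) × ℕ) => p.2 := Comp.id.snd
  refine Comp.sum_of (f' := fun x w v => if (b x w).testBit v = true ∨ (∃ i < mm x,
    labN x (Lb x w) i = 0 ∧ ((eu x i = v ∧ (b x w).testBit (ev x i) = true) ∨
      (ev x i = v ∧ (b x w).testBit (eu x i) = true))) then 2 ^ min v (nn x) else 0)
    (Comp.ite (CompP.or (CompP.testBit hb.up Comp.id.snd) (CompP.exists_lt (CompP.and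
      (CompP.eq (c_labN hL.up.up hi) (Comp.const 0)) (CompP.or
        (CompP.and (CompP.eq (c_eu hi) hv) (CompP.testBit hb.up.up (c_ev hi)))
        (CompP.and (CompP.eq (c_ev hi) hv) (CompP.testBit hb.up.up (c_eu hi))))) c_mm (t_mm H)))
      (Comp.pow2 c_in (t_in H)) (Comp.const 0)) c_nn (t_nn H) fun x w i hi => ?_
  rw [min_eq_left hi.le]

theorem c_growU_le (x : List ℤ) (Lb b : ℕ) : growU x Lb b ≤ nn x * 2 ^ nn x := by
  unfold growU
  exact sum_ite_pow_le _ _ _ _ fun i hi => Nat.pow_le_pow_right (by omega) hi.le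

theorem c_ballU (H : Dom S) {Lb r h : List ℤ → σ → ℕ} (hL : Comp S Lb) (hr : Comp S r) (tr : Tm S r)
    (hh : Comp S h) (th : Tm S h) : Comp S fun x w => ballU x (Lb x w) (r x w) (h x w) := by
  unfold ballU
  refine Comp.itr_nat (F := fun x w => 2 ^ r x w + nn x * 2 ^ nn x)
    (c_growU H hL.up Comp.id.snd.snd) (Comp.pow2 hr tr) hh th
    (((Bd.const 2).pow tr).add (c_nn.bd.mul ((Bd.const 2).pow (t_nn H)))) fun x w i hi => ?_
  cases i with
  | zero => exact Nat.le_add_right _ _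
  | succ i =>
    rw [itr]
    exact (c_growU_le _ _ _).trans (Nat.le_add_left _ _)

theorem c_cardU (H : Dom S) {b : List ℤ → σ → ℕ} (hb : Comp S b) : Comp S fun x w => cardU x (b x w) := by
  unfold cardU
  exact Comp.sum (Comp.ite (CompP.testBit hb.up Comp.id.snd) (Comp.const 1) (Comp.const 0)) c_nn (t_nn H)

theorem c_radU (H : Dom S) {B L Lb r : List ℤ → σ → ℕ} (hB : Comp S B) (tB : Tm S B) (hL : Comp S L)
    (hLb : Comp S Lb) (hr : Comp S r) (tr : Tm S r) :
    Comp S fun x w => radU x (B x w) (L x w) (Lb x w) (r x w) := by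
  have hB1 : Comp S fun x w => B x w + 1 := hB.succ
  have tB1 : Tm S fun x w => B x w + 1 := tB.add (Tm.const 1)
  have hb : Comp S fun x (p : σ × ℕ) => ballU x (Lb x p.1) (r x p.1) (min p.2 (B x p.1 + 1)) :=
    c_ballU H hLb.up hr.up tr.up (Comp.cut hB1) (Tm.cut tB1)
  have hb1 : Comp S fun x (p : σ × ℕ) => ballU x (Lb x p.1) (r x p.1) (min p.2 (B x p.1 + 1) + 1) :=
    c_ballU H hLb.up hr.up tr.up (Comp.succ (Comp.cut hB1)) ((Tm.cut tB1).add (Tm.const 1))
  have h1 : Comp S fun x w => srch (fun h => ballU x (Lb x w) (r x w) (h + 1) =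
      ballU x (Lb x w) (r x w) h) (B x w + 1) := by
    refine c_srch_of (P' := fun x w h => ballU x (Lb x w) (r x w) (min h (B x w + 1) + 1) =
      ballU x (Lb x w) (r x w) (min h (B x w + 1))) (CompP.eq hb1 hb) hB1 tB1
      fun x w i hi => ?_
    rw [min_eq_left hi.le]
  have h2 : Comp S fun x w => srch (fun h => (cardU x (ballU x (Lb x w) (r x w) (h + 1)) -
      cardU x (ballU x (Lb x w) (r x w) h)) * B x w ≤
        L x w * cardU x (ballU x (Lb x w) (r x w) h)) (B x w + 1) := by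
    refine c_srch_of (P' := fun x w h => (cardU x (ballU x (Lb x w) (r x w)
      (min h (B x w + 1) + 1)) - cardU x (ballU x (Lb x w) (r x w) (min h (B x w + 1)))) * B x w ≤
        L x w * cardU x (ballU x (Lb x w) (r x w) (min h (B x w + 1))))
      (CompP.le (Comp.mul (Comp.sub (c_cardU H hb1) (c_cardU H hb)) hB.up)
        (Comp.mul hL.up (c_cardU H hb))) hB1 tB1 fun x w i hi => ?_
    rw [min_eq_left hi.le]
  unfold radU
  exact Comp.ite (CompP.le h1 hB) h1 h2

theorem c_radU_le (x : List ℤ) (B L Lb r : ℕ) : radU x B L Lb r ≤ B + 1 := by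
  unfold radU
  split_ifs
  · exact c_srch_le _ _
  · exact c_srch_le _ _

theorem t_radU {B L Lb r : List ℤ → σ → ℕ} (tB : Tm S B) :
    Tm S fun x w => radU x (B x w) (L x w) (Lb x w) (r x w) :=
  (tB.add (Tm.const 1)).mono fun _ _ => c_radU_le _ _ _ _ _

theorem c_FinU (H : Dom S) {M v : List ℤ → σ → ℕ} (hM : Comp S M) (hv : Comp S v) :
    CompP S fun x w => FinU x (M x w) (v x w) := by
  unfold FinU
  exact CompP.exists_lt (CompP.testBit hM.up (Comp.add (Comp.mul hv.up c_nn) Comp.id.snd)) c_nn (t_nn H)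

/-- the number of the copy `(v, r)`, cut off -/
theorem c_vr {r : List ℤ → σ → ℕ} (hr : Comp S r) :
    Comp S fun x (p : σ × ℕ) => min p.2 (nn x) * nn x + r x p.1 :=
  Comp.add (Comp.mul c_in c_nn) hr.up

theorem t_vr (H : Dom S) {r : List ℤ → σ → ℕ} (tr : Tm S r) :
    Tm S fun x (p : σ × ℕ) => min p.2 (nn x) * nn x + r x p.1 :=
  ((t_in H).mul (t_nn H)).add tr.up

theorem c_nLab (H : Dom S) {Lb r h : List ℤ → σ → ℕ} (hL : Comp S Lb) (hr : Comp S r) (tr : Tm S r)
    (hh : Comp S h) (th : Tm S h) : Comp S fun x w => nLab x (Lb x w) (r x w) (h x w) := by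
  have hb : Comp S fun x w => ballU x (Lb x w) (r x w) (h x w) := c_ballU H hL hr tr hh th
  unfold nLab
  refine Comp.add hL (Comp.sum_of (f' := fun x w i => if labN x (Lb x w) i = 0 ∧
    ((ballU x (Lb x w) (r x w) (h x w)).testBit (eu x i) = true ∨
      (ballU x (Lb x w) (r x w) (h x w)).testBit (ev x i) = true) then
        (r x w + 1) * (nn x + 1) ^ min i (mm x) else 0)
    (Comp.ite (CompP.and (CompP.eq (c_labN hL.up Comp.id.snd) (Comp.const 0))
      (CompP.or (CompP.testBit hb.up (c_eu Comp.id.snd)) (CompP.testBit hb.up (c_ev Comp.id.snd))))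
      (Comp.mul hr.succ.up (Comp.pow (Comp.succ c_nn) c_im (t_im H))) (Comp.const 0)) c_mm (t_mm H)
    fun x w i hi => ?_)
  rw [min_eq_left hi.le]

theorem c_nLab_le (x : List ℤ) (Lb r h : ℕ) (hr : r < nn x) :
    nLab x Lb r h ≤ Lb + mm x * (nn x * (nn x + 1) ^ mm x) := by
  unfold nLab
  refine Nat.add_le_add_left (sum_ite_pow_le _ _ _ _ fun i hi => ?_) _
  exact Nat.mul_le_mul hr (Nat.pow_le_pow_right (by omega) hi.le)

theorem c_nLay (H : Dom S) {Lb Ly r h : List ℤ → σ → ℕ} (hL : Comp S Lb) (hLy : Comp S Ly)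
    (hr : Comp S r) (tr : Tm S r) (hh : Comp S h) (th : Tm S h) :
    Comp S fun x w => nLay x (Lb x w) (Ly x w) (r x w) (h x w) := by
  have hh1 : Comp S fun x w => h x w + 1 := hh.succ
  have th1 : Tm S fun x w => h x w + 1 := th.add (Tm.const 1)
  have hh2 : Comp S fun x w => h x w + 2 := hh.add (Comp.const 2)
  have th2 : Tm S fun x w => h x w + 2 := th.add (Tm.const 2)
  have hb : Comp S fun x w => ballU x (Lb x w) (r x w) (h x w + 1) := c_ballU H hL hr tr hh1 th1
  unfold nLay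
  refine Comp.add hLy (Comp.sum_of (f' := fun x w v => if (ballU x (Lb x w) (r x w)
    (h x w + 1)).testBit v = true then
      srch (fun k => (ballU x (Lb x w) (r x w) k).testBit v = true) (h x w + 2) *
        (nn x * nn x + 2) ^ (min v (nn x) * nn x + r x w) else 0)
    (Comp.ite (CompP.testBit hb.up Comp.id.snd) (Comp.mul ?_
      (Comp.pow (Comp.add (Comp.mul c_nn c_nn) (Comp.const 2)) (c_vr hr) (t_vr H tr))) (Comp.const 0))
    c_nn (t_nn H) fun x w i hi => ?_)
  · refine c_srch_of (P := fun x (p : σ × ℕ) k => (ballU x (Lb x p.1) (r x p.1) k).testBit p.2 = true)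
      (P' := fun x (p : σ × ℕ) k => (ballU x (Lb x p.1) (r x p.1)
      (min k (h x p.1 + 2))).testBit p.2 = true)
      (CompP.testBit (c_ballU H hL.up.up hr.up.up tr.up.up (Comp.cut hh2.up) (Tm.cut th2.up))
        Comp.id.fst.snd) hh2.up th2.up fun x p i hi => ?_
    rw [min_eq_left hi.le]
  · rw [min_eq_left hi.le]

theorem c_vr_le {n v r : ℕ} (hv : v < n) (hr : r < n) : v * n + r ≤ n * n := by
  have h1 : v * n + n ≤ n * n := by
    rw [← Nat.succ_mul]
    exact Nat.mul_le_mul_right _ hv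
  omega

theorem c_nLay_le (x : List ℤ) (Lb Ly r h : ℕ) (hr : r < nn x) :
    nLay x Lb Ly r h ≤ Ly + nn x * ((h + 2) * (nn x * nn x + 2) ^ (nn x * nn x)) := by
  unfold nLay
  refine Nat.add_le_add_left (sum_ite_pow_le _ _ _ _ fun v hv => ?_) _
  exact Nat.mul_le_mul (c_srch_le _ _) (Nat.pow_le_pow_right (by omega) (c_vr_le hv hr))

theorem c_nM (H : Dom S) {Lb M r h : List ℤ → σ → ℕ} (hL : Comp S Lb) (hM : Comp S M)
    (hr : Comp S r) (tr : Tm S r) (hh : Comp S h) (th : Tm S h) :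
    Comp S fun x w => nM x (Lb x w) (M x w) (r x w) (h x w) := by
  have hb : Comp S fun x w => ballU x (Lb x w) (r x w) (h x w) := c_ballU H hL hr tr hh th
  unfold nM
  refine Comp.add hM (Comp.sum_of (f' := fun x w v => if (ballU x (Lb x w) (r x w)
    (h x w)).testBit v = true then 2 ^ (min v (nn x) * nn x + r x w) else 0)
    (Comp.ite (CompP.testBit hb.up Comp.id.snd) (Comp.pow2 (c_vr hr) (t_vr H tr)) (Comp.const 0))
    c_nn (t_nn H) fun x w i hi => ?_)
  rw [min_eq_left hi.le]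

theorem c_nM_le (x : List ℤ) (Lb M r h : ℕ) (hr : r < nn x) :
    nM x Lb M r h ≤ M + nn x * 2 ^ (nn x * nn x) := by
  unfold nM
  refine Nat.add_le_add_left (sum_ite_pow_le _ _ _ _ fun v hv => ?_) _
  exact Nat.pow_le_pow_right (by omega) (c_vr_le hv hr)

theorem c_nF (H : Dom S) {Lb M r h : List ℤ → σ → ℕ} (hL : Comp S Lb) (hM : Comp S M)
    (hr : Comp S r) (tr : Tm S r) (hh : Comp S h) (th : Tm S h) :
    Comp S fun x w => nF x (Lb x w) (M x w) (r x w) (h x w) := by
  have hb : Comp S fun x w => ballU x (Lb x w) (r x w) (h x w) := c_ballU H hL hr tr hh th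
  have hb1 : Comp S fun x w => ballU x (Lb x w) (r x w) (h x w + 1) :=
    c_ballU H hL hr tr hh.succ (th.add (Tm.const 1))
  unfold nF
  refine Comp.add hM (Comp.sum_of (f' := fun x w v => if (ballU x (Lb x w) (r x w)
    (h x w + 1)).testBit v = true ∧ (ballU x (Lb x w) (r x w) (h x w)).testBit v = false then
      2 ^ (min v (nn x) * nn x + r x w) else 0)
    (Comp.ite (CompP.and (CompP.testBit hb1.up Comp.id.snd) (CompP.testBit_false hb.up Comp.id.snd))
      (Comp.pow2 (c_vr hr) (t_vr H tr)) (Comp.const 0)) c_nn (t_nn H) fun x w i hi => ?_)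
  rw [min_eq_left hi.le]

theorem c_nF_le (x : List ℤ) (Lb M r h : ℕ) (hr : r < nn x) :
    nF x Lb M r h ≤ M + nn x * 2 ^ (nn x * nn x) := by
  unfold nF
  refine Nat.add_le_add_left (sum_ite_pow_le _ _ _ _ fun v hv => ?_) _
  exact Nat.pow_le_pow_right (by omega) (c_vr_le hv hr)

theorem c_nextU (H : Dom S) {B L r : List ℤ → σ → ℕ} {c : List ℤ → σ → ℕ × ℕ × ℕ × ℕ} (hB : Comp S B)
    (tB : Tm S B) (hL : Comp S L) (hr : Comp S r) (tr : Tm S r) (hc : Comp S c) :
    Comp S fun x w => nextU x (B x w) (L x w) (r x w) (c x w) := by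
  have hR : Comp S fun x w => radU x (B x w) (L x w) (c x w).1 (r x w) := c_radU H hB tB hL hc.fst hr tr
  have tR : Tm S fun x w => radU x (B x w) (L x w) (c x w).1 (r x w) := t_radU tB
  unfold nextU
  exact Comp.ite (c_FinU H hc.snd.snd.fst hr) hc
    (Comp.pair (c_nLab H hc.fst hr tr hR tR) (Comp.pair (c_nLay H hc.fst hc.snd.fst hr tr hR tR)
      (Comp.pair (c_nM H hc.fst hc.snd.snd.fst hr tr hR tR)
        (c_nF H hc.fst hc.snd.snd.snd hr tr hR tR))))

/-- growth in one step -/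
def grU (x : List ℤ) (B : ℕ) : ℕ :=
  mm x * (nn x * (nn x + 1) ^ mm x) + nn x * ((B + 3) * (nn x * nn x + 2) ^ (nn x * nn x))

theorem c_nextU_le (x : List ℤ) (B L r : ℕ) (c : ℕ × ℕ × ℕ × ℕ) (hr : r < nn x) :
    (nextU x B L r c).1 ≤ c.1 + grU x B ∧ (nextU x B L r c).2.1 ≤ c.2.1 + grU x B ∧
    (nextU x B L r c).2.2.1 ≤ c.2.2.1 + grU x B ∧ (nextU x B L r c).2.2.2 ≤ c.2.2.2 + grU x B := by
  have h1 := c_nLab_le x c.1 r (radU x B L c.1 r) hr
  have h2 := c_nLay_le x c.1 c.2.1 r (radU x B L c.1 r) hr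
  have h3 := c_nM_le x c.1 c.2.2.1 r (radU x B L c.1 r) hr
  have h4 := c_nF_le x c.1 c.2.2.2 r (radU x B L c.1 r) hr
  have h5 := c_radU_le x B L c.1 r
  have h6 : nn x * ((radU x B L c.1 r + 2) * (nn x * nn x + 2) ^ (nn x * nn x)) ≤
      nn x * ((B + 3) * (nn x * nn x + 2) ^ (nn x * nn x)) :=
    Nat.mul_le_mul_left _ (Nat.mul_le_mul_right _ (by omega))
  have h7 : nn x * 2 ^ (nn x * nn x) ≤
      nn x * ((B + 3) * (nn x * nn x + 2) ^ (nn x * nn x)) := by
    refine Nat.mul_le_mul_left _ ?_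
    calc 2 ^ (nn x * nn x) = 1 * 2 ^ (nn x * nn x) := (one_mul _).symm
      _ ≤ (B + 3) * (nn x * nn x + 2) ^ (nn x * nn x) :=
        Nat.mul_le_mul (by omega) (Nat.pow_le_pow_left (by omega) _)
  have e : grU x B = mm x * (nn x * (nn x + 1) ^ mm x) +
    nn x * ((B + 3) * (nn x * nn x + 2) ^ (nn x * nn x)) := rfl
  generalize grU x B = g at *
  generalize mm x * (nn x * (nn x + 1) ^ mm x) = g1 at *
  generalize nn x * ((B + 3) * (nn x * nn x + 2) ^ (nn x * nn x)) = g2 at *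
  generalize nn x * ((radU x B L c.1 r + 2) * (nn x * nn x + 2) ^ (nn x * nn x)) = g3 at *
  generalize nn x * 2 ^ (nn x * nn x) = g4 at *
  unfold nextU
  split_ifs
  · refine ⟨?_, ?_, ?_, ?_⟩ <;> omega
  · refine ⟨?_, ?_, ?_, ?_⟩ <;> dsimp only <;> omega

theorem b_grU (H : Dom S) {B : List ℤ → σ → ℕ} (hB : Comp S B) : Bd S fun x w => grU x (B x w) := by
  unfold grU
  exact (c_mm.bd.mul (c_nn.bd.mul ((c_nn.bd.add (Bd.const 1)).pow (t_mm H)))).add
    (c_nn.bd.mul ((hB.bd.add (Bd.const 3)).mul (((c_nn.bd.mul c_nn.bd).add (Bd.const 2)).pow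
      ((t_nn H).mul (t_nn H)))))

/-- the start value of the layers -/
def stLay (x : List ℤ) : ℕ := ∑ w ∈ range (nn x * nn x), (nn x * nn x + 2) ^ w

theorem c_stLay (H : Dom S) : Comp S fun x (_ : σ) => stLay x := by
  unfold stLay
  have hn : ∀ {τ : Type} [Tup τ], Comp S fun x (_ : τ) => nn x * nn x := Comp.mul c_nn c_nn
  have tn : ∀ {τ : Type} [Tup τ], Tm S fun x (_ : τ) => nn x * nn x := (t_nn H).mul (t_nn H)
  refine Comp.sum_of (f' := fun x (_ : σ) w => (nn x * nn x + 2) ^ min w (nn x * nn x))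
    (Comp.pow (Comp.add hn (Comp.const 2)) (Comp.cut (T := fun x (_ : σ) => nn x * nn x) hn)
      (Tm.cut (T := fun x (_ : σ) => nn x * nn x) tn)) hn tn fun x w i hi => ?_
  rw [min_eq_left hi.le]

theorem c_splU (H : Dom S) {B L : List ℤ → σ → ℕ} (hB : Comp S B) (tB : Tm S B) (hL : Comp S L) :
    Comp S fun x w => splU x (B x w) (L x w) := by
  unfold splU
  have hr : Comp S fun x (p : σ × ℕ × ℕ × ℕ × ℕ × ℕ) => min p.2.1 (nn x) := Comp.min Comp.id.snd.fst c_nn
  refine Comp.itr_of (h' := fun x w r c => nextU x (B x w) (L x w) (min r (nn x)) c)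
    (F := fun x w => nn x * grU x (B x w) + stLay x)
    (fun x w i c => c.1 ≤ i * grU x (B x w) ∧ c.2.1 ≤ stLay x + i * grU x (B x w) ∧
      c.2.2.1 ≤ i * grU x (B x w) ∧ c.2.2.2 ≤ i * grU x (B x w))
    (c_nextU H hB.up tB.up hL.up hr (Tm.min_right (t_nn H)) Comp.id.snd.snd)
    (Comp.pair (Comp.const 0) (Comp.pair (c_stLay H) (Comp.pair (Comp.const 0) (Comp.const 0)))) c_nn
    (t_nn H) ((c_nn.bd.mul (b_grU H hB)).add (c_stLay H).bd)
    (fun x w => ⟨Nat.zero_le _, Nat.le_add_right _ _, Nat.zero_le _, Nat.zero_le _⟩)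
    (fun x w i hi c hc => ?_) fun x w i hi c hc => ?_
  · obtain ⟨h1, h2, h3, h4⟩ := c_nextU_le x (B x w) (L x w) i c hi
    obtain ⟨c1, c2, c3, c4⟩ := hc
    refine ⟨⟨?_, ?_, ?_, ?_⟩, ?_⟩
    · rw [Nat.succ_mul]; omega
    · rw [Nat.succ_mul]; omega
    · rw [Nat.succ_mul]; omega
    · rw [Nat.succ_mul]; omega
    · rw [min_eq_left hi.le]
  · have h0 := Nat.mul_le_mul_right (grU x (B x w)) hi
    obtain ⟨c1, c2, c3, c4⟩ := hc
    refine lt_prod.2 ⟨lt_nat.2 ?_, lt_prod.2 ⟨lt_nat.2 ?_, lt_prod.2 ⟨lt_nat.2 ?_, lt_nat.2 ?_⟩⟩⟩ <;>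
      omega

/-! ### the virtual input -/

private theorem getD_pairs (f g : ℕ → ℤ) (m i : ℕ) :
    ((((List.range m).map fun i => [f i, g i]).flatten).getD (2 * i) 0 = if i < m then f i else 0) ∧
    ((((List.range m).map fun i => [f i, g i]).flatten).getD (2 * i + 1) 0 = if i < m then g i else 0) := by
  induction m generalizing f g i with
  | zero => simp
  | succ m ih =>
    rw [List.range_succ_eq_map, List.map_cons, List.flatten_cons, List.map_map]
    cases i with
    | zero => simp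
    | succ i =>
      have h := ih (fun i => f (i + 1)) (fun i => g (i + 1)) i
      rw [show 2 * (i + 1) = 2 * i + 1 + 1 by ring]
      constructor
      · change (((List.range m).map fun i => [f (i + 1), g (i + 1)]).flatten).getD (2 * i) 0 = _
        rw [h.1]
        simp
      · change (((List.range m).map fun i => [f (i + 1), g (i + 1)]).flatten).getD (2 * i + 1) 0 = _
        rw [h.2]
        simp

theorem c_nn_splL (x : List ℤ) (Lb : ℕ) : nn (splL x Lb) = nn x * nn x := by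
  unfold nn inp splL
  rw [List.getD_cons_zero, Int.toNat_natCast]
  rfl

theorem c_mm_splL (x : List ℤ) (Lb : ℕ) : mm (splL x Lb) = mm x := by
  unfold mm inp splL
  rw [List.getD_cons_succ, List.getD_cons_zero, Int.toNat_natCast]
  rfl

theorem c_NN_splL (x : List ℤ) (Lb : ℕ) : NN (splL x Lb) = NN x := by
  unfold NN inp splL
  rw [List.getD_cons_succ, List.getD_cons_succ, List.getD_cons_zero, Int.toNat_natCast]
  rfl

theorem c_eu_splL (x : List ℤ) (Lb i : ℕ) :
    eu (splL x Lb) i = if i < mm x then eu x i * nn x + (labN x Lb i - 1) else 0 := by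
  have h : eu (splL x Lb) i = ((((List.range (mm x)).map fun i =>
      [((eu x i * nn x + (labN x Lb i - 1) : ℕ) : ℤ),
        ((ev x i * nn x + (labN x Lb i - 1) : ℕ) : ℤ)]).flatten).getD (2 * i) 0).toNat := by
    unfold eu inp splL
    rw [show 3 + 2 * i = 2 * i + 1 + 1 + 1 by ring, List.getD_cons_succ, List.getD_cons_succ,
      List.getD_cons_succ]
    rfl
  rw [h, (getD_pairs _ _ _ _).1]
  split_ifs
  · exact Int.toNat_natCast _
  · rfl

theorem c_ev_splL (x : List ℤ) (Lb i : ℕ) :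
    ev (splL x Lb) i = if i < mm x then ev x i * nn x + (labN x Lb i - 1) else 0 := by
  have h : ev (splL x Lb) i = ((((List.range (mm x)).map fun i =>
      [((eu x i * nn x + (labN x Lb i - 1) : ℕ) : ℤ),
        ((ev x i * nn x + (labN x Lb i - 1) : ℕ) : ℤ)]).flatten).getD (2 * i + 1) 0).toNat := by
    unfold ev inp splL
    rw [show 4 + 2 * i = 2 * i + 1 + 1 + 1 + 1 by ring, List.getD_cons_succ, List.getD_cons_succ,
      List.getD_cons_succ]
    rfl
  rw [h, (getD_pairs _ _ _ _).2]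
  split_ifs
  · exact Int.toNat_natCast _
  · rfl

end Pool.Agent.Lib.H2
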