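import Pool.Agent.Lib.MP_3493b8_lc.V.CompS

/-! The second algorithm is computable in time polynomial in a size parameter which dominates the
numbers of vertices, edges, steps, samples and parts. -/

set_option autoImplicit false
set_option linter.unusedVariables false

open Finset

namespace Pool.Agent.Lib.H2

open Pool.Agent.Lib.PTC

variable {S : List ℤ → ℕ} {σ : Type} [Tup σ] {y : List ℤ → List ℤ}

/-! ### parts -/

theorem c_subK {K F a : List ℤ → σ → ℕ} (hK : Comp S K) (tK : Tm S K) (hF : Comp S F) (ha : Comp S a) :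
    Comp S fun x w => subK (K x w) (F x w) (a x w) := by
  unfold subK
  refine Comp.sum_of (f' := fun x w i => if (F x w).testBit i = true ∧
    (a x w).testBit (belowN (F x w) (min i (K x w))) = true then 2 ^ min i (K x w) else 0)
    (Comp.ite (CompP.and (CompP.testBit hF.up Comp.id.snd)
      (CompP.testBit ha.up (c_belowN hF.up (Comp.cut hK) (Tm.cut tK)))) (Comp.pow2 (Comp.cut hK) (Tm.cut tK))
      (Comp.const 0)) hK tK fun x w i hi => ?_
  rw [min_eq_left hi.le]

theorem c_parT (H : Dom S) {M X v : List ℤ → σ → ℕ} (hM : Comp S M) (hX : Comp S X) (hv : Comp S v) :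
    Comp S fun x w => parT x (M x w) (X x w) (v x w) := by
  unfold parT
  exact Comp.mod (Comp.add (Comp.ite (CompP.testBit hX hv) (Comp.const 1) (Comp.const 0))
    (Comp.ite (CompP.testBit hM hv) (Comp.add
      (c_bdN H (Comp.pred (Comp.pow2 c_mm (t_mm H))) (Comp.div hv c_nn))
      (Comp.sum (Comp.ite (CompP.testBit hX.up (Comp.add (Comp.mul (Comp.div hv.up c_nn) c_nn)
        Comp.id.snd)) (Comp.const 1) (Comp.const 0)) c_nn (t_nn H))) (Comp.const 0))) (Comp.const 2)

theorem c_maskT (H : Dom S) {M X : List ℤ → σ → ℕ} (hM : Comp S M) (hX : Comp S X) :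
    Comp S fun x w => maskT x (M x w) (X x w) := by
  unfold maskT
  have hn : ∀ {τ : Type} [Tup τ], Comp S fun x (_ : τ) => nn x * nn x := Comp.mul c_nn c_nn
  have tn : ∀ {τ : Type} [Tup τ], Tm S fun x (_ : τ) => nn x * nn x := (t_nn H).mul (t_nn H)
  refine Comp.sum_of (f' := fun x w v => if parT x (M x w) (X x w) v = 1 then
      2 ^ min v (nn x * nn x) else 0)
    (Comp.ite (CompP.eq (c_parT H hM.up hX.up Comp.id.snd) (Comp.const 1))
      (Comp.pow2 (Comp.cut (T := fun x (_ : σ) => nn x * nn x) hn)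
        (Tm.cut (T := fun x (_ : σ) => nn x * nn x) tn)) (Comp.const 0)) hn tn
    fun x w i hi => ?_
  rw [min_eq_left hi.le]

theorem y_startU (H : DomY S y) {Ly T : List ℤ → σ → ℕ} (hL : Comp S Ly) (hT : Comp S T) :
    Comp S fun x w => startU (y x) (Ly x w) (T x w) := by
  unfold startU
  have hi : Comp S fun _ (p : (σ × ℕ) × ℕ) => p.1.2 := Comp.id.fst.snd
  have hf : Comp S fun _ (p : (σ × ℕ) × ℕ) => p.2 := Comp.id.snd
  refine Comp.sum_of (f' := fun x w i => if (∑ v ∈ range (nn (y x)), if (T x w).testBit v = true then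
      pathN (y x) (Ly x w) 0 v i else 0) % 2 = 1 then 2 ^ min i (mm (y x)) else 0)
    (Comp.ite (CompP.eq (Comp.mod (Comp.sum (Comp.ite (CompP.testBit hT.up.up hf)
      (y_pathN H hL.up.up (Comp.const 0) hf hi) (Comp.const 0)) (y_nn H) (ty_nn H)) (Comp.const 2))
      (Comp.const 1)) (Comp.pow2 (y_im H) (ty_im H)) (Comp.const 0)) (y_mm H) (ty_mm H)
    fun x w i hi => ?_
  rw [min_eq_left hi.le]

/-! ### the splitting used by the algorithm -/

theorem c_LU : Comp S fun x (_ : σ) => LU x := by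
  unfold LU
  exact Comp.size c_nn

theorem t_LU : Tm S fun x (_ : σ) => LU x := by
  unfold LU
  exact Tm.size c_nn.bd

theorem c_BU : Comp S fun x (_ : σ) => BU x := by
  unfold BU
  exact Comp.succ (Comp.add (Comp.sqrt (Comp.mul c_nn c_LU)) c_LU)

theorem t_BU (H : Dom S) : Tm S fun x (_ : σ) => BU x := by
  unfold BU
  exact ((((t_nn H).mul t_LU).mono fun x _ => Nat.sqrt_le_self _).add t_LU).add (Tm.const 1)

theorem c_sU (H : Dom S) : Comp S fun x (_ : σ) => sU x := by
  unfold sU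
  exact c_splU H c_BU (t_BU H) c_LU

theorem c_lbU (H : Dom S) : Comp S fun x (_ : σ) => lbU x := by
  unfold lbU
  exact (c_sU H).fst

theorem c_lyU (H : Dom S) : Comp S fun x (_ : σ) => lyU x := by
  unfold lyU
  exact (c_sU H).snd.fst

theorem c_mU (H : Dom S) : Comp S fun x (_ : σ) => mU x := by
  unfold mU
  exact (c_sU H).snd.snd.fst

theorem c_fU (H : Dom S) : Comp S fun x (_ : σ) => fU x := by
  unfold fU
  exact (c_sU H).snd.snd.snd

theorem domY_yU (H : Dom S) : DomY S yU where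
  cn := (Comp.mul c_nn c_nn).of_eq fun x _ => (c_nn_splL x _).symm
  cm := Comp.of_eq c_mm fun x _ => (c_mm_splL x _).symm
  cN := Comp.of_eq c_NN fun x _ => (c_NN_splL x _).symm
  tn := ((t_nn H).mul (t_nn H)).mono fun x _ => (c_nn_splL x _).le
  tm := (t_mm H).mono fun x _ => (c_mm_splL x _).le
  tN := (t_NN H).mono fun x _ => (c_NN_splL x _).le
  cu := (Comp.ite (CompP.lt Comp.id c_mm) (Comp.add (Comp.mul (c_eu Comp.id) c_nn)
    (Comp.pred (c_labN (c_lbU H) Comp.id))) (Comp.const 0)).of_eq fun x i => (c_eu_splL x _ i).symm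
  cv := (Comp.ite (CompP.lt Comp.id c_mm) (Comp.add (Comp.mul (c_ev Comp.id) c_nn)
    (Comp.pred (c_labN (c_lbU H) Comp.id))) (Comp.const 0)).of_eq fun x i => (c_ev_splL x _ i).symm

theorem c_rU (H : Dom S) : Comp S fun x (_ : σ) => rU x := by
  unfold rU
  exact Comp.pred (y_maxLay (domY_yU H) (c_lyU H))

theorem t_rU (H : Dom S) : Tm S fun x (_ : σ) => rU x :=
  ((ty_nn (domY_yU H)).add (Tm.const 2)).mono fun x _ => (Nat.sub_le _ _).trans (c_maxLay_le _ _)

theorem c_kU2 (H : Dom S) : Comp S fun x (_ : σ) => kU2 x := by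
  unfold kU2
  exact c_belowN (c_fU H) (Comp.mul c_nn c_nn) ((t_nn H).mul (t_nn H))

theorem t_kU2 (H : Dom S) : Tm S fun x (_ : σ) => kU2 x :=
  ((t_nn H).mul (t_nn H)).mono fun x _ => belowN_le _ _

theorem y_S1 (H : DomY S y) : Comp S fun x (_ : σ) => S1 (y x) := by
  unfold S1
  exact Comp.add (Comp.add (Comp.add (y_nn H) (y_mm H)) (y_NN H)) (Comp.const 2)

theorem c_tU (H : Dom S) (q : ℕ) : Comp S fun x (_ : σ) => tU x q := by
  have D := domY_yU H
  unfold tU
  exact Comp.mul (Comp.succ (Comp.mul (Comp.mul (Comp.mul (Comp.const 2) (y_mm D))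
    (Comp.mul (Comp.pow (Comp.succ (y_nn D)) (Comp.const 2) (Tm.const 2))
      (Comp.pow (Comp.const q) (Comp.mul (Comp.const 4) (c_rU H)) ((Tm.const 4).mul (t_rU H)))))
    (Comp.mul (y_kE D) (Comp.const (kU q)))))
    (Comp.mul (Comp.mul (Comp.const (30 * q)) (y_S1 D)) (Comp.succ (c_rU H)))

theorem c_smU (H : Dom S) (q : ℕ) : Comp S fun x (_ : σ) => smU x q := by
  unfold smU
  exact Comp.mul (Comp.mul (Comp.mul (Comp.const (2 ^ 20)) (Comp.pow2 (c_kU2 H) (t_kU2 H)))
    (Comp.pow (y_S1 (domY_yU H)) (Comp.const 7) (Tm.const 7)))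
    (Comp.pow (Comp.const q) (Comp.succ (Comp.mul (Comp.const 4) (c_rU H)))
      (((Tm.const 4).mul (t_rU H)).add (Tm.const 1)))

/-- The size parameter dominates the numbers of vertices, edges, steps, samples and parts. -/
structure DomU (S : List ℤ → ℕ) (q : ℕ) : Prop extends Dom S where
  t : ∀ x, tU x q ≤ S x
  s : ∀ x, smU x q ≤ S x
  k : ∀ x, 2 ^ kU2 x ≤ S x

theorem t_tU {q : ℕ} (H : DomU S q) : Tm S fun x (_ : σ) => tU x q := Tm.scale.mono fun x _ => H.t x

theorem t_smU {q : ℕ} (H : DomU S q) : Tm S fun x (_ : σ) => smU x q := Tm.scale.mono fun x _ => H.s x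

theorem t_kPU {q : ℕ} (H : DomU S q) : Tm S fun x (_ : σ) => 2 ^ kU2 x := Tm.scale.mono fun x _ => H.k x

theorem c_bitsU {q : ℕ} (H : DomU S q) : Comp S fun x (_ : σ) => bitsU x q := by
  have D := domY_yU H.toDom
  unfold bitsU
  exact Comp.mul (Comp.mul (Comp.add (Comp.size (y_mm D)) (Comp.const (Nat.size q + 1)))
    (c_tU H.toDom q)) (Comp.mul (Comp.mul (Comp.pow2 (c_kU2 H.toDom) (t_kU2 H.toDom)) (y_mm D))
      (c_smU H.toDom q))

theorem t_bitsU {q : ℕ} (H : DomU S q) : Tm S fun x (_ : σ) => bitsU x q := by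
  have D := domY_yU H.toDom
  unfold bitsU
  exact (((Tm.size (y_mm D).bd).add (Tm.const (Nat.size q + 1))).mul (t_tU H)).mul
    (((t_kPU H).mul (ty_mm D)).mul (t_smU H))

theorem c_bU (H : Dom S) {a : List ℤ → σ → ℕ} (ha : Comp S a) : Comp S fun x w => bU x (a x w) := by
  unfold bU
  exact c_maskT H (c_mU H) (c_subK (Comp.mul c_nn c_nn) ((t_nn H).mul (t_nn H)) (c_fU H) ha)

theorem c_aU (H : Dom S) {a : List ℤ → σ → ℕ} (ha : Comp S a) : Comp S fun x w => aU x (a x w) := by
  unfold aU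
  exact y_startU (domY_yU H) (c_lyU H) (c_bU H ha)

theorem c_termU {q : ℕ} (H : DomU S q) (p b K : ℕ) {a ω : List ℤ → σ → ℕ} (ha : Comp S a)
    (hω : Comp S ω) : Comp S fun x w => termU x p q b K (a x w) (ω x w) := by
  have D0 := H.toDom
  have D := domY_yU H.toDom
  have hT : Comp S fun x w => bU x (a x w) := c_bU D0 ha
  have hA : Comp S fun x w => aU x (a x w) := c_aU D0 ha
  have h0 : Comp S fun _ (_ : σ) => 0 := Comp.const 0
  have hN := y_numX D p q h0 hT hA (c_tU D0 q) (t_tU H) (c_smU D0 q) (t_smU H) ha hω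
  have hD := y_denX D p q h0 hT hA (c_tU D0 q) (t_tU H) (c_smU D0 q) (t_smU H) ha hω
  have hr : Comp S fun x (_ : σ) => rootsN (yU x) (lyU x) := y_rootsN D (c_lyU D0)
  have tr : Tm S fun x (_ : σ) => rootsN (yU x) (lyU x) := (ty_nn D).mono fun x _ => rootsN_le _ _
  unfold termU
  exact Comp.ite (CompP.eq (y_defN D hT hA) (Comp.const 0))
    (Comp.div
      (Comp.mul (Comp.mul (Comp.mul (Comp.pow (Comp.const K) c_S1 (t_S1 D0))
        (Comp.pow (Comp.const q) (c_nul D0) (t_nul D0)))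
        (Comp.pow2 (Comp.add (y_mm D) hr) ((ty_mm D).add tr))) hN)
      (Comp.mul (Comp.mul (Comp.pow (Comp.const (2 * b)) (c_nul D0) (t_nul D0))
        (Comp.pow2 (y_nn D) (ty_nn D))) hD))
    (Comp.const 0)

/-- **The output of the second algorithm is computable in polynomial time.** -/
theorem c_outU {q : ℕ} (H : DomU S q) (p b K : ℕ) {ω : List ℤ → σ → ℕ} (hω : Comp S ω) :
    Comp S fun x w => outU x p q b K (ω x w) := by
  unfold outU
  exact Comp.pair (Comp.mod (c_nul H.toDom) (Comp.const 2))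
    (Comp.sum (c_termU H p b K Comp.id.snd hω.up) (Comp.pow2 (c_kU2 H.toDom) (t_kU2 H.toDom)) (t_kPU H))

end Pool.Agent.Lib.H2
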