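import Pool.Agent.Lib.MP_3493b8_lc.V.Est
import Pool.Agent.Lib.MP_3493b8_lc.ChainF

/-! Most random numbers are good (second algorithm). -/

set_option autoImplicit false

open Finset

namespace Pool.Agent.Lib.H2

open Pool.Agent.Lib.PTC

namespace MGraph

variable (G : MGraph) (N q r k : ℕ) (T A : ℕ → ℕ)

/-- the number of coin flips is the length of all samples -/
theorem two_pow_bG : 2 ^ G.bG N q r k =
    ((kE (G.code N) * kU q) ^ G.tG N q r) ^ (2 ^ k * mm (G.code N) * G.sG N q r k) := by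
  unfold bG kE kU
  rw [← pow_add, ← pow_mul, ← pow_mul]
  congr 1
  exact mul_assoc _ _ _

private theorem relaxG_eq : G.tG N q r =
    G.relax (2 * r) q (kE (G.code N)) (kU q) *
      (30 * q * (G.n + G.m + N + 2) * (r + 1)) := by
  unfold tG relax
  have h : 2 * (2 * r) = 4 * r := by ring
  rw [h]

private theorem eset_zeroG : G.eset 0 = ∅ := by
  unfold eset
  refine filter_eq_empty_iff.2 fun i _ => ?_
  rw [Nat.zero_testBit]
  exact Bool.false_ne_true

/-- the mean after `t` steps -/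
theorem meanG_near (p a j : ℕ) (hS : G.Short ∅ (2 * r)) (hp : 0 < p) (hpq : p < q) (hN : 1 ≤ N)
    (hm : 1 ≤ G.m) (ha : G.SolG T A a) (f : Finset (Fin G.m) → ℝ) (hf : ∀ B, 0 ≤ f B ∧ f B ≤ 1)
    (hμ : 1 / (((G.n : ℝ) + 1) ^ 2 * (q : ℝ) ^ (4 * r + 1)) ≤ G.meanG q T p a j f) :
    |(∑ ρ ∈ range ((kE (G.code N) * kU q) ^ G.tG N q r),
        f (G.eset (runN (G.code N) p q 0 (T a) j (G.tG N q r) ρ (A a)))) /
          (((kE (G.code N) * kU q) ^ G.tG N q r : ℕ) : ℝ) -
      G.meanG q T p a j f| ≤ 1 / (100 * G.m * N) * G.meanG q T p a j f := by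
  have hq : 2 ≤ q := by omega
  have hmR : (0 : ℝ) < G.m := by exact_mod_cast hm
  have hNR : (0 : ℝ) < N := by exact_mod_cast hN
  have hqR : (0 : ℝ) < q := by exact_mod_cast (show 0 < q by omega)
  have e1 := G.runN_avg N p q 0 (T a) j (G.tG N q r) (A a) f
  have ha2 : G.bd (G.eset (A a)) = G.vvec (T a) := ha
  have hT : G.vvec (T a) = G.bd (G.eset (A a)) := ha2.symm
  have hkE : G.m ≤ kE (G.code N) := by
    unfold kE
    rw [mm_code]
    exact (Nat.lt_size_self G.m).le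
  have hkE0 : 0 < kE (G.code N) := by
    unfold kE
    exact Nat.two_pow_pos _
  have hkU : 2 * q ≤ kU q := by
    unfold kU
    rw [pow_succ, mul_comm]
    exact Nat.mul_le_mul_right 2 (Nat.lt_size_self q).le
  have h1 := G.chain_mix hS p q j (kE (G.code N)) (kU q) hp hpq hkE hkE0 hkU
    (G.eset (A a)) (disjoint_empty_right _) f
    (fun B => abs_le.2 ⟨by linarith [(hf B).1], (hf B).2⟩) (G.tG N q r)
  rw [hT, G.eset_zeroG] at e1
  change _ = avgIt (fun (d : Fin (kE (G.code N) * kU q)) B =>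
    G.stepF ∅ (G.bd (G.eset (A a))) p q j (kE (G.code N)) d B) f
      (G.tG N q r) (G.eset (A a)) at e1
  rw [← e1, ha2] at h1
  change (_ - G.meanG q T p a j f) ^ 2 ≤ _ at h1
  have hR : 1 ≤ G.relax (2 * r) q (kE (G.code N)) (kU q) := by
    unfold relax
    omega
  have h2 := num_mix G.m G.n N q r
    (G.relax (2 * r) q (kE (G.code N)) (kU q)) hm hN hq hR
  rw [← G.relaxG_eq N q r] at h2
  have hδ : (0 : ℝ) ≤ 1 / (100 * G.m * N) := by positivity
  have hc : (0 : ℝ) ≤ 1 / (((G.n : ℝ) + 1) ^ 2 * (q : ℝ) ^ (4 * r + 1)) := by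
    positivity
  exact (abs_le_of_sq_le_sq (h1.trans h2) (mul_nonneg hδ hc)).trans
    (mul_le_mul_of_nonneg_left hμ hδ)

/-- Few random numbers give a bad estimate of one mean. -/
theorem few_badG (p a : ℕ) (j : Fin G.m) (hS : G.Short ∅ (2 * r)) (hp : 0 < p) (hpq : p < q)
    (hN : 1 ≤ N) (haa : a < 2 ^ k) (ha : G.SolG T A a) (f : Finset (Fin G.m) → ℝ)
    (hf : ∀ B, 0 ≤ f B ∧ f B ≤ 1)
    (hμ : 1 / (((G.n : ℝ) + 1) ^ 2 * (q : ℝ) ^ (4 * r + 1)) ≤ G.meanG q T p a j f) :
    open Classical in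
    (((range (2 ^ G.bG N q r k)).filter fun ω => ¬ Near (1 / (40 * G.m * N))
      (G.sG N q r k) (G.smpG N q r k T A p a j ω f) (G.meanG q T p a j f)).card : ℝ) *
      (16 * 2 ^ k * G.m) ≤ 2 ^ G.bG N q r k := by
  classical
  have hm : 1 ≤ G.m := by
    have := j.isLt
    omega
  have hq : 2 ≤ q := by omega
  have hmR : (1 : ℝ) ≤ G.m := by exact_mod_cast hm
  have hNR : (1 : ℝ) ≤ N := by exact_mod_cast hN
  have hqR : (0 : ℝ) < q := by exact_mod_cast (show 0 < q by omega)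
  have hnear := G.meanG_near N q r T A p a j hS hp hpq hN hm ha f hf hμ
  obtain ⟨μ0, hμ0⟩ : ∃ μ0, μ0 = G.meanG q T p a j f := ⟨_, rfl⟩
  have hs : G.sG N q r k =
      2 ^ 20 * 2 ^ k * (G.n + G.m + N + 2) ^ 7 * q ^ (4 * r + 1) := by
    rfl
  obtain ⟨b, hb⟩ : ∃ b, b = (kE (G.code N) * kU q) ^ G.tG N q r := ⟨_, rfl⟩
  have hb0 : 0 < b := by
    rw [hb]
    unfold kE kU
    positivity
  obtain ⟨s, hss⟩ : ∃ s, s = G.sG N q r k := ⟨_, rfl⟩
  obtain ⟨M, hM⟩ : ∃ M, M = 2 ^ k * G.m * s := ⟨_, rfl⟩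
  have hbits : 2 ^ G.bG N q r k = b ^ M := by
    rw [G.two_pow_bG N q r k, ← hb, mm_code, ← hss, ← hM]
  -- the samples which are used
  have hlt : ∀ i : Fin s, (a * G.m + j) * s + i < M := by
    intro i
    have h1 : (a * G.m + j + 1) * s ≤ M := by
      rw [hM]
      refine Nat.mul_le_mul_right s ?_
      have h2 : (a + 1) * G.m ≤ 2 ^ k * G.m := Nat.mul_le_mul_right _ haa
      have h3 := j.isLt
      have h4 : (a + 1) * G.m = a * G.m + G.m := by ring
      omega
    have h5 : (a * G.m + j + 1) * s = (a * G.m + j) * s + s := by ring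
    have h6 := i.isLt
    omega
  obtain ⟨e, he⟩ : ∃ e : Fin s ↪ Fin M, ∀ i, (e i : ℕ) = (a * G.m + j) * s + i :=
    ⟨⟨fun i => ⟨(a * G.m + j) * s + i, hlt i⟩, fun i i' h => by
      have h1 := congrArg Fin.val h
      simp only at h1
      exact Fin.ext (by omega)⟩, fun _ => rfl⟩
  obtain ⟨g, hg⟩ : ∃ g : Fin b → ℝ, ∀ d, g d = f (G.eset (runN (G.code N) p q 0
      (T a) j (G.tG N q r) d (A a))) := ⟨_, fun _ => rfl⟩
  have hg01 : ∀ d, 0 ≤ g d ∧ g d ≤ 1 := fun d => by
    rw [hg]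
    exact hf _
  obtain ⟨μ, hμd⟩ : ∃ μ, μ = (∑ d, g d) / (Fintype.card (Fin b) : ℝ) := ⟨_, rfl⟩
  have hμe : μ = (∑ ρ ∈ range b, f (G.eset (runN (G.code N) p q 0 (T a) j
      (G.tG N q r) ρ (A a)))) / (b : ℝ) := by
    rw [hμd, Fintype.card_fin, Finset.sum_range]
    congr 1
    exact Finset.sum_congr rfl fun d _ => hg d
  rw [← hb, ← hμe, ← hμ0] at hnear
  rw [← hμ0] at hμ ⊢
  have hcp : (0 : ℝ) < 1 / (((G.n : ℝ) + 1) ^ 2 * (q : ℝ) ^ (4 * r + 1)) := by
    positivity
  have hμ0p : 0 < μ0 := lt_of_lt_of_le hcp hμ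
  have hδ : (0 : ℝ) < 1 / (100 * G.m * N) := by positivity
  have hδ1 : (1 : ℝ) / (100 * G.m * N) ≤ 1 / 100 := by
    refine one_div_le_one_div_of_le (by norm_num) ?_
    have h1 : (1 : ℝ) ≤ G.m * N := one_le_mul_of_one_le_of_one_le hmR hNR
    linarith
  have hμl : 99 / 100 * (1 / (((G.n : ℝ) + 1) ^ 2 * (q : ℝ) ^ (4 * r + 1))) ≤ μ := by
    have h1 := (abs_le.1 hnear).1
    have h2 : 1 / (100 * G.m * N) * μ0 ≤ 1 / 100 * μ0 := mul_le_mul_of_nonneg_right hδ1 hμ0p.le
    linarith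
  have hnum := num_s G.m G.n N q r k hm hN hq μ hμl
  rw [← hs, ← hss] at hnum
  have hne : Nonempty (Fin b) := ⟨⟨0, hb0⟩⟩
  have hI : (univ.map e).card = s := by
    rw [card_map, card_univ, Fintype.card_fin]
  have hcheb := cheb M (univ.map e) g hg01 μ hμd (1 / (100 * G.m * N)) hδ
  rw [hI, Fintype.card_fin] at hcheb
  have hcount := count_digs b M hb0 (fun c : Fin M → Fin b =>
      1 / (100 * G.m * N) * ((s : ℝ) * μ) < |∑ i ∈ univ.map e, g (c i) - (s : ℝ) * μ|)
    (fun ω => 1 / (100 * G.m * N) * ((s : ℝ) * μ) < |G.smpG N q r k T A p a j ω f - (s : ℝ) * μ|) (by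
      intro ω _
      have h1 : G.smpG N q r k T A p a j ω f = ∑ i ∈ univ.map e, g ⟨digs b ω i, Nat.mod_lt _ hb0⟩ := by
        rw [sum_map]
        unfold smpG
        rw [← hss, Finset.sum_range]
        refine Finset.sum_congr rfl fun i _ => ?_
        rw [hg, mm_code]
        unfold smpN
        rw [← hb]
        simp only [he]
      rw [h1])
  have hsub : ((range (2 ^ G.bG N q r k)).filter fun ω => ¬ Near (1 / (40 * G.m * N))
      (G.sG N q r k) (G.smpG N q r k T A p a j ω f) μ0).card ≤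
      ((range (b ^ M)).filter fun ω => 1 / (100 * G.m * N) * ((s : ℝ) * μ) <
        |G.smpG N q r k T A p a j ω f - (s : ℝ) * μ|).card := by
    rw [hbits, ← hss]
    refine card_le_card fun ω hω => ?_
    rw [mem_filter] at hω ⊢
    refine ⟨hω.1, ?_⟩
    by_contra hcon
    exact hω.2 (num_near G.m N hm hN s _ μ μ0 (Nat.cast_nonneg _) hμ0p.le (not_lt.1 hcon) hnear)
  rw [← hcount] at hcheb
  have hbR : ((2 : ℝ) ^ G.bG N q r k) = (b : ℝ) ^ M := by exact_mod_cast hbits
  rw [hbR]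
  refine le_trans ?_ hcheb
  exact mul_le_mul (by exact_mod_cast hsub) hnum (by positivity) (Nat.cast_nonneg _)

private theorem samp3_few (p a : ℕ) (j : Fin G.m) (hS : G.Short ∅ (2 * r)) (hp : 0 < p)
    (hpq : p < q) (hN : 1 ≤ N) (haa : a < 2 ^ k) (ha : G.SolG T A a)
    (f : Finset (Fin G.m) → ℝ) (hf : ∀ B, 0 ≤ f B ∧ f B ≤ 1)
    (hμ : 1 / (((G.n : ℝ) + 1) ^ 2 * (q : ℝ) ^ (4 * r + 1)) ≤ G.meanG q T p a j f)
    (s : Finset ℕ) (hs : ∀ ω ∈ s, ω < 2 ^ G.bG N q r k ∧ ¬ Near (1 / (40 * G.m * N))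
      (G.sG N q r k) (G.smpG N q r k T A p a j ω f) (G.meanG q T p a j f)) :
    (s.card : ℝ) * (16 * 2 ^ k * G.m) ≤ 2 ^ G.bG N q r k := by
  classical
  refine le_trans (mul_le_mul_of_nonneg_right ?_ (by positivity))
    (G.few_badG N q r k T A p a j hS hp hpq hN haa ha f hf hμ)
  exact_mod_cast card_le_card fun ω hω =>
    mem_filter.2 ⟨mem_range.2 (hs ω hω).1, (hs ω hω).2⟩

private theorem samp3_obsV (T : Fin G.n → ZMod 2) {l : ℝ} (h0 : 0 ≤ l) (h1 : l ≤ 1) (j : Fin G.m)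
    (B : Finset (Fin G.m)) : 0 ≤ G.obsV T l j B ∧ G.obsV T l j B ≤ 1 := by
  unfold obsV
  split_ifs
  · exact ⟨h0, h1⟩
  · exact ⟨zero_le_one, le_rfl⟩
  · exact ⟨le_rfl, zero_le_one⟩

private theorem samp3_obsU (T : Fin G.n → ZMod 2) (B : Finset (Fin G.m)) :
    0 ≤ G.obsU T B ∧ G.obsU T B ≤ 1 := by
  unfold obsU
  split_ifs
  · exact ⟨zero_le_one, le_rfl⟩
  · exact ⟨le_rfl, zero_le_one⟩

/-- Most random numbers are good. -/
theorem good_countG (p : ℕ) (hS : G.Short ∅ (2 * r)) (hp : 0 < p) (hpq : p < q) (hN : 1 ≤ N) :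
    open Classical in
    (7 : ℝ) * 2 ^ G.bG N q r k ≤
      8 * (((range (2 ^ G.bG N q r k)).filter fun ω => G.GoodG N q r k T A p ω).card : ℝ) := by
  have hSh := hS
  classical
  have hq0 : (0 : ℝ) < q := by
    have : 0 < q := by omega
    exact_mod_cast this
  have hl0 : (0 : ℝ) ≤ (p : ℝ) / q := by positivity
  have hl1 : (p : ℝ) / q ≤ 1 := by
    rw [div_le_one hq0]
    exact_mod_cast hpq.le
  obtain ⟨K, hK⟩ : ∃ K : ℕ, K = 2 ^ G.bG N q r k := ⟨_, rfl⟩
  obtain ⟨L, hL⟩ : ∃ L : ℕ, L = 2 ^ k := ⟨_, rfl⟩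
  have hKr : (2 : ℝ) ^ G.bG N q r k = K := by
    rw [hK]
    push_cast
    rfl
  have hLr : (2 : ℝ) ^ k = L := by
    rw [hL]
    push_cast
    rfl
  have hL0 : 0 < L := by
    rw [hL]
    positivity
  obtain ⟨bad, hbad⟩ : ∃ bad : ℕ → Fin G.m → Finset ℕ, bad = fun (a : ℕ) (j : Fin G.m) => (range K).filter fun ω =>
      G.SolG T A a ∧ (¬ Near (1 / (40 * G.m * N)) (G.sG N q r k)
        (G.smpG N q r k T A p a j ω (G.obsU (G.vvec (T a)))) (G.meanG q T p a j (G.obsU (G.vvec (T a)))) ∨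
        ¬ Near (1 / (40 * G.m * N)) (G.sG N q r k)
        (G.smpG N q r k T A p a j ω (G.obsV (G.vvec (T a)) ((p : ℝ) / q) j))
        (G.meanG q T p a j (G.obsV (G.vvec (T a)) ((p : ℝ) / q) j))) := ⟨_, rfl⟩
  have h1 : ∀ a ∈ range L, ∀ j : Fin G.m, ((bad a j).card : ℝ) * (16 * L * G.m) ≤ 2 * K := by
    intro a ha j
    rw [mem_range, hL] at ha
    by_cases hS : G.SolG T A a
    · obtain ⟨sU, hsU⟩ : ∃ s : Finset ℕ, s = (range K).filter fun ω =>
          ¬ Near (1 / (40 * G.m * N)) (G.sG N q r k)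
            (G.smpG N q r k T A p a j ω (G.obsU (G.vvec (T a)))) (G.meanG q T p a j (G.obsU (G.vvec (T a)))) :=
        ⟨_, rfl⟩
      obtain ⟨sV, hsV⟩ : ∃ s : Finset ℕ, s = (range K).filter fun ω =>
          ¬ Near (1 / (40 * G.m * N)) (G.sG N q r k)
            (G.smpG N q r k T A p a j ω (G.obsV (G.vvec (T a)) ((p : ℝ) / q) j))
            (G.meanG q T p a j (G.obsV (G.vvec (T a)) ((p : ℝ) / q) j)) := ⟨_, rfl⟩
      have hcU := G.samp3_few N q r k T A p a j hSh hp hpq hN ha hS (G.obsU (G.vvec (T a)))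
        (G.samp3_obsU (G.vvec (T a))) (by
          refine le_trans ?_ (G.meanG_obsU q r T A p a j hSh hS hp hpq).2
          refine one_div_le_one_div_of_le (by positivity) ?_
          refine mul_le_mul_of_nonneg_left ?_ (by positivity)
          refine pow_le_pow_right₀ ?_ (Nat.le_succ _)
          have : 1 ≤ q := by omega
          exact_mod_cast this) sU (by
          intro ω hω
          rw [hsU, mem_filter, mem_range, hK] at hω
          exact hω)
      have hcV := G.samp3_few N q r k T A p a j hSh hp hpq hN ha hS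
        (G.obsV (G.vvec (T a)) ((p : ℝ) / q) j)
        (G.samp3_obsV (G.vvec (T a)) hl0 hl1 j) (G.meanG_obsV q r T A p a j hSh hS hp hpq).2 sV (by
          intro ω hω
          rw [hsV, mem_filter, mem_range, hK] at hω
          exact hω)
      rw [hKr, hLr] at hcU hcV
      have hc : ((bad a j).card : ℝ) ≤ sU.card + sV.card := by
        have h2 : bad a j ⊆ sU ∪ sV := by
          intro ω hω
          rw [hbad] at hω
          obtain ⟨h3, -, h4⟩ := mem_filter.1 hω
          rw [mem_union, hsU, hsV, mem_filter, mem_filter]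
          rcases h4 with h4 | h4
          · exact Or.inl ⟨h3, h4⟩
          · exact Or.inr ⟨h3, h4⟩
        exact_mod_cast (card_le_card h2).trans (card_union_le _ _)
      have h5 := mul_le_mul_of_nonneg_right hc (show (0 : ℝ) ≤ 16 * L * G.m by positivity)
      linarith
    · have h2 : bad a j = ∅ := by
        rw [hbad]
        exact filter_eq_empty_iff.2 fun ω _ h => hS h.1
      rw [h2, card_empty]
      have : (0 : ℝ) ≤ K := Nat.cast_nonneg K
      push_cast
      linarith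
  obtain ⟨Bd, hBd⟩ : ∃ Bd : Finset ℕ, Bd = (range K).filter fun ω => ¬ G.GoodG N q r k T A p ω := ⟨_, rfl⟩
  have h2 : Bd ⊆ (range L).biUnion fun a => (univ : Finset (Fin G.m)).biUnion fun j => bad a j := by
    intro ω hω
    rw [hBd, mem_filter] at hω
    obtain ⟨h3, h4⟩ := hω
    unfold GoodG at h4
    push Not at h4
    obtain ⟨a, ha, hS, j, hj⟩ := h4
    rw [mem_biUnion]
    refine ⟨a, mem_range.2 (by rw [hL]; exact ha), ?_⟩
    rw [mem_biUnion]
    refine ⟨j, mem_univ _, ?_⟩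
    rw [hbad]
    refine mem_filter.2 ⟨h3, hS, ?_⟩
    by_contra hcon
    push Not at hcon
    exact hj hcon.1 hcon.2
  have h3 : (Bd.card : ℝ) * 8 ≤ K := by
    rcases Nat.eq_zero_or_pos G.m with hm | hm
    · have h4 : Bd = ∅ := by
        rw [eq_empty_iff_forall_notMem]
        intro ω hω
        have h5 := h2 hω
        rw [mem_biUnion] at h5
        obtain ⟨a, -, h6⟩ := h5
        rw [mem_biUnion] at h6
        obtain ⟨j, -, -⟩ := h6
        have := j.isLt
        omega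
      rw [h4, card_empty]
      have : (0 : ℝ) ≤ K := Nat.cast_nonneg K
      push_cast
      linarith
    · have hm0 : (0 : ℝ) < G.m := by exact_mod_cast hm
      have hLr0 : (0 : ℝ) < L := by exact_mod_cast hL0
      have h4 : (Bd.card : ℝ) ≤ ∑ a ∈ range L, ∑ j : Fin G.m, ((bad a j).card : ℝ) := by
        have h5 : Bd.card ≤ ∑ a ∈ range L, ∑ j : Fin G.m, (bad a j).card :=
          (card_le_card h2).trans (card_biUnion_le.trans
            (sum_le_sum fun a _ => card_biUnion_le))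
        exact_mod_cast h5
      have h5 : (Bd.card : ℝ) * (16 * L * G.m) ≤ L * (G.m * (2 * K)) := by
        calc (Bd.card : ℝ) * (16 * L * G.m) ≤
            (∑ a ∈ range L, ∑ j : Fin G.m, ((bad a j).card : ℝ)) * (16 * L * G.m) :=
              mul_le_mul_of_nonneg_right h4 (by positivity)
          _ = ∑ a ∈ range L, ∑ j : Fin G.m, ((bad a j).card : ℝ) * (16 * L * G.m) := by
              rw [sum_mul]
              exact sum_congr rfl fun a _ => sum_mul _ _ _
          _ ≤ ∑ a ∈ range L, ∑ j : Fin G.m, (2 * (K : ℝ)) :=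
              sum_le_sum fun a ha => sum_le_sum fun j _ => h1 a ha j
          _ = L * (G.m * (2 * K)) := by
              rw [sum_const, sum_const, card_range, card_univ, Fintype.card_fin, nsmul_eq_mul,
                nsmul_eq_mul]
      have h6 : (2 * (L : ℝ) * G.m) * ((Bd.card : ℝ) * 8) ≤ (2 * (L : ℝ) * G.m) * K := by
        linarith
      exact le_of_mul_le_mul_left h6 (by positivity)
  have h4 : (((range K).filter fun ω => G.GoodG N q r k T A p ω).card : ℝ) + Bd.card = K := by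
    have h5 := card_filter_add_card_filter_not (s := range K) (fun ω => G.GoodG N q r k T A p ω)
    rw [card_range] at h5
    rw [hBd]
    exact_mod_cast h5
  have h5 : (7 : ℝ) * K ≤ 8 * (((range K).filter fun ω => G.GoodG N q r k T A p ω).card : ℝ) := by
    linarith
  rw [hKr]
  refine h5.trans (le_of_eq ?_)
  rw [hK]

end MGraph

end Pool.Agent.Lib.H2
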