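import Pool.Agent.Lib.MP_3493b8_lc.V.Sum
import Pool.Agent.Lib.MP_3493b8_lc.V.Samp
import Pool.Agent.Lib.MP_3493b8_lc.Det3

/-! For good random numbers the output of the second algorithm is a good approximation. -/

set_option autoImplicit false

open Finset

namespace Pool.Agent.Lib.H2

open Pool.Agent.Lib.PTC

namespace MGraph

variable (G : MGraph) (N : ℕ)

/-- Most random numbers are good. -/
theorem good_countU (p q : ℕ) (hp : 0 < p) (hpq : p < q) (hN : 1 ≤ N) :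
    open Classical in
    (7 : ℝ) * 2 ^ bitsU (G.code N) q ≤
      8 * (((range (2 ^ bitsU (G.code N) q)).filter fun ω => G.GoodU N p q ω).card : ℝ) := by
  have h := (G.sp N).good_countG N q (rU (G.code N)) (kU2 (G.code N)) (bU (G.code N))
    (aU (G.code N)) p (G.clu_sp N).short hp hpq hN
  rw [← G.bitsU_code N q] at h
  exact h

/-- the absolute value of the output -/
private theorem detU_abs (p q b K ω : ℕ) (hp : 0 < p) (hpq : p < q) (hb : 0 < b) (hbq : 2 * b ≤ q)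
    (hN : 1 ≤ N) (hK : K = 4 * q ^ 2) (hω : G.GoodU N p q ω) :
    Real.exp (-(1 / (N : ℝ))) * ((K : ℝ) ^ S1 (G.code N) * (((q : ℝ) / (2 * b)) ^ nul (G.code N) *
        G.Zs ∅ (fun _ => (p : ℝ) / q) (G.bd univ))) ≤
      ((∑ a ∈ range (2 ^ kU2 (G.code N)), termU (G.code N) p q b K a ω : ℕ) : ℝ) ∧
    ((∑ a ∈ range (2 ^ kU2 (G.code N)), termU (G.code N) p q b K a ω : ℕ) : ℝ) ≤
      Real.exp (1 / (N : ℝ)) * ((K : ℝ) ^ S1 (G.code N) * (((q : ℝ) / (2 * b)) ^ nul (G.code N) *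
        G.Zs ∅ (fun _ => (p : ℝ) / q) (G.bd univ))) := by
  have hM := G.sum_exact_ge N p q b hp hpq hb hbq
  rw [← hK] at hM
  have hk : kU2 (G.code N) + N + 2 ≤ S1 (G.code N) := by
    have h1 := G.kU2_le N
    unfold S1
    rw [nn_code, mm_code, NN_code]
    omega
  have hT := fun a (ha : a ∈ range (2 ^ kU2 (G.code N))) =>
    G.termU_bound N p q b K a ω hp hpq hb hN hω (Finset.mem_range.1 ha)
  refine num_floor N (S1 (G.code N)) hN (kU2 (G.code N)) hk _ _ hM ?_ ?_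
  · rw [← G.sum_exactU N p q b K, Finset.mul_sum, Nat.cast_sum]
    have h1 := Finset.sum_le_sum fun a ha => (hT a ha).1
    rw [Finset.sum_sub_distrib, Finset.sum_const, Finset.card_range, nsmul_eq_mul, mul_one,
      Nat.cast_pow, Nat.cast_ofNat] at h1
    exact h1
  · rw [← G.sum_exactU N p q b K, Finset.mul_sum, Nat.cast_sum]
    exact Finset.sum_le_sum fun a ha => (hT a ha).2

/-- For a good random number the output is a good approximation. -/
theorem detU (s b ω : ℕ) (hb : 0 < b) (hs : b < s) (hN : 1 ≤ N) (y : ℝ)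
    (hy : y = -((s : ℝ) / b)) (hω : G.GoodU N (s - b) (s + b) ω) :
    Close (1 / N) ((outZU (G.code N) (s - b) (s + b) b (4 * (s + b) ^ 2) ω : ℝ) /
      ((4 * (s + b) ^ 2 : ℕ) : ℝ) ^ (G.n + G.m + N + 2)) (G.tutte (1 + 2 / (y - 1)) y) := by
  obtain ⟨p, hp⟩ : ∃ p, p = s - b := ⟨_, rfl⟩
  obtain ⟨q, hq⟩ : ∃ q, q = s + b := ⟨_, rfl⟩
  obtain ⟨K, hK⟩ : ∃ K, K = 4 * q ^ 2 := ⟨_, rfl⟩
  rw [← hp, ← hq] at hω
  rw [← hp, ← hq, ← hK]
  have hp0 : 0 < p := by omega
  have hpq : p < q := by omega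
  have hbq : 2 * b ≤ q := by omega
  have hbR : (0 : ℝ) < b := by exact_mod_cast hb
  have hqR : (0 : ℝ) < q := by exact_mod_cast (by omega : 0 < q)
  have hsb : (b : ℝ) < s := by exact_mod_cast hs
  have hpR : (p : ℝ) = s - b := by
    rw [hp, Nat.cast_sub hs.le]
  have hqR' : (q : ℝ) = s + b := by
    rw [hq, Nat.cast_add]
  have hy1 : y < -1 := by
    rw [hy]
    have : 1 < (s : ℝ) / b := by rwa [one_lt_div hbR]
    linarith
  have e1 : (y - 1) / 2 = -((q : ℝ) / (2 * b)) := by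
    rw [hy, hqR']
    field_simp
    ring
  have e2 : (y + 1) / (y - 1) = (p : ℝ) / q := by
    have h1 : y - 1 = -((q : ℝ) / b) := by
      rw [hy, hqR']
      field_simp
      ring
    have h2 : y + 1 = -((p : ℝ) / b) := by
      rw [hy, hpR]
      field_simp
      ring
    rw [h1, h2, neg_div_neg_eq, div_div_div_cancel_right₀ hbR.ne']
  have hT := G.tutte_eq y hy1
  rw [e1, e2, ← G.nul_code N] at hT
  obtain ⟨h1, h2⟩ := G.detU_abs N p q b K ω hp0 hpq hb hbq hN hK hω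
  have hM := G.sum_exact_ge N p q b hp0 hpq hb hbq
  rw [← hK] at hM
  have hS : G.n + G.m + N + 2 = S1 (G.code N) := rfl
  have hKR : (0 : ℝ) < (K : ℝ) ^ S1 (G.code N) := by
    have : 0 < K := by
      rw [hK]
      have : 0 < q := by omega
      positivity
    have : (0 : ℝ) < K := by exact_mod_cast this
    positivity
  have hO : (outZU (G.code N) p q b K ω : ℝ) = (-1) ^ nul (G.code N) *
      ((∑ a ∈ range (2 ^ kU2 (G.code N)), termU (G.code N) p q b K a ω : ℕ) : ℝ) := by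
    unfold outZU outU
    rcases Nat.mod_two_eq_zero_or_one (nul (G.code N)) with h | h
    · rw [if_pos h, (Nat.even_iff.2 h).neg_one_pow, one_mul]
      push_cast
      rfl
    · have h' : ¬ nul (G.code N) % 2 = 0 := by omega
      rw [if_neg h', (Nat.odd_iff.2 h).neg_one_pow]
      push_cast
      ring
  obtain ⟨E, hE⟩ : ∃ E : ℝ, E =
    ((∑ a ∈ range (2 ^ kU2 (G.code N)), termU (G.code N) p q b K a ω : ℕ) : ℝ) := ⟨_, rfl⟩
  obtain ⟨Q, hQ⟩ : ∃ Q : ℝ, Q = ((q : ℝ) / (2 * b)) ^ nul (G.code N) *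
        G.Zs ∅ (fun _ => (p : ℝ) / q) (G.bd univ) := ⟨_, rfl⟩
  rw [← hE, ← hQ] at h1 h2
  rw [← hQ] at hM
  rw [← hE] at hO
  have hM0 : 0 < (K : ℝ) ^ S1 (G.code N) * Q := lt_of_lt_of_le (by positivity) hM
  have hQ0 : 0 < Q := (mul_pos_iff_of_pos_left hKR).1 hM0
  have hT' : G.tutte (1 + 2 / (y - 1)) y = (-1) ^ nul (G.code N) * Q := by
    rw [hT, hQ, neg_pow]
    ring
  have key : (outZU (G.code N) p q b K ω : ℝ) / (K : ℝ) ^ (G.n + G.m + N + 2) /
      G.tutte (1 + 2 / (y - 1)) y = E / ((K : ℝ) ^ S1 (G.code N) * Q) := by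
    rw [hO, hT', hS]
    have h3 : ((-1 : ℝ)) ^ nul (G.code N) ≠ 0 := pow_ne_zero _ (by norm_num)
    rw [div_div, ← mul_assoc, mul_comm ((K : ℝ) ^ S1 (G.code N)), mul_assoc,
      mul_div_mul_left _ _ h3]
  unfold Close
  rw [key]
  exact ⟨(le_div_iff₀ hM0).2 h1, (div_le_iff₀ hM0).2 h2⟩

end MGraph

end Pool.Agent.Lib.H2
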