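import Pool.Agent.Lib.MP_3493b8_lc.Sem2
import Pool.Agent.Lib.MP_3493b8_lc.ChainO
import Pool.Agent.Lib.MP_3493b8_lc.Split
import Pool.Agent.Lib.MP_3493b8_lc.Num

/-! The estimates for a family of boundaries `T a` and start states `A a` in a graph with small
components: definitions. -/

set_option autoImplicit false

open Finset

namespace Pool.Agent.Lib.H2

open Pool.Agent.Lib.PTC

namespace MGraph

variable (G : MGraph) (N q r k : ℕ) (T A : ℕ → ℕ)

/-- number of steps -/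
def tG : ℕ := (2 * G.m * ((G.n + 1) ^ 2 * q ^ (4 * r)) * (kE (G.code N) * kU q) + 1) *
  (30 * q * (G.n + G.m + N + 2) * (r + 1))

/-- number of samples -/
def sG : ℕ := 2 ^ 20 * 2 ^ k * (G.n + G.m + N + 2) ^ 7 * q ^ (4 * r + 1)

/-- number of coin flips -/
def bG : ℕ := (Nat.size G.m + (Nat.size q + 1)) * G.tG N q r * (2 ^ k * G.m * G.sG N q r k)

/-- the start state `A a` has the boundary `T a` -/
def SolG (a : ℕ) : Prop := G.bd (G.eset (A a)) = G.vvec (T a)

/-- the exact mean of an observable in stage `j` -/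
noncomputable def meanG (p a j : ℕ) (f : Finset (Fin G.m) → ℝ) : ℝ :=
  (∑ B, G.nuJ ∅ (G.vvec (T a)) p q j B * f B) / (∑ B, G.nuJ ∅ (G.vvec (T a)) p q j B)

/-- the sum over the samples of an observable -/
noncomputable def smpG (p a j ω : ℕ) (f : Finset (Fin G.m) → ℝ) : ℝ :=
  ∑ i ∈ range (G.sG N q r k), f (G.eset (smpN (G.code N) p q 0 (T a) (A a) j (G.tG N q r) ω
    ((a * mm (G.code N) + j) * G.sG N q r k + i)))

/-- The random number `ω` is good. -/
def GoodG (p ω : ℕ) : Prop :=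
  ∀ a < 2 ^ k, G.SolG T A a → ∀ j : Fin G.m,
    Near (1 / (40 * G.m * N)) (G.sG N q r k) (G.smpG N q r k T A p a j ω (G.obsU (G.vvec (T a))))
      (G.meanG q T p a j (G.obsU (G.vvec (T a)))) ∧
    Near (1 / (40 * G.m * N)) (G.sG N q r k)
      (G.smpG N q r k T A p a j ω (G.obsV (G.vvec (T a)) ((p : ℝ) / q) j))
      (G.meanG q T p a j (G.obsV (G.vvec (T a)) ((p : ℝ) / q) j))

private theorem vest_pos (p a j : ℕ) (ha : G.SolG T A a) (hp : 0 < p) (hpq : p < q) :
    0 < ∑ B, G.nuJ ∅ (G.vvec (T a)) p q j B := by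
  have hAb : G.bd (G.eset (A a)) = G.vvec (T a) := ha
  have hA : Disjoint (G.eset (A a)) ∅ := disjoint_empty_right _
  rw [← hAb]
  have hq : (0 : ℝ) < q := by exact_mod_cast hp.trans hpq
  have h1 := G.nuJ_ge ∅ p q j hp hpq (G.eset (A a)) hA
  have h2 : 0 < G.nuJ ∅ (G.bd (G.eset (A a))) p q j (G.eset (A a)) :=
    lt_of_lt_of_le (one_div_pos.2 (pow_pos hq _)) h1
  exact sum_pos' (fun B _ => G.nuJ_nonneg _ _ p q j B) ⟨G.eset (A a), mem_univ _, h2⟩

private theorem vest_share (p a j : ℕ) (hS : G.Short ∅ (2 * r)) (ha : G.SolG T A a) (hp : 0 < p)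
    (hpq : p < q) :
    ∑ B, G.nuJ ∅ (G.vvec (T a)) p q j B ≤
      ((G.n : ℝ) + 1) ^ 2 * (q : ℝ) ^ (4 * r) *
        G.Zs ∅ (G.wj ((p : ℝ) / q) j) (G.vvec (T a)) := by
  have hAb : G.bd (G.eset (A a)) = G.vvec (T a) := ha
  have hA : Disjoint (G.eset (A a)) ∅ := disjoint_empty_right _
  have h1 := G.base_share hS p q j hp hpq (G.eset (A a)) hA
  rw [hAb, show 2 * (2 * r) = 4 * r by ring] at h1
  exact h1

private theorem vest_succ (F : Finset (Fin G.m)) (S : Fin G.n → ZMod 2) (p : ℕ) (j : Fin G.m)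
    (hp : 0 < p) (hpq : p < q) : G.Zs F (G.wj ((p : ℝ) / q) j) S ≤
      q * G.Zs F (G.wj ((p : ℝ) / q) (j + 1)) S := by
  have hq : (0 : ℝ) < q := by exact_mod_cast hp.trans hpq
  have hp1 : (1 : ℝ) ≤ p := by exact_mod_cast hp
  have hq1 : (1 : ℝ) ≤ q := by exact_mod_cast hp.trans hpq
  rw [G.Zs_wj_succ, mul_sum]
  unfold Zs
  refine sum_le_sum fun B _ => ?_
  by_cases h : Disjoint B F ∧ G.bd B = S
  · rw [if_pos h, if_pos h]
    have h0 : 0 ≤ ∏ i ∈ B, G.wj ((p : ℝ) / q) j i := by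
      refine prod_nonneg fun i _ => ?_
      unfold wj
      split_ifs
      · positivity
      · exact zero_le_one
    have h1 : (1 : ℝ) ≤ q * (if j ∈ B then (p : ℝ) / q else 1) := by
      split_ifs
      · rw [mul_div_cancel₀ _ hq.ne']
        exact hp1
      · rw [mul_one]
        exact hq1
    calc ∏ i ∈ B, G.wj ((p : ℝ) / q) j i
        ≤ (∏ i ∈ B, G.wj ((p : ℝ) / q) j i) * (q * (if j ∈ B then (p : ℝ) / q else 1)) :=
          le_mul_of_one_le_right h0 h1
      _ = q * ((∏ i ∈ B, G.wj ((p : ℝ) / q) j i) * (if j ∈ B then (p : ℝ) / q else 1)) := by ring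
  · rw [if_neg h, if_neg h, mul_zero]

private theorem vest_mem (B : ℕ) (j : Fin G.m) : j ∈ G.eset B ↔ B.testBit j = true := by
  unfold eset
  rw [mem_filter]
  exact ⟨fun h => h.2, fun h => ⟨mem_univ _, h⟩⟩

theorem solG_iff (a : ℕ) : defN (G.code N) (T a) (A a) = 0 ↔ G.SolG T A a := by
  unfold SolG
  exact G.defN_zero N (T a) (A a)

/-- the mean of the first observable -/
theorem meanG_obsU (p a j : ℕ) (hS : G.Short ∅ (2 * r)) (ha : G.SolG T A a) (hp : 0 < p)
    (hpq : p < q) :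
    G.meanG q T p a j (G.obsU (G.vvec (T a))) =
      G.Zs ∅ (G.wj ((p : ℝ) / q) j) (G.vvec (T a)) / (∑ B, G.nuJ ∅ (G.vvec (T a)) p q j B) ∧
    1 / (((G.n : ℝ) + 1) ^ 2 * (q : ℝ) ^ (4 * r)) ≤
      G.meanG q T p a j (G.obsU (G.vvec (T a))) := by
  have hq : (0 : ℝ) < q := by exact_mod_cast hp.trans hpq
  have he : G.meanG q T p a j (G.obsU (G.vvec (T a))) =
      G.Zs ∅ (G.wj ((p : ℝ) / q) j) (G.vvec (T a)) /
        (∑ B, G.nuJ ∅ (G.vvec (T a)) p q j B) := by
    unfold meanG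
    rw [G.mean_U]
  refine ⟨he, ?_⟩
  have h1 := G.vest_pos q T A p a j ha hp hpq
  have h2 := G.vest_share q r T A p a j hS ha hp hpq
  rw [he, div_le_div_iff₀ (by positivity) h1]
  linarith

/-- the mean of the second observable -/
theorem meanG_obsV (p a : ℕ) (j : Fin G.m) (hS : G.Short ∅ (2 * r)) (ha : G.SolG T A a)
    (hp : 0 < p) (hpq : p < q) :
    G.meanG q T p a j (G.obsV (G.vvec (T a)) ((p : ℝ) / q) j) =
      G.Zs ∅ (G.wj ((p : ℝ) / q) (j + 1)) (G.vvec (T a)) /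
        (∑ B, G.nuJ ∅ (G.vvec (T a)) p q j B) ∧
    1 / (((G.n : ℝ) + 1) ^ 2 * (q : ℝ) ^ (4 * r + 1)) ≤
      G.meanG q T p a j (G.obsV (G.vvec (T a)) ((p : ℝ) / q) j) := by
  have hq : (0 : ℝ) < q := by exact_mod_cast hp.trans hpq
  have he : G.meanG q T p a j (G.obsV (G.vvec (T a)) ((p : ℝ) / q) j) =
      G.Zs ∅ (G.wj ((p : ℝ) / q) (j + 1)) (G.vvec (T a)) /
        (∑ B, G.nuJ ∅ (G.vvec (T a)) p q j B) := by
    unfold meanG
    rw [G.mean_V]
  refine ⟨he, ?_⟩
  have h1 := G.vest_pos q T A p a j ha hp hpq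
  have h2 := G.vest_share q r T A p a j hS ha hp hpq
  have h3 := G.vest_succ q ∅ (G.vvec (T a)) p j hp hpq
  have h4 : (0 : ℝ) ≤ ((G.n : ℝ) + 1) ^ 2 * (q : ℝ) ^ (4 * r) := by positivity
  have h5 := mul_le_mul_of_nonneg_left h3 h4
  have h6 : ((G.n : ℝ) + 1) ^ 2 * (q : ℝ) ^ (4 * r) *
      (q * G.Zs ∅ (G.wj ((p : ℝ) / q) (j + 1)) (G.vvec (T a))) =
      G.Zs ∅ (G.wj ((p : ℝ) / q) (j + 1)) (G.vvec (T a)) *
        (((G.n : ℝ) + 1) ^ 2 * (q : ℝ) ^ (4 * r + 1)) := by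
    rw [pow_succ (q : ℝ) (4 * r)]
    ring
  rw [he, div_le_div_iff₀ (by positivity) h1, one_mul, ← h6]
  exact h2.trans h5

/-- the counts of the algorithm in terms of the samples -/
theorem cntU_smpG (p a j ω : ℕ) :
    ((cntU (G.code N) p q 0 (T a) (A a) j (G.tG N q r) (G.sG N q r k)
      ((a * mm (G.code N) + j) * G.sG N q r k) ω : ℕ) : ℝ) =
      G.smpG N q r k T A p a j ω (G.obsU (G.vvec (T a))) := by
  unfold cntU smpG
  rw [Nat.cast_sum]
  refine Finset.sum_congr rfl fun i _ => ?_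
  unfold obsU
  by_cases h : defN (G.code N) (T a) (smpN (G.code N) p q 0 (T a) (A a) j (G.tG N q r) ω
      ((a * mm (G.code N) + j) * G.sG N q r k + i)) = 0
  · rw [if_pos h, if_pos ((G.defN_zero N _ _).1 h), Nat.cast_one]
  · rw [if_neg h, if_neg fun h2 => h ((G.defN_zero N _ _).2 h2), Nat.cast_zero]

theorem cntV_smpG (p a ω : ℕ) (j : Fin G.m) (hp : 0 < p) (hpq : p < q) :
    ((q * (cntU (G.code N) p q 0 (T a) (A a) j (G.tG N q r) (G.sG N q r k)
          ((a * mm (G.code N) + j) * G.sG N q r k) ω -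
        cntB (G.code N) p q 0 (T a) (A a) j (G.tG N q r) (G.sG N q r k)
          ((a * mm (G.code N) + j) * G.sG N q r k) ω) +
      p * cntB (G.code N) p q 0 (T a) (A a) j (G.tG N q r) (G.sG N q r k)
          ((a * mm (G.code N) + j) * G.sG N q r k) ω : ℕ) : ℝ) =
      q * G.smpG N q r k T A p a j ω (G.obsV (G.vvec (T a)) ((p : ℝ) / q) j) := by
  have hq : (q : ℝ) ≠ 0 := Nat.cast_ne_zero.2 (by omega)
  have hle : cntB (G.code N) p q 0 (T a) (A a) j (G.tG N q r) (G.sG N q r k)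
      ((a * mm (G.code N) + j) * G.sG N q r k) ω ≤
      cntU (G.code N) p q 0 (T a) (A a) j (G.tG N q r) (G.sG N q r k)
      ((a * mm (G.code N) + j) * G.sG N q r k) ω := by
    unfold cntB cntU
    refine Finset.sum_le_sum fun i _ => ?_
    by_cases h : defN (G.code N) (T a) (smpN (G.code N) p q 0 (T a) (A a) j (G.tG N q r) ω
        ((a * mm (G.code N) + j) * G.sG N q r k + i)) = 0
    · rw [if_pos h]
      split_ifs
      · exact le_rfl
      · exact Nat.zero_le _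
    · rw [if_neg fun h2 => h h2.1]
      exact Nat.zero_le _
  rw [Nat.cast_add, Nat.cast_mul, Nat.cast_mul, Nat.cast_sub hle]
  unfold cntU cntB smpG
  rw [Nat.cast_sum, Nat.cast_sum, ← Finset.sum_sub_distrib, Finset.mul_sum, Finset.mul_sum,
    Finset.mul_sum, ← Finset.sum_add_distrib]
  refine Finset.sum_congr rfl fun i _ => ?_
  unfold obsV
  generalize smpN (G.code N) p q 0 (T a) (A a) j (G.tG N q r) ω
      ((a * mm (G.code N) + j) * G.sG N q r k + i) = B
  by_cases h : defN (G.code N) (T a) B = 0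
  · rw [if_pos h, if_pos ((G.defN_zero N _ _).1 h)]
    by_cases hj : B.testBit j = true
    · rw [if_pos ⟨h, hj⟩, if_pos ((G.vest_mem B j).2 hj), Nat.cast_one, sub_self, mul_zero,
        zero_add, mul_one, mul_div_cancel₀ _ hq]
    · rw [if_neg fun h2 => hj h2.2, if_neg fun h2 => hj ((G.vest_mem B j).1 h2), Nat.cast_one,
        Nat.cast_zero, sub_zero, mul_zero, add_zero]
  · rw [if_neg h, if_neg fun h2 => h h2.1, if_neg fun h2 => h ((G.defN_zero N _ _).2 h2),
      Nat.cast_zero, sub_zero, mul_zero, mul_zero, add_zero]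

end MGraph

end Pool.Agent.Lib.H2
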