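import Pool.Agent.Lib.MP_3493b8_lc.V.Spl
import Pool.Agent.Lib.MP_3493b8_lc.V.Ball
import Pool.Agent.Lib.MP_3493b8_lc.Clu

/-! The invariant of the vertex splitting. -/

set_option autoImplicit false

open Finset

namespace Pool.Agent.Lib.H2

namespace MGraph

variable (G : MGraph)

/-- the edges without label (labels are `r + 1`, `0` means: no label) -/
def unlab (lab : Fin G.m → ℕ) : Finset (Fin G.m) := univ.filter fun i => lab i = 0

/-- Invariant after `t` steps: `M` are the main copies, `F` the extra copies. -/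
structure InvE (lab : Fin G.m → ℕ) (lay : Fin (G.n * G.n) → ℕ) (M F : Finset (Fin (G.n * G.n)))
    (t R B L : ℕ) : Prop where
  lab_le : ∀ i, lab i ≤ t
  pos : ∀ w, 1 ≤ lay w
  le : ∀ w, lay w ≤ R + 1
  le_n : ∀ w, lay w ≤ G.n
  act : ∀ (i : Fin G.m) (r : Fin G.n), lab i = r + 1 →
    G.pr (G.e i).1 r ∈ M ∪ F ∧ G.pr (G.e i).2 r ∈ M ∪ F
  old : ∀ v r, G.pr v r ∈ M ∪ F → (r : ℕ) < t
  old' : ∀ v r, 2 ≤ lay (G.pr v r) → (r : ℕ) < t
  root : ∀ v r, G.pr v r ∈ M ∪ F → lay (G.pr v r) = 1 → v = r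
  par : ∀ v r, 2 ≤ lay (G.pr v r) → ∃ i, lab i = (r : ℕ) + 1 ∧ ∃ w,
    (G.e i = (v, w) ∨ G.e i = (w, v)) ∧ lay (G.pr w r) + 1 = lay (G.pr v r)
  uniq : ∀ v r r', G.pr v r ∈ M → G.pr v r' ∈ M → r = r'
  fin : ∀ v r i, G.pr v r ∈ M → ((G.e i).1 = v ∨ (G.e i).2 = v) → lab i ≠ 0
  disj : Disjoint M F
  size : F.card * B ≤ L * M.card

theorem invE_init (R B L : ℕ) : G.InvE (fun _ => 0) (fun _ => 1) ∅ ∅ 0 R B L where
  lab_le := fun _ => le_rfl
  pos := fun _ => le_rfl
  le := fun _ => by omega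
  le_n := fun w => by
    have h1 := w.2
    rcases Nat.eq_zero_or_pos G.n with h0 | h0
    · have h2 : G.n * G.n = 0 := by rw [h0]
      omega
    · exact h0
  act := fun i r h => by simp at h
  old := fun v r h => by simp at h
  old' := fun v r h => by simp at h
  root := fun v r h => by simp at h
  par := fun v r h => by simp at h
  uniq := fun v r r' h => by simp at h
  fin := fun v r i h => by simp at h
  disj := Finset.disjoint_empty_left _
  size := by simp

theorem InvE.mono {lab : Fin G.m → ℕ} {lay : Fin (G.n * G.n) → ℕ}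
    {M F : Finset (Fin (G.n * G.n))} {t R B L : ℕ} (h : G.InvE lab lay M F t R B L) :
    G.InvE lab lay M F (t + 1) R B L where
  lab_le := fun i => le_trans (h.lab_le i) (Nat.le_succ t)
  pos := h.pos
  le := h.le
  le_n := h.le_n
  act := h.act
  old := fun v r hv => lt_trans (h.old v r hv) (Nat.lt_succ_self t)
  old' := fun v r hv => lt_trans (h.old' v r hv) (Nat.lt_succ_self t)
  root := h.root
  par := h.par
  uniq := h.uniq
  fin := h.fin
  disj := h.disj
  size := h.size

/-- the labels after the step with the ball of radius `h` around `r` -/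
def labS (lab : Fin G.m → ℕ) (r : Fin G.n) (h : ℕ) (i : Fin G.m) : ℕ :=
  if lab i = 0 ∧ ((G.e i).1 ∈ G.ballE (G.unlab lab) r h ∨ (G.e i).2 ∈ G.ballE (G.unlab lab) r h) then
    r + 1 else lab i

/-- the layers after the step -/
noncomputable def layS (lab : Fin G.m → ℕ) (lay : Fin (G.n * G.n) → ℕ) (r : Fin G.n) (h : ℕ)
    (w : Fin (G.n * G.n)) : ℕ :=
  if w = G.pr (finProdFinEquiv.symm w).1 r ∧
      (finProdFinEquiv.symm w).1 ∈ G.ballE (G.unlab lab) r (h + 1) then
    1 + sInf {k | (finProdFinEquiv.symm w).1 ∈ G.ballE (G.unlab lab) r k} else lay w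

/-- the main copies after the step -/
def mS (lab : Fin G.m → ℕ) (M : Finset (Fin (G.n * G.n))) (r : Fin G.n) (h : ℕ) :
    Finset (Fin (G.n * G.n)) :=
  M ∪ (G.ballE (G.unlab lab) r h).image fun v => G.pr v r

/-- the extra copies after the step -/
def fS (lab : Fin G.m → ℕ) (F : Finset (Fin (G.n * G.n))) (r : Fin G.n) (h : ℕ) :
    Finset (Fin (G.n * G.n)) :=
  F ∪ (G.ballE (G.unlab lab) r (h + 1) \ G.ballE (G.unlab lab) r h).image fun v => G.pr v r

private theorem mem_unlab (lab : Fin G.m → ℕ) (i : Fin G.m) : i ∈ G.unlab lab ↔ lab i = 0 := by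
  unfold unlab
  rw [Finset.mem_filter]
  exact ⟨fun h => h.2, fun h => ⟨Finset.mem_univ _, h⟩⟩

private theorem labS_new {lab : Fin G.m → ℕ} {r : Fin G.n} {h : ℕ} {i : Fin G.m}
    (h0 : lab i = 0)
    (h1 : (G.e i).1 ∈ G.ballE (G.unlab lab) r h ∨ (G.e i).2 ∈ G.ballE (G.unlab lab) r h) :
    G.labS lab r h i = r + 1 := by
  unfold labS
  rw [if_pos ⟨h0, h1⟩]

private theorem labS_old {lab : Fin G.m → ℕ} {r : Fin G.n} {h : ℕ} {i : Fin G.m}
    (h0 : lab i ≠ 0) : G.labS lab r h i = lab i := by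
  unfold labS
  rw [if_neg fun h1 => h0 h1.1]

private theorem layS_new {lab : Fin G.m → ℕ} {lay : Fin (G.n * G.n) → ℕ} {r : Fin G.n} {h : ℕ}
    {v : Fin G.n} (hv : v ∈ G.ballE (G.unlab lab) r (h + 1)) :
    G.layS lab lay r h (G.pr v r) = 1 + sInf {k | v ∈ G.ballE (G.unlab lab) r k} := by
  unfold layS
  rw [G.symm_pr]
  rw [if_pos ⟨rfl, hv⟩]

private theorem layS_old {lab : Fin G.m → ℕ} {lay : Fin (G.n * G.n) → ℕ} {r : Fin G.n} {h : ℕ}
    {v s : Fin G.n} (hv : ¬ (s = r ∧ v ∈ G.ballE (G.unlab lab) r (h + 1))) :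
    G.layS lab lay r h (G.pr v s) = lay (G.pr v s) := by
  unfold layS
  rw [G.symm_pr]
  rw [if_neg]
  rintro ⟨h1, h2⟩
  exact hv ⟨(G.pr_inj.1 h1).2, h2⟩

private theorem mem_mS_iff {lab : Fin G.m → ℕ} {M : Finset (Fin (G.n * G.n))} {r : Fin G.n} {h : ℕ}
    {v s : Fin G.n} : G.pr v s ∈ G.mS lab M r h ↔
      G.pr v s ∈ M ∨ (s = r ∧ v ∈ G.ballE (G.unlab lab) r h) := by
  unfold mS
  rw [Finset.mem_union, Finset.mem_image]
  constructor
  · rintro (h1 | ⟨a, ha, h1⟩)
    · exact Or.inl h1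
    · obtain ⟨h2, h3⟩ := G.pr_inj.1 h1
      subst h2
      exact Or.inr ⟨h3.symm, ha⟩
  · rintro (h1 | ⟨h1, h2⟩)
    · exact Or.inl h1
    · subst h1
      exact Or.inr ⟨v, h2, rfl⟩

private theorem mem_fS_iff {lab : Fin G.m → ℕ} {F : Finset (Fin (G.n * G.n))} {r : Fin G.n} {h : ℕ}
    {v s : Fin G.n} : G.pr v s ∈ G.fS lab F r h ↔
      G.pr v s ∈ F ∨ (s = r ∧ v ∈ G.ballE (G.unlab lab) r (h + 1) ∧
        v ∉ G.ballE (G.unlab lab) r h) := by
  unfold fS
  rw [Finset.mem_union, Finset.mem_image]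
  constructor
  · rintro (h1 | ⟨a, ha, h1⟩)
    · exact Or.inl h1
    · obtain ⟨h2, h3⟩ := G.pr_inj.1 h1
      subst h2
      rw [Finset.mem_sdiff] at ha
      exact Or.inr ⟨h3.symm, ha⟩
  · rintro (h1 | ⟨h1, h2⟩)
    · exact Or.inl h1
    · subst h1
      exact Or.inr ⟨v, Finset.mem_sdiff.2 h2, rfl⟩

private theorem mem_cup {lab : Fin G.m → ℕ} {M F : Finset (Fin (G.n * G.n))} {r : Fin G.n} {h : ℕ}
    {v s : Fin G.n} : G.pr v s ∈ G.mS lab M r h ∪ G.fS lab F r h ↔
      G.pr v s ∈ M ∪ F ∨ (s = r ∧ v ∈ G.ballE (G.unlab lab) r (h + 1)) := by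
  rw [Finset.mem_union, Finset.mem_union, G.mem_mS_iff, G.mem_fS_iff]
  have h1 : v ∈ G.ballE (G.unlab lab) r h → v ∈ G.ballE (G.unlab lab) r (h + 1) :=
    fun h1 => G.ballE_mono _ r (Nat.le_succ h) h1
  tauto

private theorem dist_props (U : Finset (Fin G.m)) (r v : Fin G.n) (h : ℕ)
    (hv : v ∈ G.ballE U r h) : v ∈ G.ballE U r (sInf {k | v ∈ G.ballE U r k}) ∧
      (∀ k < sInf {k | v ∈ G.ballE U r k}, v ∉ G.ballE U r k) ∧
      sInf {k | v ∈ G.ballE U r k} ≤ h := by
  refine ⟨?_, ?_, ?_⟩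
  · exact Nat.sInf_mem (s := {k | v ∈ G.ballE U r k}) ⟨h, hv⟩
  · intro k hk hk'
    have := Nat.sInf_le (s := {k | v ∈ G.ballE U r k}) hk'
    omega
  · exact Nat.sInf_le (s := {k | v ∈ G.ballE U r k}) hv

private theorem dist_eq (U : Finset (Fin G.m)) (r v : Fin G.n) (h : ℕ)
    (hv : v ∈ G.ballE U r h) (hh : ∀ k < h, v ∉ G.ballE U r k) :
    sInf {k | v ∈ G.ballE U r k} = h := by
  obtain ⟨h1, h2, h3⟩ := G.dist_props U r v h hv
  by_contra hne
  exact hh _ (by omega) h1

private theorem sum_single_pr (b s r : Fin G.n) :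
    ∑ a, (Pi.single (G.pr b s) 1 : Fin (G.n * G.n) → ZMod 2) (G.pr a r) =
      if s = r then 1 else 0 := by
  split_ifs with h
  · subst h
    rw [Finset.sum_eq_single b]
    · exact Pi.single_eq_same _ _
    · intro a _ hab
      exact Pi.single_eq_of_ne (fun h => hab (G.pr_inj.1 h).1) _
    · intro h
      exact absurd (Finset.mem_univ _) h
  · refine Finset.sum_eq_zero fun a _ => ?_
    exact Pi.single_eq_of_ne (fun h1 => h (G.pr_inj.1 h1).2.symm) _

/-- the sum of the boundary over the copies with the second coordinate `r` vanishes -/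
private theorem sum_bd_spl (lab : Fin G.m → Fin G.n) (A : Finset (Fin G.m)) (r : Fin G.n) :
    ∑ a, (G.spl lab).bd A (G.pr a r) = 0 := by
  have h1 : ∀ a, (G.spl lab).bd A (G.pr a r) =
      ∑ i ∈ A, ((Pi.single (G.pr (G.e i).1 (lab i)) 1 : Fin (G.n * G.n) → ZMod 2) (G.pr a r) +
        (Pi.single (G.pr (G.e i).2 (lab i)) 1 : Fin (G.n * G.n) → ZMod 2) (G.pr a r)) := by
    intro a
    unfold bd
    exact Finset.sum_apply _ _ _
  simp only [h1]
  rw [Finset.sum_comm]
  refine Finset.sum_eq_zero fun i _ => ?_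
  rw [Finset.sum_add_distrib, G.sum_single_pr, G.sum_single_pr]
  exact CharTwo.add_self_eq_zero _

/-- one step -/
theorem invE_step {lab : Fin G.m → ℕ} {lay : Fin (G.n * G.n) → ℕ}
    {M F : Finset (Fin (G.n * G.n))} {R B L : ℕ} (r : Fin G.n)
    (hI : G.InvE lab lay M F r R B L) (hr : ∀ s, G.pr r s ∉ M) (h : ℕ)
    (hR : h + 1 ≤ R ∨ (h ≤ R ∧ G.ballE (G.unlab lab) r (h + 1) = G.ballE (G.unlab lab) r h))
    (hc : ((G.ballE (G.unlab lab) r (h + 1)).card - (G.ballE (G.unlab lab) r h).card) * B ≤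
      L * (G.ballE (G.unlab lab) r h).card) :
    G.InvE (G.labS lab r h) (G.layS lab lay r h) (G.mS lab M r h) (G.fS lab F r h) (r + 1)
      R B L := by
  have hlab : ∀ i, G.labS lab r h i = (r : ℕ) + 1 ∧ lab i = 0 ∧
      ((G.e i).1 ∈ G.ballE (G.unlab lab) r h ∨ (G.e i).2 ∈ G.ballE (G.unlab lab) r h) ∨
      G.labS lab r h i = lab i := by
    intro i
    by_cases hc : lab i = 0 ∧
        ((G.e i).1 ∈ G.ballE (G.unlab lab) r h ∨ (G.e i).2 ∈ G.ballE (G.unlab lab) r h)
    · exact Or.inl ⟨G.labS_new hc.1 hc.2, hc.1, hc.2⟩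
    · right
      unfold labS
      rw [if_neg hc]
  have hlay1 : ∀ v, v ∈ G.ballE (G.unlab lab) r (h + 1) →
      G.layS lab lay r h (G.pr v r) = 1 + sInf {k | v ∈ G.ballE (G.unlab lab) r k} :=
    fun v hv => G.layS_new hv
  have hb1 : G.ballE (G.unlab lab) r h ⊆ G.ballE (G.unlab lab) r (h + 1) :=
    G.ballE_mono _ r (Nat.le_succ h)
  refine ⟨?_, ?_, ?_, ?_, ?_, ?_, ?_, ?_, ?_, ?_, ?_, ?_, ?_⟩
  · -- lab_le
    intro i
    rcases hlab i with h1 | h1
    · rw [h1.1]
    · rw [h1]
      exact le_trans (hI.lab_le i) (Nat.le_succ _)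
  · -- pos
    intro w
    unfold layS
    split_ifs
    · omega
    · exact hI.pos w
  · -- le
    intro w
    unfold layS
    split_ifs with hw
    · have h2 := (G.dist_props _ _ _ _ hw.2).2.2
      rcases hR with h3 | ⟨h3, h4⟩
      · omega
      · have h5 := hw.2
        rw [h4] at h5
        have h6 := (G.dist_props _ _ _ _ h5).2.2
        omega
    · exact hI.le w
  · -- le_n
    intro w
    unfold layS
    split_ifs with hw
    · obtain ⟨h1, h2, -⟩ := G.dist_props _ _ _ _ hw.2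
      have h3 := G.distE_lt _ _ _ _ h1 h2
      omega
    · exact hI.le_n w
  · -- act
    intro i s hs
    rw [G.mem_cup, G.mem_cup]
    rcases hlab i with ⟨h1, h2, h3⟩ | h1
    · have h4 : s = r := by
        apply Fin.ext
        omega
      subst h4
      obtain ⟨h5, h6⟩ := G.ballE_next (G.unlab lab) s h i ((G.mem_unlab lab i).2 h2) h3
      exact ⟨Or.inr ⟨rfl, h5⟩, Or.inr ⟨rfl, h6⟩⟩
    · rw [h1] at hs
      obtain ⟨h2, h3⟩ := hI.act i s hs
      exact ⟨Or.inl h2, Or.inl h3⟩
  · -- old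
    intro v s hv
    rcases G.mem_cup.1 hv with h1 | h1
    · exact lt_trans (hI.old v s h1) (Nat.lt_succ_self _)
    · rw [h1.1]
      exact Nat.lt_succ_self _
  · -- old'
    intro v s hv
    by_cases hc : s = r ∧ v ∈ G.ballE (G.unlab lab) r (h + 1)
    · rw [hc.1]
      exact Nat.lt_succ_self _
    · rw [G.layS_old hc] at hv
      exact lt_trans (hI.old' v s hv) (Nat.lt_succ_self _)
  · -- root
    intro v s hv h1
    by_cases hc : s = r ∧ v ∈ G.ballE (G.unlab lab) r (h + 1)
    · obtain ⟨h2, h3⟩ := hc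
      subst h2
      rw [hlay1 v h3] at h1
      have h4 : sInf {k | v ∈ G.ballE (G.unlab lab) s k} = 0 := by omega
      have h5 := (G.dist_props _ _ _ _ h3).1
      rw [h4] at h5
      exact Finset.mem_singleton.1 h5
    · rw [G.layS_old hc] at h1
      rcases G.mem_cup.1 hv with h2 | h2
      · exact hI.root v s h2 h1
      · exact absurd h2 hc
  · -- par
    intro v s hv
    by_cases hc : s = r ∧ v ∈ G.ballE (G.unlab lab) r (h + 1)
    · obtain ⟨h2, h3⟩ := hc
      subst h2
      rw [hlay1 v h3] at hv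
      obtain ⟨h4, h5, h6⟩ := G.dist_props _ _ _ _ h3
      obtain ⟨k, hk⟩ : ∃ k, sInf {k | v ∈ G.ballE (G.unlab lab) s k} = k + 1 :=
        ⟨sInf {k | v ∈ G.ballE (G.unlab lab) s k} - 1, by omega⟩
      rw [hk] at h4 h5 h6
      obtain ⟨i, hi, w, hw, hw1, hw2⟩ := G.distE_par _ _ _ _ h4 h5
      have hwh : w ∈ G.ballE (G.unlab lab) s h := G.ballE_mono _ s (by omega) hw1
      refine ⟨i, G.labS_new ((G.mem_unlab lab i).1 hi) ?_, w, hw, ?_⟩
      · rcases hw with hw | hw
        · right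
          rw [hw]
          exact hwh
        · left
          rw [hw]
          exact hwh
      · rw [hlay1 v h3, hlay1 w (hb1 hwh), hk, G.dist_eq _ _ _ _ hw1 hw2]
        ring
    · rw [G.layS_old hc] at hv ⊢
      obtain ⟨i, hi, w, hw, hl⟩ := hI.par v s hv
      have hsr : s ≠ r := by
        have h2 := hI.old' v s hv
        rintro rfl
        omega
      refine ⟨i, ?_, w, hw, ?_⟩
      · rw [G.labS_old (by omega), hi]
      · rw [G.layS_old fun h2 => hsr h2.1, hl]
  · -- uniq
    have key : ∀ v s, G.pr v s ∈ M → v ∉ G.ballE (G.unlab lab) r h := by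
      intro v s h1 h2
      by_cases hvr : v = r
      · rw [hvr] at h1
        exact hr s h1
      · obtain ⟨i, hi, hi'⟩ := G.ballE_edge _ _ _ _ h2 hvr
        exact hI.fin v s i h1 hi' ((G.mem_unlab lab i).1 hi)
    intro v s s' h1 h2
    rcases G.mem_mS_iff.1 h1 with h1 | h1
    · rcases G.mem_mS_iff.1 h2 with h2 | h2
      · exact hI.uniq v s s' h1 h2
      · exact absurd h2.2 (key v s h1)
    · rcases G.mem_mS_iff.1 h2 with h2 | h2
      · exact absurd h1.2 (key v s' h2)
      · rw [h1.1, h2.1]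
  · -- fin
    intro v s i h1 h2
    by_cases h0 : lab i = 0
    · rcases G.mem_mS_iff.1 h1 with h1 | h1
      · exact absurd h0 (hI.fin v s i h1 h2)
      · rw [G.labS_new h0]
        · exact Nat.succ_ne_zero _
        · rcases h2 with h2 | h2
          · left
            rw [h2]
            exact h1.2
          · right
            rw [h2]
            exact h1.2
    · rw [G.labS_old h0]
      exact h0
  · -- disj
    rw [Finset.disjoint_left]
    intro w hw hw'
    obtain ⟨v, s, rfl⟩ := G.exists_pr w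
    rcases G.mem_mS_iff.1 hw with h1 | h1
    · rcases G.mem_fS_iff.1 hw' with h2 | h2
      · exact Finset.disjoint_left.1 hI.disj h1 h2
      · have h3 := hI.old v s (Finset.mem_union_left _ h1)
        rw [h2.1] at h3
        exact lt_irrefl _ h3
    · rcases G.mem_fS_iff.1 hw' with h2 | h2
      · have h3 := hI.old v s (Finset.mem_union_right _ h2)
        rw [h1.1] at h3
        exact lt_irrefl _ h3
      · exact h2.2.2 h1.2
  · -- size
    have hinj : Function.Injective fun v : Fin G.n => G.pr v r := by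
      intro a b hab
      exact (G.pr_inj.1 hab).1
    have h1 : (G.mS lab M r h).card = M.card + (G.ballE (G.unlab lab) r h).card := by
      unfold mS
      rw [Finset.card_union_of_disjoint, Finset.card_image_of_injective _ hinj]
      rw [Finset.disjoint_left]
      intro w hw hw'
      obtain ⟨v, hv, rfl⟩ := Finset.mem_image.1 hw'
      exact lt_irrefl _ (hI.old v r (Finset.mem_union_left _ hw))
    have h2 : (G.fS lab F r h).card ≤ F.card +
        ((G.ballE (G.unlab lab) r (h + 1)).card - (G.ballE (G.unlab lab) r h).card) := by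
      unfold fS
      refine (Finset.card_union_le _ _).trans ?_
      rw [Finset.card_image_of_injective _ hinj, Finset.card_sdiff_of_subset hb1]
    calc (G.fS lab F r h).card * B ≤ (F.card +
          ((G.ballE (G.unlab lab) r (h + 1)).card - (G.ballE (G.unlab lab) r h).card)) * B :=
        Nat.mul_le_mul_right _ h2
      _ = F.card * B +
          ((G.ballE (G.unlab lab) r (h + 1)).card - (G.ballE (G.unlab lab) r h).card) * B := by
        rw [add_mul]
      _ ≤ L * M.card + L * (G.ballE (G.unlab lab) r h).card := Nat.add_le_add hI.size hc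
      _ = L * (G.mS lab M r h).card := by rw [h1, mul_add]

theorem mem_mS (lab : Fin G.m → ℕ) (M : Finset (Fin (G.n * G.n))) (r : Fin G.n) (h : ℕ) :
    G.pr r r ∈ G.mS lab M r h := by
  rw [G.mem_mS_iff]
  exact Or.inr ⟨rfl, G.mem_ballE_self _ r h⟩

/-- while there are no extra copies, the balls are balls of the graph -/
theorem InvE.diam {lab : Fin G.m → ℕ} {lay : Fin (G.n * G.n) → ℕ}
    {M : Finset (Fin (G.n * G.n))} {t R B L : ℕ} (hI : G.InvE lab lay M ∅ t R B L) (ht : t ≤ G.n)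
    (r : Fin G.n) (hr : ∀ s, G.pr r s ∉ M) (d : ℕ) (hd : G.DiamLe d) :
    G.ballE (G.unlab lab) r (d + 1) = G.ballE (G.unlab lab) r d := by
  classical
  refine G.ballE_diam (G.unlab lab) (univ.filter fun v => ∃ s, G.pr v s ∈ M) r ?_ ?_ d hd
  · rw [Finset.mem_filter]
    rintro ⟨-, s, hs⟩
    exact hr s hs
  · intro i
    simp only [Finset.mem_filter, Finset.mem_univ, true_and, G.mem_unlab]
    by_cases h0 : lab i = 0
    · left
      refine ⟨h0, ?_, ?_⟩
      · rintro ⟨s, hs⟩
        exact hI.fin _ s i hs (Or.inl rfl) h0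
      · rintro ⟨s, hs⟩
        exact hI.fin _ s i hs (Or.inr rfl) h0
    · right
      have h1 := hI.lab_le i
      obtain ⟨h2, h3⟩ := hI.act i ⟨lab i - 1, by omega⟩ (by simp only; omega)
      rw [Finset.union_empty] at h2 h3
      exact ⟨⟨_, h2⟩, ⟨_, h3⟩⟩

/-- at the end: every edge has a label, and the split graph has small components -/
theorem InvE.clu {lab : Fin G.m → ℕ} {lay : Fin (G.n * G.n) → ℕ}
    {M F : Finset (Fin (G.n * G.n))} {R B L : ℕ} (hI : G.InvE lab lay M F G.n R B L)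
    (hall : ∀ v, ∃ r, G.pr v r ∈ M) :
    ∃ (lab' : Fin G.m → Fin G.n) (ρ : Fin G.n → Fin G.n), (∀ i, lab i = lab' i + 1) ∧
      (∀ v r, G.pr v r ∈ M ↔ r = ρ v) ∧ (∀ v, G.pr v (ρ v) ∉ F) ∧
      (∀ i, (lab' i = ρ (G.e i).1 ∨ G.pr (G.e i).1 (lab' i) ∈ F) ∧
        (lab' i = ρ (G.e i).2 ∨ G.pr (G.e i).2 (lab' i) ∈ F)) ∧
      (G.spl lab').Clu lay ∅ R ∧ F.card * B ≤ L * G.n := by
  classical
  choose ρ hρ using hall
  have hne : ∀ i, lab i ≠ 0 := fun i => hI.fin _ _ i (hρ (G.e i).1) (Or.inl rfl)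
  have hlt : ∀ i, lab i - 1 < G.n := by
    intro i
    have h1 := hI.lab_le i
    have h2 := hne i
    omega
  have hlab : ∀ i, lab i = ((⟨lab i - 1, hlt i⟩ : Fin G.n) : ℕ) + 1 := by
    intro i
    have h2 := hne i
    simp only
    omega
  have hiff : ∀ v r, G.pr v r ∈ M ↔ r = ρ v := by
    intro v r
    constructor
    · intro h1
      exact hI.uniq v r (ρ v) h1 (hρ v)
    · intro h1
      rw [h1]
      exact hρ v
  refine ⟨fun i => ⟨lab i - 1, hlt i⟩, ρ, hlab, hiff, ?_, ?_, ?_, ?_⟩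
  · intro v hv
    exact Finset.disjoint_left.1 hI.disj (hρ v) hv
  · intro i
    obtain ⟨h1, h2⟩ := hI.act i ⟨lab i - 1, hlt i⟩ (hlab i)
    rw [Finset.mem_union, hiff] at h1 h2
    exact ⟨h1, h2⟩
  · refine ⟨hI.pos, hI.le, ?_, ?_⟩
    · intro w hw
      obtain ⟨v, r, rfl⟩ := G.exists_pr w
      obtain ⟨i, hi, a, ha, hl⟩ := hI.par v r hw
      refine ⟨i, Finset.notMem_empty _, G.pr a r, ?_, hl⟩
      have h1 : (⟨lab i - 1, hlt i⟩ : Fin G.n) = r := by
        apply Fin.ext
        simp only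
        omega
      have h2 : (G.spl fun i => ⟨lab i - 1, hlt i⟩).e i =
          (G.pr (G.e i).1 r, G.pr (G.e i).2 r) := by
        unfold spl
        simp only
        rw [h1]
      rw [h2]
      rcases ha with ha | ha
      · left
        simp only [ha]
        rfl
      · right
        simp only [ha]
        rfl
    · intro u v A _ hbd hu hv
      by_contra huv
      obtain ⟨a, r, rfl⟩ := G.exists_pr u
      obtain ⟨b, s, rfl⟩ := G.exists_pr v
      have hact : ∀ c t, (G.spl fun i => ⟨lab i - 1, hlt i⟩).bd A (G.pr c t) ≠ 0 →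
          G.pr c t ∈ M ∪ F := by
        intro c t hne0
        by_contra hcon
        refine hne0 (G.bd_spl_zero _ A c t fun i hi => ?_)
        obtain ⟨h1, h2⟩ := hI.act i t (by rw [← hi]; exact hlab i)
        constructor
        · intro h3
          rw [h3] at h1
          exact hcon h1
        · intro h3
          rw [h3] at h2
          exact hcon h2
      have h1 : a = r := by
        refine hI.root a r (hact a r ?_) hu
        rw [hbd, Pi.add_apply, Pi.single_eq_same, Pi.single_eq_of_ne huv, add_zero]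
        exact one_ne_zero
      have h2 : b = s := by
        refine hI.root b s (hact b s ?_) hv
        rw [hbd, Pi.add_apply, Pi.single_eq_same, Pi.single_eq_of_ne (Ne.symm huv), zero_add]
        exact one_ne_zero
      have h3 : s ≠ r := by
        intro h4
        apply huv
        rw [h1, h2, h4]
      have h4 := G.sum_bd_spl (fun i => ⟨lab i - 1, hlt i⟩) A r
      have h5 : ∀ x, (G.spl fun i => ⟨lab i - 1, hlt i⟩).bd A (G.pr x r) =
          (Pi.single (G.pr a r) 1 : Fin (G.n * G.n) → ZMod 2) (G.pr x r) +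
          (Pi.single (G.pr b s) 1 : Fin (G.n * G.n) → ZMod 2) (G.pr x r) :=
        fun x => congrFun hbd (G.pr x r)
      rw [Finset.sum_congr rfl fun x _ => h5 x, Finset.sum_add_distrib, G.sum_single_pr, G.sum_single_pr, if_pos rfl, if_neg h3,
        add_zero] at h4
      exact one_ne_zero h4
  · have h1 : M.card = G.n := by
      have h2 : M = univ.image fun v => G.pr v (ρ v) := by
        ext w
        obtain ⟨v, r, rfl⟩ := G.exists_pr w
        rw [hiff, Finset.mem_image]
        constructor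
        · intro h3
          exact ⟨v, Finset.mem_univ _, by rw [h3]⟩
        · rintro ⟨a, -, ha⟩
          obtain ⟨h3, h4⟩ := G.pr_inj.1 ha
          rw [← h4, h3]
      rw [h2, Finset.card_image_of_injective]
      · simp
      · intro a b hab
        exact (G.pr_inj.1 hab).1
    have h2 := hI.size
    rw [h1] at h2
    exact h2

end MGraph

end Pool.Agent.Lib.H2
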