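import Pool.Agent.Lib.MP_3493b8_lc.V.Alg
import Pool.Agent.Lib.MP_3493b8_lc.V.Inv
import Pool.Agent.Lib.MP_3493b8_lc.CluN1

/-! Meaning of the numeric functions for the balls of the second algorithm. -/

set_option autoImplicit false

open Finset

namespace Pool.Agent.Lib.H2

open Pool.Agent.Lib.PTC

namespace MGraph

variable (G : MGraph) (N : ℕ)

/-- the labels coded by a number -/
def labF (Lb : ℕ) (i : Fin G.m) : ℕ := labN (G.code N) Lb i

private theorem u1_vset (b : ℕ) (v : Fin G.n) : v ∈ G.vset b ↔ b.testBit v = true := by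
  unfold vset
  rw [mem_filter]
  exact ⟨fun h => h.2, fun h => ⟨mem_univ _, h⟩⟩

private theorem u1_unlab (Lb : ℕ) (i : Fin G.m) :
    i ∈ G.unlab (G.labF N Lb) ↔ labN (G.code N) Lb i = 0 := by
  unfold unlab labF
  rw [mem_filter]
  exact ⟨fun h => h.2, fun h => ⟨mem_univ _, h⟩⟩

private theorem u1_inj {a b : ℕ} (ha : a < 2 ^ G.n) (hb : b < 2 ^ G.n) (h : G.vset a = G.vset b) :
    a = b := by
  apply Nat.eq_of_testBit_eq
  intro i
  by_cases hi : i < G.n
  · have h1 : (a.testBit i = true) ↔ (b.testBit i = true) := by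
      rw [← G.u1_vset a ⟨i, hi⟩, ← G.u1_vset b ⟨i, hi⟩, h]
    exact Bool.eq_iff_iff.2 h1
  · have h2 : 2 ^ G.n ≤ 2 ^ i := Nat.pow_le_pow_right (by norm_num) (not_lt.1 hi)
    rw [Nat.testBit_lt_two_pow (lt_of_lt_of_le ha h2), Nat.testBit_lt_two_pow (lt_of_lt_of_le hb h2)]

theorem growU_code (Lb b : ℕ) :
    G.vset (growU (G.code N) Lb b) = G.growE (G.unlab (G.labF N Lb)) (G.vset b) := by
  ext v
  rw [u1_vset]
  unfold growU growE
  rw [testBit_sum, decide_eq_true_iff, mem_filter, u1_vset, nn_code, mm_code]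
  constructor
  · rintro ⟨-, h | ⟨i, hi, h1, h2⟩⟩
    · exact ⟨mem_univ _, Or.inl h⟩
    · refine ⟨mem_univ _, Or.inr ⟨⟨i, hi⟩, (G.u1_unlab N Lb ⟨i, hi⟩).2 h1, ?_⟩⟩
      have e1 := G.eu_code N ⟨i, hi⟩
      have e2 := G.ev_code N ⟨i, hi⟩
      simp only at e1 e2
      rw [e1, e2] at h2
      rcases h2 with ⟨h2, h3⟩ | ⟨h2, h3⟩
      · exact Or.inl ⟨Fin.ext h2, (G.u1_vset b _).2 h3⟩
      · exact Or.inr ⟨Fin.ext h2, (G.u1_vset b _).2 h3⟩
  · rintro ⟨-, h | ⟨i, h1, h2⟩⟩
    · exact ⟨v.isLt, Or.inl h⟩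
    · refine ⟨v.isLt, Or.inr ⟨i.val, i.isLt, (G.u1_unlab N Lb i).1 h1, ?_⟩⟩
      rw [G.eu_code N i, G.ev_code N i]
      rcases h2 with ⟨h2, h3⟩ | ⟨h2, h3⟩
      · exact Or.inl ⟨congrArg Fin.val h2, (G.u1_vset b _).1 h3⟩
      · exact Or.inr ⟨congrArg Fin.val h2, (G.u1_vset b _).1 h3⟩

theorem ballU_code (Lb : ℕ) (r : Fin G.n) (h : ℕ) :
    G.vset (ballU (G.code N) Lb r h) = G.ballE (G.unlab (G.labF N Lb)) r h := by
  induction h with
  | zero =>
    ext v
    rw [u1_vset]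
    have e1 : ballU (G.code N) Lb r 0 = 2 ^ (r : ℕ) := rfl
    have e2 : G.ballE (G.unlab (G.labF N Lb)) r 0 = {r} := rfl
    rw [e1, e2, Nat.testBit_two_pow, decide_eq_true_iff, mem_singleton, Fin.ext_iff]
    exact eq_comm
  | succ h ih =>
    have e1 : ballU (G.code N) Lb r (h + 1) =
        growU (G.code N) Lb (ballU (G.code N) Lb r h) := rfl
    have e2 : G.ballE (G.unlab (G.labF N Lb)) r (h + 1) =
        G.growE (G.unlab (G.labF N Lb)) (G.ballE (G.unlab (G.labF N Lb)) r h) := rfl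
    rw [e1, e2, growU_code, ih]

theorem ballU_testBit (Lb : ℕ) (r v : Fin G.n) (h : ℕ) :
    (ballU (G.code N) Lb r h).testBit v = true ↔ v ∈ G.ballE (G.unlab (G.labF N Lb)) r h := by
  rw [← ballU_code, u1_vset]

theorem ballU_lt (Lb : ℕ) (r : Fin G.n) (h : ℕ) : ballU (G.code N) Lb r h < 2 ^ G.n := by
  cases h with
  | zero =>
    have e1 : ballU (G.code N) Lb r 0 = 2 ^ (r : ℕ) := rfl
    rw [e1]
    exact Nat.pow_lt_pow_right (by norm_num) r.isLt
  | succ h =>
    have e1 : ballU (G.code N) Lb r (h + 1) =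
        growU (G.code N) Lb (ballU (G.code N) Lb r h) := rfl
    rw [e1]
    unfold growU
    rw [nn_code]
    exact sum_two_pow_lt _ _

theorem ballU_eq_iff (Lb : ℕ) (r : Fin G.n) (h k : ℕ) :
    ballU (G.code N) Lb r h = ballU (G.code N) Lb r k ↔
      G.ballE (G.unlab (G.labF N Lb)) r h = G.ballE (G.unlab (G.labF N Lb)) r k := by
  rw [← ballU_code, ← ballU_code]
  exact ⟨fun h1 => by rw [h1], G.u1_inj (G.ballU_lt N Lb r h) (G.ballU_lt N Lb r k)⟩

theorem cardU_code (b : ℕ) : cardU (G.code N) b = (G.vset b).card := by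
  classical
  unfold cardU
  rw [nn_code, sum_range, ← card_filter]
  rfl

/-- the radius of the next cluster -/
theorem radU_spec (B L Lb : ℕ) (r : Fin G.n)
    (h : ∃ k ≤ B, ((G.ballE (G.unlab (G.labF N Lb)) r (k + 1)).card -
      (G.ballE (G.unlab (G.labF N Lb)) r k).card) * B ≤
      L * (G.ballE (G.unlab (G.labF N Lb)) r k).card) :
    radU (G.code N) B L Lb r ≤ B ∧
      ((G.ballE (G.unlab (G.labF N Lb)) r (radU (G.code N) B L Lb r + 1)).card -
      (G.ballE (G.unlab (G.labF N Lb)) r (radU (G.code N) B L Lb r)).card) * B ≤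
      L * (G.ballE (G.unlab (G.labF N Lb)) r (radU (G.code N) B L Lb r)).card := by
  unfold radU
  by_cases h1 : srch (fun h => ballU (G.code N) Lb r (h + 1) = ballU (G.code N) Lb r h) (B + 1) ≤ B
  · rw [if_pos h1]
    refine ⟨h1, ?_⟩
    have h2 : ∃ i < B + 1, ballU (G.code N) Lb r (i + 1) = ballU (G.code N) Lb r i := by
      by_contra h3
      simp only [not_exists, not_and] at h3
      have h4 := srch_none (fun h => ballU (G.code N) Lb r (h + 1) = ballU (G.code N) Lb r h)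
        (B + 1) h3
      omega
    have h3 := (srch_lt (fun h => ballU (G.code N) Lb r (h + 1) = ballU (G.code N) Lb r h)
      (B + 1) h2).2
    beta_reduce at h3
    rw [ballU_eq_iff] at h3
    rw [h3, Nat.sub_self, zero_mul]
    exact Nat.zero_le _
  · rw [if_neg h1]
    obtain ⟨k, hk, hk1⟩ := h
    have h2 : ∃ i < B + 1, (cardU (G.code N) (ballU (G.code N) Lb r (i + 1)) -
        cardU (G.code N) (ballU (G.code N) Lb r i)) * B ≤
        L * cardU (G.code N) (ballU (G.code N) Lb r i) := by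
      refine ⟨k, by omega, ?_⟩
      rw [cardU_code, cardU_code, ballU_code, ballU_code]
      exact hk1
    obtain ⟨h3, h4⟩ := srch_lt (fun h => (cardU (G.code N) (ballU (G.code N) Lb r (h + 1)) -
        cardU (G.code N) (ballU (G.code N) Lb r h)) * B ≤
        L * cardU (G.code N) (ballU (G.code N) Lb r h)) (B + 1) h2
    refine ⟨by omega, ?_⟩
    rw [cardU_code, cardU_code, ballU_code, ballU_code] at h4
    exact h4

/-- if the component is exhausted in time, there are no extra copies -/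
theorem radU_cut (B L Lb : ℕ) (r : Fin G.n) (k : ℕ) (hk : k ≤ B)
    (h : G.ballE (G.unlab (G.labF N Lb)) r (k + 1) = G.ballE (G.unlab (G.labF N Lb)) r k) :
    radU (G.code N) B L Lb r ≤ k ∧
      G.ballE (G.unlab (G.labF N Lb)) r (radU (G.code N) B L Lb r + 1) =
        G.ballE (G.unlab (G.labF N Lb)) r (radU (G.code N) B L Lb r) := by
  have h1 : ballU (G.code N) Lb r (k + 1) = ballU (G.code N) Lb r k :=
    (G.ballU_eq_iff N Lb r (k + 1) k).2 h
  obtain ⟨h2, h3⟩ := srch_lt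
    (fun h => ballU (G.code N) Lb r (h + 1) = ballU (G.code N) Lb r h) (B + 1) ⟨k, by omega, h1⟩
  have h4 : srch (fun h => ballU (G.code N) Lb r (h + 1) = ballU (G.code N) Lb r h) (B + 1) ≤ k := by
    by_contra h5
    exact srch_min (fun h => ballU (G.code N) Lb r (h + 1) = ballU (G.code N) Lb r h) (B + 1) k
      (not_le.1 h5) h1
  unfold radU
  rw [if_pos (by omega)]
  exact ⟨h4, (G.ballU_eq_iff N Lb r _ _).1 h3⟩

end MGraph

end Pool.Agent.Lib.H2
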