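import Pool.Agent.Lib.MP_3493b8_lc.V.Num1

/-! Meaning of one step of the vertex splitting. -/

set_option autoImplicit false

open Finset

namespace Pool.Agent.Lib.H2

open Pool.Agent.Lib.PTC

private theorem add_digits (b K n X : ℕ) (hX : X < b ^ K) (P : ℕ → Prop) [DecidablePred P]
    (c pos : ℕ → ℕ) (hpos : ∀ v < n, pos v < K)
    (hb : ∀ k < K, X / b ^ k % b + (∑ v ∈ range n, if P v ∧ pos v = k then c v else 0) < b) :
    (∀ k < K, (X + ∑ v ∈ range n, if P v then c v * b ^ pos v else 0) / b ^ k % b =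
      X / b ^ k % b + ∑ v ∈ range n, if P v ∧ pos v = k then c v else 0) ∧
    (X + ∑ v ∈ range n, if P v then c v * b ^ pos v else 0) < b ^ K := by
  have e1 : (∑ k ∈ range K, (∑ v ∈ range n, if P v ∧ pos v = k then c v else 0) * b ^ k) =
      ∑ v ∈ range n, if P v then c v * b ^ pos v else 0 := by
    simp only [sum_mul]
    rw [sum_comm]
    refine sum_congr rfl fun v hv => ?_
    rw [sum_eq_single (pos v)]
    · by_cases h : P v
      · rw [if_pos ⟨h, rfl⟩, if_pos h]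
      · rw [if_neg (fun h' => h h'.1), if_neg h, zero_mul]
    · intro k _ hk
      rw [if_neg (fun h' => hk h'.2.symm), zero_mul]
    · intro h
      exact absurd (mem_range.2 (hpos v (mem_range.1 hv))) h
  have e2 : (X + ∑ v ∈ range n, if P v then c v * b ^ pos v else 0) =
      ∑ k ∈ range K, (X / b ^ k % b + ∑ v ∈ range n, if P v ∧ pos v = k then c v else 0) *
        b ^ k := by
    simp only [add_mul, sum_add_distrib]
    rw [e1, sum_digit b K X hX]
  rw [e2]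
  exact ⟨fun k hk => digit_sum b K _ hb k hk, digit_sum_lt b K _ hb⟩

private theorem pos_iff {n r v' r' v : ℕ} (hr : r < n) (hr' : r' < n) :
    v * n + r = v' * n + r' ↔ v = v' ∧ r = r' := by
  constructor
  · intro h
    have h1 : (v * n + r) / n = v := by
      rw [mul_comm, Nat.mul_add_div (by omega), Nat.div_eq_of_lt hr, add_zero]
    have h2 : (v' * n + r') / n = v' := by
      rw [mul_comm, Nat.mul_add_div (by omega), Nat.div_eq_of_lt hr', add_zero]
    have h3 : v = v' := by rw [← h1, h, h2]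
    subst h3
    exact ⟨rfl, by omega⟩
  · rintro ⟨rfl, rfl⟩
    rfl

private theorem sum_pos' (n r v' r' : ℕ) (hr : r < n) (hr' : r' < n) (hv' : v' < n)
    (P : ℕ → Prop) [DecidablePred P] (c : ℕ → ℕ) :
    (∑ v ∈ range n, if P v ∧ v * n + r = v' * n + r' then c v else 0) =
      if r' = r ∧ P v' then c v' else 0 := by
  rw [sum_eq_single v']
  · by_cases h : P v'
    · by_cases h1 : r' = r
      · subst h1
        rw [if_pos ⟨h, rfl⟩, if_pos ⟨rfl, h⟩]
      · rw [if_neg (fun h2 => h1 ((pos_iff hr hr').1 h2.2).2.symm), if_neg (fun h2 => h1 h2.1)]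
    · rw [if_neg (fun h2 => h h2.1), if_neg (fun h2 => h h2.2)]
  · intro v _ hv
    rw [if_neg (fun h2 => hv ((pos_iff hr hr').1 h2.2).1)]
  · intro h
    exact absurd (mem_range.2 hv') h

private theorem tb_digit (M k : ℕ) : M.testBit k = true ↔ M / 2 ^ k % 2 = 1 := by
  rw [Nat.testBit_eq_decide_div_mod_eq, decide_eq_true_iff]

namespace MGraph

variable (G : MGraph) (N : ℕ)

/-- the layers coded by a number -/
def layF (Ly : ℕ) (w : Fin (G.n * G.n)) : ℕ :=
  Ly / (G.n * G.n + 2) ^ (w : ℕ) % (G.n * G.n + 2)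

/-- the set of copies coded by a mask -/
def pset (M : ℕ) : Finset (Fin (G.n * G.n)) := univ.filter fun w => M.testBit w = true

private theorem mem_pset (M : ℕ) (w : Fin (G.n * G.n)) : w ∈ G.pset M ↔ M.testBit w = true := by
  unfold pset
  rw [mem_filter]
  exact ⟨fun h => h.2, fun h => ⟨mem_univ _, h⟩⟩

theorem finU_code (M : ℕ) (v : Fin G.n) :
    FinU (G.code N) M v ↔ ∃ s, G.pr v s ∈ G.pset M := by
  unfold FinU
  rw [nn_code]
  constructor
  · rintro ⟨s, hs, h⟩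
    refine ⟨⟨s, hs⟩, ?_⟩
    rw [mem_pset, pr_val]
    exact h
  · rintro ⟨s, h⟩
    rw [mem_pset, pr_val] at h
    exact ⟨s, s.isLt, h⟩

theorem nLab_code (Lb : ℕ) (r : Fin G.n) (h : ℕ) (h1 : Lb < (G.n + 1) ^ G.m) :
    G.labF N (nLab (G.code N) Lb r h) = G.labS (G.labF N Lb) r h ∧
      nLab (G.code N) Lb r h < (G.n + 1) ^ G.m := by
  classical
  obtain ⟨P, hP⟩ : ∃ P : ℕ → Prop, P = fun i => labN (G.code N) Lb i = 0 ∧
      ((ballU (G.code N) Lb r h).testBit (eu (G.code N) i) = true ∨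
      (ballU (G.code N) Lb r h).testBit (ev (G.code N) i) = true) := ⟨_, rfl⟩
  have hs : ∀ k < G.m, (∑ v ∈ range G.m, if P v ∧ v = k then (r : ℕ) + 1 else 0) =
      if P k then (r : ℕ) + 1 else 0 := by
    intro k hk
    rw [sum_eq_single k]
    · by_cases h2 : P k
      · rw [if_pos ⟨h2, rfl⟩, if_pos h2]
      · rw [if_neg (fun h3 => h2 h3.1), if_neg h2]
    · intro v _ hv
      rw [if_neg (fun h3 => hv h3.2)]
    · intro h2
      exact absurd (mem_range.2 hk) h2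
  have hdig : ∀ k, P k → Lb / (G.n + 1) ^ k % (G.n + 1) = 0 := by
    intro k hk
    rw [hP] at hk
    exact hk.1
  obtain ⟨h2, h3⟩ := add_digits (G.n + 1) G.m G.m Lb h1 P (fun _ => (r : ℕ) + 1) (fun i => i)
    (fun v hv => hv) (by
      intro k hk
      rw [hs k hk]
      by_cases h4 : P k
      · rw [if_pos h4, hdig k h4]
        have := r.isLt
        omega
      · rw [if_neg h4, add_zero]
        exact Nat.mod_lt _ (Nat.succ_pos _))
  have e : nLab (G.code N) Lb r h =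
      Lb + ∑ v ∈ range G.m, if P v then ((r : ℕ) + 1) * (G.n + 1) ^ v else 0 := by
    unfold nLab
    rw [mm_code, nn_code]
    congr 1
    refine sum_congr rfl fun v _ => ?_
    have hv : P v ↔ (labN (G.code N) Lb v = 0 ∧
      ((ballU (G.code N) Lb r h).testBit (eu (G.code N) v) = true ∨
      (ballU (G.code N) Lb r h).testBit (ev (G.code N) v) = true)) := by rw [hP]
    by_cases hq : P v
    · rw [if_pos hq, if_pos (hv.1 hq)]
    · rw [if_neg hq, if_neg (fun hq' => hq (hv.2 hq'))]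
  rw [e]
  refine ⟨?_, h3⟩
  funext i
  have h4 := h2 i i.isLt
  rw [hs i i.isLt] at h4
  have h5 : G.labF N (Lb + ∑ v ∈ range G.m, if P v then ((r : ℕ) + 1) * (G.n + 1) ^ v else 0) i =
      Lb / (G.n + 1) ^ (i : ℕ) % (G.n + 1) + if P i then (r : ℕ) + 1 else 0 := h4
  rw [h5]
  have h6 : P i ↔ (G.labF N Lb i = 0 ∧ ((G.e i).1 ∈ G.ballE (G.unlab (G.labF N Lb)) r h ∨
      (G.e i).2 ∈ G.ballE (G.unlab (G.labF N Lb)) r h)) := by
    rw [hP]
    simp only
    rw [eu_code, ev_code, ballU_testBit, ballU_testBit]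
    rfl
  unfold labS
  by_cases h7 : P i
  · rw [if_pos h7, if_pos (h6.1 h7), hdig _ h7, zero_add]
  · rw [if_neg h7, if_neg (fun h8 => h7 (h6.2 h8)), add_zero]
    rfl

/-- the layer found by the search -/
private theorem srchE (Lb h : ℕ) (r v : Fin G.n)
    (hv : v ∈ G.ballE (G.unlab (G.labF N Lb)) r (h + 1)) :
    srch (fun k => (ballU (G.code N) Lb r k).testBit v = true) (h + 2) < G.n ∧
      sInf {k | v ∈ G.ballE (G.unlab (G.labF N Lb)) r k} =
        srch (fun k => (ballU (G.code N) Lb r k).testBit v = true) (h + 2) := by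
  obtain ⟨s, hs⟩ : ∃ s, s = srch (fun k => (ballU (G.code N) Lb r k).testBit v = true) (h + 2) :=
    ⟨_, rfl⟩
  have h1 := srch_lt (fun k => (ballU (G.code N) Lb r k).testBit v = true) (h + 2)
    ⟨h + 1, by omega, (G.ballU_testBit N Lb r v (h + 1)).2 hv⟩
  have h2 := srch_min (fun k => (ballU (G.code N) Lb r k).testBit v = true) (h + 2)
  rw [← hs] at h1 h2 ⊢
  have h3 : v ∈ G.ballE (G.unlab (G.labF N Lb)) r s := (G.ballU_testBit N Lb r v s).1 h1.2
  have h4 : ∀ k < s, v ∉ G.ballE (G.unlab (G.labF N Lb)) r k := fun k hk hvk =>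
    h2 k hk ((G.ballU_testBit N Lb r v k).2 hvk)
  refine ⟨G.distE_lt _ r v s h3 h4, ?_⟩
  refine IsLeast.csInf_eq ⟨h3, fun k hk => ?_⟩
  by_contra hlt
  exact h4 k (not_le.1 hlt) hk

private theorem pos_lt (v : ℕ) (hv : v < G.n) (r : Fin G.n) : v * G.n + r < G.n * G.n := by
  have h1 := (G.pr ⟨v, hv⟩ r).isLt
  rw [pr_val] at h1
  exact h1

theorem nLay_code (Lb Ly : ℕ) (r : Fin G.n) (h : ℕ)
    (h1 : Ly < (G.n * G.n + 2) ^ (G.n * G.n)) (h2 : ∀ v, G.layF Ly (G.pr v r) = 1) :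
    G.layF (nLay (G.code N) Lb Ly r h) = G.layS (G.labF N Lb) (G.layF Ly) r h ∧
      nLay (G.code N) Lb Ly r h < (G.n * G.n + 2) ^ (G.n * G.n) := by
  classical
  obtain ⟨P, hP⟩ : ∃ P : ℕ → Prop, P = fun v =>
      (ballU (G.code N) Lb r (h + 1)).testBit v = true := ⟨_, rfl⟩
  obtain ⟨c, hc⟩ : ∃ c : ℕ → ℕ, c = fun v =>
      srch (fun k => (ballU (G.code N) Lb r k).testBit v = true) (h + 2) := ⟨_, rfl⟩
  have hPv : ∀ v : Fin G.n, P v ↔ v ∈ G.ballE (G.unlab (G.labF N Lb)) r (h + 1) := by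
    intro v
    rw [hP]
    exact G.ballU_testBit N Lb r v (h + 1)
  have hcv : ∀ v : Fin G.n, P v → c v < G.n ∧
      sInf {k | v ∈ G.ballE (G.unlab (G.labF N Lb)) r k} = c v := by
    intro v hv
    rw [hc]
    exact G.srchE N Lb h r v ((hPv v).1 hv)
  have hs : ∀ v s : Fin G.n, (∑ u ∈ range G.n, if P u ∧ u * G.n + r = (G.pr v s : ℕ) then c u
      else 0) = if s = r ∧ P v then c v else 0 := by
    intro v s
    rw [pr_val, sum_pos' G.n r v s r.isLt s.isLt v.isLt P c]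
    simp only [Fin.ext_iff]
  obtain ⟨h3, h4⟩ := add_digits (G.n * G.n + 2) (G.n * G.n) G.n Ly h1 P c
    (fun v => v * G.n + r) (fun v hv => G.pos_lt v hv r) (by
      intro k hk
      obtain ⟨v, s, hvs⟩ := G.exists_pr ⟨k, hk⟩
      have hk' : k = (G.pr v s : ℕ) := congrArg Fin.val hvs
      rw [hk', hs v s]
      by_cases h5 : s = r ∧ P v
      · rw [if_pos h5]
        have h6 := (hcv v h5.2).1
        have h7 : Ly / (G.n * G.n + 2) ^ (G.pr v s : ℕ) % (G.n * G.n + 2) = 1 := by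
          rw [h5.1]
          exact h2 v
        rw [h7]
        have : G.n ≤ G.n * G.n := Nat.le_mul_self G.n
        omega
      · rw [if_neg h5, add_zero]
        exact Nat.mod_lt _ (by omega))
  have e : nLay (G.code N) Lb Ly r h =
      Ly + ∑ v ∈ range G.n, if P v then c v * (G.n * G.n + 2) ^ (v * G.n + r) else 0 := by
    rw [hc]
    unfold nLay
    rw [nn_code]
    congr 1
    refine sum_congr rfl fun v _ => ?_
    have hv : P v ↔ (ballU (G.code N) Lb r (h + 1)).testBit v = true := by rw [hP]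
    by_cases hq : P v
    · rw [if_pos hq, if_pos (hv.1 hq)]
    · rw [if_neg hq, if_neg (fun hq' => hq (hv.2 hq'))]
  rw [e]
  refine ⟨?_, h4⟩
  funext w
  obtain ⟨v, s, rfl⟩ := G.exists_pr w
  have h5 := h3 (G.pr v s) (G.pr v s).isLt
  rw [hs v s] at h5
  have h6 : G.layF (Ly + ∑ v ∈ range G.n, if P v then c v * (G.n * G.n + 2) ^ (v * G.n + r)
      else 0) (G.pr v s) = G.layF Ly (G.pr v s) + if s = r ∧ P v then c v else 0 := h5
  rw [h6]
  have h7 : finProdFinEquiv.symm (G.pr v s) = (v, s) := by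
    unfold pr
    exact Equiv.symm_apply_apply _ _
  unfold layS
  rw [h7]
  simp only
  by_cases h8 : s = r ∧ P v
  · rw [if_pos h8, if_pos ⟨by rw [h8.1], (hPv v).1 h8.2⟩, (hcv v h8.2).2, h8.1, h2 v]
  · rw [if_neg h8, if_neg (fun h9 => h8 ⟨(G.pr_inj.1 h9.1).2, (hPv v).2 h9.2⟩), add_zero]

private theorem mask_step (M : ℕ) (r : Fin G.n) (h1 : M < 2 ^ (G.n * G.n))
    (h2 : ∀ v, G.pr v r ∉ G.pset M) (P : ℕ → Prop) [DecidablePred P] :
    (∀ v s : Fin G.n, G.pr v s ∈ G.pset (M + ∑ v ∈ range G.n, if P v then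
      2 ^ (v * G.n + (r : ℕ)) else 0) ↔ G.pr v s ∈ G.pset M ∨ (s = r ∧ P v)) ∧
    (M + ∑ v ∈ range G.n, if P v then 2 ^ (v * G.n + (r : ℕ)) else 0) < 2 ^ (G.n * G.n) := by
  have hs : ∀ v s : Fin G.n, (∑ u ∈ range G.n, if P u ∧ u * G.n + r = (G.pr v s : ℕ) then 1
      else 0) = if s = r ∧ P v then 1 else 0 := by
    intro v s
    rw [pr_val, sum_pos' G.n r v s r.isLt s.isLt v.isLt P (fun _ => 1)]
    simp only [Fin.ext_iff]
  have h0 : ∀ v : Fin G.n, M / 2 ^ (G.pr v r : ℕ) % 2 = 0 := by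
    intro v
    have h3 := h2 v
    rw [mem_pset, tb_digit] at h3
    omega
  obtain ⟨h3, h4⟩ := add_digits 2 (G.n * G.n) G.n M h1 P (fun _ => 1)
    (fun v => v * G.n + r) (fun v hv => G.pos_lt v hv r) (by
      intro k hk
      obtain ⟨v, s, hvs⟩ := G.exists_pr ⟨k, hk⟩
      have hk' : k = (G.pr v s : ℕ) := congrArg Fin.val hvs
      rw [hk', hs v s]
      by_cases h5 : s = r ∧ P v
      · rw [if_pos h5, h5.1, h0 v]
        norm_num
      · rw [if_neg h5, add_zero]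
        exact Nat.mod_lt _ (by omega))
  simp only [one_mul] at h3 h4
  refine ⟨fun v s => ?_, h4⟩
  have h5 := h3 (G.pr v s) (G.pr v s).isLt
  rw [hs v s] at h5
  rw [mem_pset, mem_pset, tb_digit, tb_digit, h5]
  by_cases h6 : s = r ∧ P v
  · rw [if_pos h6, h6.1, h0 v]
    simp [h6.2]
  · rw [if_neg h6, add_zero]
    tauto

theorem nM_code (Lb M : ℕ) (r : Fin G.n) (h : ℕ) (h1 : M < 2 ^ (G.n * G.n))
    (h2 : ∀ v, G.pr v r ∉ G.pset M) :
    G.pset (nM (G.code N) Lb M r h) = G.mS (G.labF N Lb) (G.pset M) r h ∧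
      nM (G.code N) Lb M r h < 2 ^ (G.n * G.n) := by
  obtain ⟨h3, h4⟩ := G.mask_step M r h1 h2 (fun v => (ballU (G.code N) Lb r h).testBit v = true)
  refine ⟨?_, h4⟩
  ext w
  obtain ⟨v, s, rfl⟩ := G.exists_pr w
  refine (h3 v s).trans ?_
  unfold mS
  rw [mem_union, mem_image, ballU_testBit]
  constructor
  · rintro (h5 | ⟨rfl, h5⟩)
    · exact Or.inl h5
    · exact Or.inr ⟨v, h5, rfl⟩
  · rintro (h5 | ⟨a, ha, h5⟩)
    · exact Or.inl h5
    · obtain ⟨rfl, rfl⟩ := G.pr_inj.1 h5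
      exact Or.inr ⟨rfl, ha⟩

theorem nF_code (Lb F : ℕ) (r : Fin G.n) (h : ℕ) (h1 : F < 2 ^ (G.n * G.n))
    (h2 : ∀ v, G.pr v r ∉ G.pset F) :
    G.pset (nF (G.code N) Lb F r h) = G.fS (G.labF N Lb) (G.pset F) r h ∧
      nF (G.code N) Lb F r h < 2 ^ (G.n * G.n) := by
  obtain ⟨h3, h4⟩ := G.mask_step F r h1 h2 (fun v =>
    (ballU (G.code N) Lb r (h + 1)).testBit v = true ∧
    (ballU (G.code N) Lb r h).testBit v = false)
  refine ⟨?_, h4⟩
  ext w
  obtain ⟨v, s, rfl⟩ := G.exists_pr w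
  refine (h3 v s).trans ?_
  unfold fS
  rw [mem_union, mem_image, ballU_testBit, ← Bool.not_eq_true, ballU_testBit]
  constructor
  · rintro (h5 | ⟨rfl, h5⟩)
    · exact Or.inl h5
    · exact Or.inr ⟨v, mem_sdiff.2 h5, rfl⟩
  · rintro (h5 | ⟨a, ha, h5⟩)
    · exact Or.inl h5
    · obtain ⟨rfl, rfl⟩ := G.pr_inj.1 h5
      exact Or.inr ⟨rfl, mem_sdiff.1 ha⟩

end MGraph

end Pool.Agent.Lib.H2
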