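import Pool.Agent.Lib.MP_3493b8_lc.V.Num2

/-! The numeric vertex splitting. -/

set_option autoImplicit false

open Finset

namespace Pool.Agent.Lib.H2

open Pool.Agent.Lib.PTC

namespace MGraph

variable (G : MGraph) (N : ℕ)

private theorem u3_mem (M : ℕ) (w : Fin (G.n * G.n)) : w ∈ G.pset M ↔ M.testBit w = true := by
  unfold pset
  rw [mem_filter]
  exact ⟨fun h => h.2, fun h => ⟨mem_univ _, h⟩⟩

private theorem u3_zero : G.pset 0 = ∅ := by
  unfold pset
  refine Finset.filter_eq_empty_iff.2 fun i _ => ?_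
  rw [Nat.zero_testBit]
  exact Bool.false_ne_true

private theorem u3_inj {M : ℕ} (hM : M < 2 ^ (G.n * G.n)) (h : G.pset M = ∅) : M = 0 := by
  apply Nat.eq_of_testBit_eq
  intro i
  rw [Nat.zero_testBit]
  by_cases hi : i < G.n * G.n
  · have h1 : (⟨i, hi⟩ : Fin (G.n * G.n)) ∉ G.pset M := by
      rw [h]
      exact Finset.notMem_empty _
    rw [u3_mem] at h1
    exact Bool.eq_false_iff.2 h1
  · exact Nat.testBit_lt_two_pow (lt_of_lt_of_le hM
      (Nat.pow_le_pow_right (by norm_num) (not_lt.1 hi)))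

private theorem u3_lab0 : G.labF N 0 = fun _ => 0 := by
  funext v
  unfold labF labN
  rw [Nat.zero_div, Nat.zero_mod]

private theorem u3_lay0 : G.layF (∑ w ∈ range (G.n * G.n), (G.n * G.n + 2) ^ w) = fun _ => 1 := by
  funext w
  unfold layF
  have h := digit_sum (G.n * G.n + 2) (G.n * G.n) (fun _ => 1) (fun _ _ => by omega) w w.isLt
  simp only [one_mul] at h
  exact h

private theorem u3_lay0_lt : (∑ w ∈ range (G.n * G.n), (G.n * G.n + 2) ^ w) <
    (G.n * G.n + 2) ^ (G.n * G.n) := by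
  have h := digit_sum_lt (G.n * G.n + 2) (G.n * G.n) (fun _ => 1) (fun _ _ => by omega)
  simp only [one_mul] at h
  exact h

private theorem u3_step (c : ℕ × ℕ × ℕ × ℕ) (r : Fin G.n) {R B L : ℕ}
    (h1 : G.InvE (G.labF N c.1) (G.layF c.2.1) (G.pset c.2.2.1) (G.pset c.2.2.2) r R B L)
    (h3 : c.1 < (G.n + 1) ^ G.m) (h4 : c.2.1 < (G.n * G.n + 2) ^ (G.n * G.n))
    (h5 : c.2.2.1 < 2 ^ (G.n * G.n)) (h6 : c.2.2.2 < 2 ^ (G.n * G.n)) (ρ : ℕ) :
    (G.labF N (nLab (G.code N) c.1 r ρ) = G.labS (G.labF N c.1) r ρ ∧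
      G.layF (nLay (G.code N) c.1 c.2.1 r ρ) = G.layS (G.labF N c.1) (G.layF c.2.1) r ρ ∧
      G.pset (nM (G.code N) c.1 c.2.2.1 r ρ) = G.mS (G.labF N c.1) (G.pset c.2.2.1) r ρ ∧
      G.pset (nF (G.code N) c.1 c.2.2.2 r ρ) = G.fS (G.labF N c.1) (G.pset c.2.2.2) r ρ) ∧
    (nLab (G.code N) c.1 r ρ < (G.n + 1) ^ G.m ∧
      nLay (G.code N) c.1 c.2.1 r ρ < (G.n * G.n + 2) ^ (G.n * G.n) ∧
      nM (G.code N) c.1 c.2.2.1 r ρ < 2 ^ (G.n * G.n) ∧
      nF (G.code N) c.1 c.2.2.2 r ρ < 2 ^ (G.n * G.n)) := by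
  have k1 := G.nLab_code N c.1 r ρ h3
  have k2 := G.nLay_code N c.1 c.2.1 r ρ h4 (fun v => by
    have h7 := h1.pos (G.pr v r)
    have h8 : ¬ 2 ≤ G.layF c.2.1 (G.pr v r) := fun h8 => lt_irrefl _ (h1.old' v r h8)
    omega)
  have k3 := G.nM_code N c.1 c.2.2.1 r ρ h5 (fun v hv =>
    lt_irrefl _ (h1.old v r (Finset.mem_union_left _ hv)))
  have k4 := G.nF_code N c.1 c.2.2.2 r ρ h6 (fun v hv =>
    lt_irrefl _ (h1.old v r (Finset.mem_union_right _ hv)))
  exact ⟨⟨k1.1, k2.1, k3.1, k4.1⟩, ⟨k1.2, k2.2, k3.2, k4.2⟩⟩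

/-- The numeric vertex splitting satisfies the invariant. -/
theorem splU_inv (B L : ℕ) (hL : L ≤ B) (hn : G.n < 2 ^ L) :
    G.InvE (G.labF N (splU (G.code N) B L).1) (G.layF (splU (G.code N) B L).2.1)
      (G.pset (splU (G.code N) B L).2.2.1) (G.pset (splU (G.code N) B L).2.2.2)
      G.n (B + 1) B L ∧
    (∀ v, ∃ s, G.pr v s ∈ G.pset (splU (G.code N) B L).2.2.1) ∧
    (splU (G.code N) B L).1 < (G.n + 1) ^ G.m ∧
    (splU (G.code N) B L).2.1 < (G.n * G.n + 2) ^ (G.n * G.n) ∧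
    (splU (G.code N) B L).2.2.1 < 2 ^ (G.n * G.n) ∧
    (splU (G.code N) B L).2.2.2 < 2 ^ (G.n * G.n) := by
  obtain ⟨P, hP⟩ : ∃ P : ℕ → ℕ × ℕ × ℕ × ℕ → Prop, ∀ t c, P t c ↔
      (G.InvE (G.labF N c.1) (G.layF c.2.1) (G.pset c.2.2.1) (G.pset c.2.2.2) t (B + 1) B L ∧
      (∀ v : Fin G.n, v.val < t → ∃ s, G.pr v s ∈ G.pset c.2.2.1) ∧
      c.1 < (G.n + 1) ^ G.m ∧ c.2.1 < (G.n * G.n + 2) ^ (G.n * G.n) ∧
      c.2.2.1 < 2 ^ (G.n * G.n) ∧ c.2.2.2 < 2 ^ (G.n * G.n)) :=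
    ⟨_, fun _ _ => Iff.rfl⟩
  have key : ∀ t ≤ G.n, P t (itr (fun r c => nextU (G.code N) B L r c)
      (0, ∑ w ∈ range (G.n * G.n), (G.n * G.n + 2) ^ w, 0, 0) t) := by
    intro t
    induction t with
    | zero =>
      intro _
      rw [hP]
      refine ⟨?_, fun v hv => absurd hv (Nat.not_lt_zero _), Nat.pow_pos (Nat.succ_pos _),
        G.u3_lay0_lt, Nat.two_pow_pos _, Nat.two_pow_pos _⟩
      change G.InvE (G.labF N 0) (G.layF (∑ w ∈ range (G.n * G.n), (G.n * G.n + 2) ^ w))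
        (G.pset 0) (G.pset 0) 0 (B + 1) B L
      rw [G.u3_lab0 N, G.u3_lay0, G.u3_zero]
      exact G.invE_init (B + 1) B L
    | succ t ih =>
      intro ht
      have h := ih (by omega)
      change P (t + 1) (nextU (G.code N) B L t (itr (fun r c => nextU (G.code N) B L r c)
        (0, ∑ w ∈ range (G.n * G.n), (G.n * G.n + 2) ^ w, 0, 0) t))
      generalize itr (fun r c => nextU (G.code N) B L r c)
        (0, ∑ w ∈ range (G.n * G.n), (G.n * G.n + 2) ^ w, 0, 0) t = c at h ⊢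
      rw [hP] at h ⊢
      obtain ⟨h1, h2, h3, h4, h5, h6⟩ := h
      obtain ⟨r, hr⟩ : ∃ r : Fin G.n, r.val = t := ⟨⟨t, by omega⟩, rfl⟩
      subst hr
      by_cases h0 : FinU (G.code N) c.2.2.1 r
      · have e : nextU (G.code N) B L r c = c := by
          unfold nextU
          rw [if_pos h0]
        rw [e]
        refine ⟨InvE.mono G h1, fun v hv => ?_, h3, h4, h5, h6⟩
        rcases Nat.lt_succ_iff_lt_or_eq.1 hv with hv | hv
        · exact h2 v hv
        · rw [Fin.ext hv]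
          exact (G.finU_code N _ r).1 h0
      · have e : nextU (G.code N) B L r c =
            (nLab (G.code N) c.1 r (radU (G.code N) B L c.1 r),
              nLay (G.code N) c.1 c.2.1 r (radU (G.code N) B L c.1 r),
              nM (G.code N) c.1 c.2.2.1 r (radU (G.code N) B L c.1 r),
              nF (G.code N) c.1 c.2.2.2 r (radU (G.code N) B L c.1 r)) := by
          unfold nextU
          rw [if_neg h0]
        rw [e]
        have hr : ∀ s, G.pr r s ∉ G.pset c.2.2.1 := fun s hs =>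
          h0 ((G.finU_code N _ r).2 ⟨s, hs⟩)
        obtain ⟨hk1, hk2⟩ := G.radU_spec N B L c.1 r (G.growthE _ r B L hL hn)
        generalize radU (G.code N) B L c.1 r = ρ at hk1 hk2 ⊢
        obtain ⟨a1, a2⟩ := G.u3_step N c r h1 h3 h4 h5 h6 ρ
        obtain ⟨b1, b2, b3, b4⟩ := a2
        simp only
        rw [a1.1, a1.2.1, a1.2.2.1, a1.2.2.2]
        refine ⟨G.invE_step r h1 hr ρ (Or.inl (by omega)) hk2, fun v hv => ?_, b1, b2, b3, b4⟩
        rcases Nat.lt_succ_iff_lt_or_eq.1 hv with hv | hv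
        · obtain ⟨s, hs⟩ := h2 v hv
          exact ⟨s, Finset.mem_union_left _ hs⟩
        · rw [Fin.ext hv]
          exact ⟨r, G.mem_mS _ _ r ρ⟩
  have h := key G.n le_rfl
  rw [hP] at h
  exact ⟨h.1, fun v => h.2.1 v v.isLt, h.2.2⟩

/-- If every component is exhausted within `d ≤ B` steps, there are no extra copies. -/
theorem splU_diam (B L d : ℕ) (hd : d ≤ B) (hG : G.DiamLe d) :
    (splU (G.code N) B L).2.2.2 = 0 ∧ ∀ w, G.layF (splU (G.code N) B L).2.1 w ≤ d + 1 := by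
  obtain ⟨P, hP⟩ : ∃ P : ℕ → ℕ × ℕ × ℕ × ℕ → Prop, ∀ t c, P t c ↔
      (G.InvE (G.labF N c.1) (G.layF c.2.1) (G.pset c.2.2.1) (G.pset c.2.2.2) t d 0 0 ∧
      c.1 < (G.n + 1) ^ G.m ∧ c.2.1 < (G.n * G.n + 2) ^ (G.n * G.n) ∧
      c.2.2.1 < 2 ^ (G.n * G.n) ∧ c.2.2.2 = 0) :=
    ⟨_, fun _ _ => Iff.rfl⟩
  have key : ∀ t ≤ G.n, P t (itr (fun r c => nextU (G.code N) B L r c)
      (0, ∑ w ∈ range (G.n * G.n), (G.n * G.n + 2) ^ w, 0, 0) t) := by
    intro t
    induction t with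
    | zero =>
      intro _
      rw [hP]
      refine ⟨?_, Nat.pow_pos (Nat.succ_pos _), G.u3_lay0_lt, Nat.two_pow_pos _, rfl⟩
      change G.InvE (G.labF N 0) (G.layF (∑ w ∈ range (G.n * G.n), (G.n * G.n + 2) ^ w))
        (G.pset 0) (G.pset 0) 0 d 0 0
      rw [G.u3_lab0 N, G.u3_lay0, G.u3_zero]
      exact G.invE_init d 0 0
    | succ t ih =>
      intro ht
      have h := ih (by omega)
      change P (t + 1) (nextU (G.code N) B L t (itr (fun r c => nextU (G.code N) B L r c)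
        (0, ∑ w ∈ range (G.n * G.n), (G.n * G.n + 2) ^ w, 0, 0) t))
      generalize itr (fun r c => nextU (G.code N) B L r c)
        (0, ∑ w ∈ range (G.n * G.n), (G.n * G.n + 2) ^ w, 0, 0) t = c at h ⊢
      rw [hP] at h ⊢
      obtain ⟨h1, h3, h4, h5, h6⟩ := h
      obtain ⟨r, hr⟩ : ∃ r : Fin G.n, r.val = t := ⟨⟨t, by omega⟩, rfl⟩
      subst hr
      by_cases h0 : FinU (G.code N) c.2.2.1 r
      · have e : nextU (G.code N) B L r c = c := by
          unfold nextU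
          rw [if_pos h0]
        rw [e]
        exact ⟨InvE.mono G h1, h3, h4, h5, h6⟩
      · have e : nextU (G.code N) B L r c =
            (nLab (G.code N) c.1 r (radU (G.code N) B L c.1 r),
              nLay (G.code N) c.1 c.2.1 r (radU (G.code N) B L c.1 r),
              nM (G.code N) c.1 c.2.2.1 r (radU (G.code N) B L c.1 r),
              nF (G.code N) c.1 c.2.2.2 r (radU (G.code N) B L c.1 r)) := by
          unfold nextU
          rw [if_neg h0]
        rw [e]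
        have hr : ∀ s, G.pr r s ∉ G.pset c.2.2.1 := fun s hs =>
          h0 ((G.finU_code N _ r).2 ⟨s, hs⟩)
        have h1' := h1
        rw [h6, G.u3_zero] at h1'
        obtain ⟨hk1, hk2⟩ := G.radU_cut N B L c.1 r d hd
          (InvE.diam G h1' r.isLt.le r hr d hG)
        generalize radU (G.code N) B L c.1 r = ρ at hk1 hk2 ⊢
        obtain ⟨a1, a2⟩ := G.u3_step N c r h1 h3 h4 h5 (by rw [h6]; exact Nat.two_pow_pos _) ρ
        obtain ⟨b1, b2, b3, b4⟩ := a2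
        simp only
        have hF : G.pset (nF (G.code N) c.1 c.2.2.2 r ρ) = ∅ := by
          rw [a1.2.2.2, h6, G.u3_zero]
          unfold fS
          rw [hk2, Finset.sdiff_self, Finset.image_empty, Finset.union_empty]
        have hF0 := G.u3_inj b4 hF
        refine ⟨?_, b1, b2, b3, hF0⟩
        rw [a1.1, a1.2.1, a1.2.2.1, a1.2.2.2]
        exact G.invE_step r h1 hr ρ (Or.inr ⟨hk1, hk2⟩) (by simp)
  have h := key G.n le_rfl
  rw [hP] at h
  exact ⟨h.2.2.2.2, h.1.le⟩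

/-- the split input codes the split graph -/
theorem splL_code (Lb : ℕ) (lab' : Fin G.m → Fin G.n) (h : ∀ i, G.labF N Lb i = lab' i + 1) :
    splL (G.code N) Lb = (G.spl lab').code N := by
  have h1 : ((List.range G.m).map fun i =>
      [((eu (G.code N) i * nn (G.code N) + (labN (G.code N) Lb i - 1) : ℕ) : ℤ),
      ((ev (G.code N) i * nn (G.code N) + (labN (G.code N) Lb i - 1) : ℕ) : ℤ)]) =
      List.ofFn fun i : Fin G.m => [(((G.spl lab').e i).1.val : ℤ),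
        (((G.spl lab').e i).2.val : ℤ)] := by
    apply List.ext_getElem
    · simp
    · intro i hi1 hi2
      have hi : i < G.m := by simpa using hi1
      have h2 : labN (G.code N) Lb i - 1 = (lab' ⟨i, hi⟩ : ℕ) := by
        have h3 : labN (G.code N) Lb i = (lab' ⟨i, hi⟩ : ℕ) + 1 := h ⟨i, hi⟩
        omega
      have e1 : eu (G.code N) i = (G.e ⟨i, hi⟩).1 := G.eu_code N ⟨i, hi⟩
      have e2 : ev (G.code N) i = (G.e ⟨i, hi⟩).2 := G.ev_code N ⟨i, hi⟩
      have e3 : ((((G.spl lab').e ⟨i, hi⟩).1 : Fin (G.n * G.n)) : ℕ) =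
        ((G.e ⟨i, hi⟩).1 : ℕ) * G.n + lab' ⟨i, hi⟩ := G.pr_val _ _
      have e4 : ((((G.spl lab').e ⟨i, hi⟩).2 : Fin (G.n * G.n)) : ℕ) =
        ((G.e ⟨i, hi⟩).2 : ℕ) * G.n + lab' ⟨i, hi⟩ := G.pr_val _ _
      rw [List.getElem_map, List.getElem_range, List.getElem_ofFn, h2, e1, e2, nn_code]
      rw [← e3, ← e4]
      rfl
  unfold splL
  rw [mm_code, h1]
  rfl

theorem LU_code : LU (G.code N) ≤ BU (G.code N) ∧ G.n < 2 ^ LU (G.code N) := by
  constructor
  · unfold BU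
    omega
  · unfold LU
    rw [nn_code]
    exact Nat.lt_size_self _

end MGraph

end Pool.Agent.Lib.H2
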