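import Pool.Agent.Lib.MP_3493b8_lc.V.Num3
import Pool.Agent.Lib.MP_3493b8_lc.Start
import Pool.Agent.Lib.MP_3493b8_lc.CluF

/-! The parts of the second algorithm: boundaries and start states. -/

set_option autoImplicit false

open Finset

namespace Pool.Agent.Lib.H2

open Pool.Agent.Lib.PTC

private theorem par_exists (F n k : ℕ) (h : k < belowN F n) :
    ∃ i < n, F.testBit i = true ∧ belowN F i = k := by
  induction n with
  | zero =>
    unfold belowN at h
    rw [Finset.range_zero, Finset.sum_empty] at h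
    exact absurd h (Nat.not_lt_zero k)
  | succ n ih =>
    by_cases hk : k < belowN F n
    · obtain ⟨i, h1, h2⟩ := ih hk
      exact ⟨i, by omega, h2⟩
    · have e : belowN F (n + 1) = belowN F n + if F.testBit n = true then 1 else 0 := by
        unfold belowN
        rw [Finset.sum_range_succ]
      rw [e] at h
      by_cases hF : F.testBit n = true
      · rw [if_pos hF] at h
        exact ⟨n, by omega, hF, by omega⟩
      · rw [if_neg hF] at h
        omega

theorem subK_testBit (K F a w : ℕ) : (subK K F a).testBit w =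
    decide (w < K ∧ F.testBit w = true ∧ a.testBit (belowN F w) = true) := by
  unfold subK
  exact testBit_sum K (fun i => F.testBit i = true ∧ a.testBit (belowN F i) = true) w

private theorem par_sub_lt (K F a : ℕ) : subK K F a < 2 ^ K := sum_two_pow_lt K _

private theorem par_bit_inj {K A B : ℕ} (hA : A < 2 ^ K) (hB : B < 2 ^ K)
    (h : ∀ k < K, (A.testBit k = true ↔ B.testBit k = true)) : A = B := by
  refine Nat.eq_of_testBit_eq fun k => ?_
  by_cases hk : k < K
  · exact Bool.eq_iff_iff.2 (h k hk)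
  · have h1 : 2 ^ K ≤ 2 ^ k := Nat.pow_le_pow_right two_pos (not_lt.1 hk)
    rw [Nat.testBit_eq_false_of_lt (lt_of_lt_of_le hA h1),
      Nat.testBit_eq_false_of_lt (lt_of_lt_of_le hB h1)]

namespace MGraph

variable (G : MGraph) (N : ℕ)

private theorem par_mem (A : ℕ) (w : Fin (G.n * G.n)) : w ∈ G.pset A ↔ A.testBit w = true := by
  unfold pset
  rw [mem_filter]
  exact ⟨fun h => h.2, fun h => ⟨mem_univ _, h⟩⟩

theorem belowN_card (F : ℕ) : belowN F (G.n * G.n) = (G.pset F).card := by
  unfold belowN pset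
  rw [Finset.card_filter, Finset.sum_range]

/-- Every subset of `F` is met exactly once. -/
theorem sum_subK (F : ℕ) (g : Finset (Fin (G.n * G.n)) → ℝ) :
    ∑ a ∈ range (2 ^ belowN F (G.n * G.n)), g (G.pset (subK (G.n * G.n) F a)) =
      ∑ X ∈ (G.pset F).powerset, g X := by
  classical
  have hinj : Set.InjOn (fun a => G.pset (subK (G.n * G.n) F a))
      (range (2 ^ belowN F (G.n * G.n)) : Set ℕ) := by
    intro a ha b hb hab
    have ha' : a < 2 ^ belowN F (G.n * G.n) := Finset.mem_range.1 (Finset.mem_coe.1 ha)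
    have hb' : b < 2 ^ belowN F (G.n * G.n) := Finset.mem_range.1 (Finset.mem_coe.1 hb)
    have h1 : subK (G.n * G.n) F a = subK (G.n * G.n) F b := by
      refine par_bit_inj (par_sub_lt _ F a) (par_sub_lt _ F b) fun k hk => ?_
      have h0 : (⟨k, hk⟩ : Fin (G.n * G.n)) ∈ G.pset (subK (G.n * G.n) F a) ↔
          (⟨k, hk⟩ : Fin (G.n * G.n)) ∈ G.pset (subK (G.n * G.n) F b) := by
        rw [show G.pset (subK (G.n * G.n) F a) = G.pset (subK (G.n * G.n) F b) from hab]
      rw [par_mem, par_mem] at h0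
      exact h0
    refine par_bit_inj ha' hb' fun k hk => ?_
    obtain ⟨i, hi, hF, rfl⟩ := par_exists F _ k hk
    have h2 := congrArg (fun t => t.testBit i) h1
    change (subK (G.n * G.n) F a).testBit i = (subK (G.n * G.n) F b).testBit i at h2
    rw [subK_testBit, subK_testBit] at h2
    have h3 := decide_eq_decide.1 h2
    refine ⟨fun h4 => ?_, fun h4 => ?_⟩
    · exact (h3.1 ⟨hi, hF, h4⟩).2.2
    · exact (h3.2 ⟨hi, hF, h4⟩).2.2
  have himg : (range (2 ^ belowN F (G.n * G.n))).image
      (fun a => G.pset (subK (G.n * G.n) F a)) = (G.pset F).powerset := by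
    refine Finset.eq_of_subset_of_card_le ?_ ?_
    · intro X hX
      obtain ⟨a, -, rfl⟩ := Finset.mem_image.1 hX
      refine Finset.mem_powerset.2 fun w hw => ?_
      rw [par_mem, subK_testBit] at hw
      rw [par_mem]
      exact (of_decide_eq_true hw).2.1
    · rw [Finset.card_image_of_injOn hinj, Finset.card_powerset, Finset.card_range, belowN_card]
  rw [← himg, Finset.sum_image hinj]

private theorem par_eset_full : G.eset (2 ^ G.m - 1) = univ := by
  unfold eset
  rw [Finset.filter_true_of_mem]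
  intro i _
  rw [Nat.testBit_two_pow_sub_one]
  exact decide_eq_true i.isLt

/-- the boundary for the part `X` -/
theorem maskT_code (lab' : Fin G.m → Fin G.n) (ρ : Fin G.n → Fin G.n) (M X : ℕ)
    (hM : ∀ v r, G.pr v r ∈ G.pset M ↔ r = ρ v) :
    (G.spl lab').vvec (maskT (G.code N) M X) = G.tvec ρ (G.bd univ) (G.pset X) := by
  funext w
  obtain ⟨v, s, hw⟩ := G.exists_pr w
  subst hw
  have hn : 0 < G.n := lt_of_le_of_lt (Nat.zero_le _) v.isLt
  have hval : ((G.pr v s : Fin (G.n * G.n)) : ℕ) = (v : ℕ) * G.n + s := G.pr_val v s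
  have hdiv : ((G.pr v s : Fin (G.n * G.n)) : ℕ) / G.n = v := by
    rw [hval, Nat.mul_comm, Nat.mul_add_div hn, Nat.div_eq_of_lt s.isLt, Nat.add_zero]
  have hlt : parT (G.code N) M X (G.pr v s : Fin (G.n * G.n)) < 2 := Nat.mod_lt _ two_pos
  have e1 : (G.spl lab').vvec (maskT (G.code N) M X) (G.pr v s) =
      ((parT (G.code N) M X (G.pr v s : Fin (G.n * G.n)) : ℕ) : ZMod 2) := by
    change (if (maskT (G.code N) M X).testBit ((G.pr v s : Fin (G.n * G.n)) : ℕ) = true then
      (1 : ZMod 2) else 0) = _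
    unfold maskT
    rw [testBit_sum, nn_code]
    by_cases h1 : parT (G.code N) M X (G.pr v s : Fin (G.n * G.n)) = 1
    · rw [if_pos (decide_eq_true ⟨(G.pr v s).isLt, h1⟩), h1, Nat.cast_one]
    · have h0 : parT (G.code N) M X (G.pr v s : Fin (G.n * G.n)) = 0 := by omega
      rw [if_neg (fun h2 => h1 (of_decide_eq_true h2).2), h0, Nat.cast_zero]
  have e2 : (finProdFinEquiv.symm (G.pr v s) : Fin G.n × Fin G.n) = (v, s) :=
    finProdFinEquiv.symm_apply_apply (v, s)
  have e3 : ∀ r : Fin G.n, (X.testBit ((v : ℕ) * G.n + r) = true) ↔ G.pr v r ∈ G.pset X := by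
    intro r
    rw [par_mem, G.pr_val v r]
  have e4 : (M.testBit ((G.pr v s : Fin (G.n * G.n)) : ℕ) = true) ↔ G.pr v s = G.pr v (ρ v) := by
    rw [← par_mem, hM, G.pr_inj]
    exact ⟨fun h => ⟨rfl, h⟩, fun h => h.2⟩
  have e5 : (X.testBit ((G.pr v s : Fin (G.n * G.n)) : ℕ) = true) ↔ G.pr v s ∈ G.pset X :=
    (par_mem G X _).symm
  have e6 : G.tvec ρ (G.bd univ) (G.pset X) (G.pr v s) =
      (if G.pr v s ∈ G.pset X then 1 else 0) + (if G.pr v s = G.pr v (ρ v) then
        G.bd univ v + ∑ r, (if G.pr v r ∈ G.pset X then 1 else 0) else 0) := by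
    unfold tvec
    rw [e2]
  rw [e1]
  refine Eq.trans ?_ e6.symm
  unfold parT
  rw [ZMod.natCast_mod, Nat.cast_add]
  refine congrArg₂ _ ?_ ?_
  · rw [Nat.cast_ite, Nat.cast_one, Nat.cast_zero]
    exact if_congr e5 rfl rfl
  · rw [Nat.cast_ite, Nat.cast_zero]
    refine if_congr e4 ?_ rfl
    rw [nn_code, mm_code, hdiv, Nat.cast_add, G.bdN_code N, par_eset_full, Nat.cast_sum,
      Finset.sum_range]
    refine congrArg _ (sum_congr rfl fun r _ => ?_)
    rw [Nat.cast_ite, Nat.cast_one, Nat.cast_zero]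
    exact if_congr (e3 r) rfl rfl

theorem startU_lt (Ly T : ℕ) : startU (G.code N) Ly T < 2 ^ G.m := by
  unfold startU
  exact sum_two_pow_lt _ _

/-- the coefficient of the start state -/
private def parCo (x : List ℤ) (Ly T i : ℕ) : ℕ :=
  ∑ w ∈ range (nn x), if T.testBit w = true then pathN x Ly 0 w i else 0

private theorem par_bit (Ly T k : ℕ) : (startU (G.code N) Ly T).testBit k = true ↔
    k < G.m ∧ parCo (G.code N) Ly T k % 2 = 1 := by
  unfold startU
  rw [testBit_sum, decide_eq_true_iff, mm_code]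
  rfl

private theorem par_sum (Ly T : ℕ) : G.bd (G.eset (startU (G.code N) Ly T)) =
    ∑ i : Fin G.m, ((parCo (G.code N) Ly T i : ℕ) : ZMod 2) •
      (Pi.single (G.e i).1 1 + Pi.single (G.e i).2 1 : Fin G.n → ZMod 2) := by
  unfold bd eset
  rw [sum_filter]
  refine sum_congr rfl fun i _ => ?_
  have e : ((parCo (G.code N) Ly T i : ℕ) : ZMod 2) =
      ((parCo (G.code N) Ly T i % 2 : ℕ) : ZMod 2) := (ZMod.natCast_mod _ 2).symm
  by_cases h1 : parCo (G.code N) Ly T i % 2 = 1
  · rw [if_pos ((G.par_bit N Ly T i).2 ⟨i.isLt, h1⟩), e, h1, Nat.cast_one, one_smul]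
  · have h2 : parCo (G.code N) Ly T i % 2 = 0 := by omega
    rw [if_neg (fun h3 => h1 ((G.par_bit N Ly T i).1 h3).2), e, h2, Nat.cast_zero, zero_smul]

private theorem par_eset0 : G.eset 0 = ∅ := by
  unfold eset
  rw [Finset.filter_eq_empty_iff]
  intro i _
  rw [Nat.zero_testBit]
  exact Bool.false_ne_true

private theorem par_vvec (T : ℕ) :
    (∑ v : Fin G.n, if T.testBit v = true then (Pi.single v 1 : Fin G.n → ZMod 2) else 0) =
      G.vvec T := by
  funext u
  rw [Finset.sum_apply]
  unfold vvec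
  rw [Finset.sum_eq_single u]
  · by_cases h : T.testBit u = true
    · rw [if_pos h, if_pos h, Pi.single_eq_same]
    · rw [if_neg h, if_neg h, Pi.zero_apply]
  · intro v _ hv
    by_cases h : T.testBit v = true
    · rw [if_pos h, Pi.single_eq_of_ne (Ne.symm hv)]
    · rw [if_neg h, Pi.zero_apply]
  · intro h
    exact absurd (mem_univ u) h

private theorem par_root {Ly r : ℕ} (h : G.Clu (G.lay N Ly) ∅ r) (T : ℕ) :
    ∃ R : Fin G.n → ZMod 2, (∀ v, R v ≠ 0 → G.lay N Ly v = 1) ∧
      G.bd (G.eset (startU (G.code N) Ly T)) = G.vvec T + R := by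
  rw [← G.par_eset0] at h
  choose u hu1 hu2 hu3 using fun v => G.pathN_spec N h v
  refine ⟨∑ v : Fin G.n, if T.testBit v = true then
    (Pi.single (u v) 1 : Fin G.n → ZMod 2) else 0, fun v hv => ?_, ?_⟩
  · rw [Finset.sum_apply] at hv
    obtain ⟨w, -, hw⟩ := exists_ne_zero_of_sum_ne_zero hv
    split_ifs at hw with hc
    · by_cases e1 : v = u w
      · rw [e1]
        exact hu1 _
      · rw [Pi.single_eq_of_ne e1] at hw
        exact absurd rfl hw
    · exact absurd rfl hw
  · rw [par_sum]
    have e1 : ∀ i : Fin G.m, ((parCo (G.code N) Ly T i : ℕ) : ZMod 2) =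
        ∑ v : Fin G.n, if T.testBit v = true then
          ((pathN (G.code N) Ly 0 v i : ℕ) : ZMod 2) else 0 := by
      intro i
      unfold parCo
      rw [nn_code, sum_range, Nat.cast_sum]
      refine sum_congr rfl fun v _ => ?_
      rw [Nat.cast_ite, Nat.cast_zero]
    rw [sum_congr rfl fun i _ => by rw [e1 i, sum_smul], sum_comm, ← G.par_vvec T,
      ← sum_add_distrib]
    refine sum_congr rfl fun v _ => ?_
    by_cases hv : T.testBit v = true
    · simp only [if_pos hv]
      rw [hu2]
    · simp only [if_neg hv]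
      rw [add_zero]
      exact sum_eq_zero fun i _ => zero_smul _ _

/-- the boundary of the start state differs from the wanted one only at the roots -/
theorem startU_bd {Ly r : ℕ} (h : G.Clu (G.lay N Ly) ∅ r) (T : ℕ) (v : Fin G.n)
    (hv : G.bd (G.eset (startU (G.code N) Ly T)) v ≠ G.vvec T v) : G.lay N Ly v = 1 := by
  obtain ⟨R, hR, hb⟩ := G.par_root N h T
  refine hR v fun h0 => hv ?_
  rw [hb, Pi.add_apply, h0, add_zero]

/-- The start state has the wanted boundary if some set has. -/
theorem startU_iff {Ly r : ℕ} (h : G.Clu (G.lay N Ly) ∅ r) (T : ℕ) :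
    G.bd (G.eset (startU (G.code N) Ly T)) = G.vvec T ↔ ∃ A, G.bd A = G.vvec T := by
  constructor
  · intro h1
    exact ⟨_, h1⟩
  · rintro ⟨A, hbA⟩
    by_contra hne
    have hB : G.bd (symmDiff A (G.eset (startU (G.code N) Ly T))) =
        G.vvec T + G.bd (G.eset (startU (G.code N) Ly T)) := by
      rw [G.bd_symmDiff, hbA]
    have hone : ∀ v, G.bd (symmDiff A (G.eset (startU (G.code N) Ly T))) v ≠ 0 →
        G.lay N Ly v = 1 := by
      intro v hv
      refine G.startU_bd N h T v fun h0 => hv ?_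
      rw [hB, Pi.add_apply, h0]
      exact CharTwo.add_self_eq_zero _
    obtain ⟨a, ha⟩ : ∃ a, G.bd (symmDiff A (G.eset (startU (G.code N) Ly T))) a ≠ 0 := by
      by_contra hcon
      simp only [not_exists, not_not] at hcon
      refine hne (funext fun v => ?_)
      have h1 := hcon v
      rw [hB, Pi.add_apply] at h1
      exact (CharTwo.add_eq_zero.1 h1).symm
    obtain ⟨b, hb, hba, P, -, hPb⟩ := G.peel _ a (by
      unfold supp
      rw [mem_filter]
      exact ⟨mem_univ _, ha⟩)
    unfold supp at hb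
    rw [mem_filter] at hb
    exact hba (h.root a b P (disjoint_empty_right _) hPb (hone a ha) (hone b hb.2)).symm

end MGraph

end Pool.Agent.Lib.H2
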