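import Pool.Agent.Lib.MP_3493b8_lc.V.Est

/-! The estimated quotients for good random numbers (second algorithm). -/

set_option autoImplicit false

open Finset

namespace Pool.Agent.Lib.H2

open Pool.Agent.Lib.PTC

namespace MGraph

variable (G : MGraph) (N q r k : ℕ) (T A : ℕ → ℕ)

private theorem quotG_tele (Z : ℕ → ℝ) (hZ : ∀ j, 0 < Z j) (m : ℕ) :
    ∏ j ∈ range m, Z (j + 1) / Z j = Z m / Z 0 := by
  induction m with
  | zero => rw [range_zero, prod_empty, div_self (hZ 0).ne']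
  | succ m ih =>
    rw [prod_range_succ, ih]
    have h0 := (hZ 0).ne'
    have h1 := (hZ m).ne'
    field_simp

private theorem quotG_prod (m : ℕ) (Z V U : ℕ → ℝ) (e : ℝ) (hZ : ∀ j, 0 < Z j)
    (h : ∀ j < m, 0 < U j ∧ Real.exp (-e) * (Z (j + 1) / Z j) ≤ V j / U j ∧
      V j / U j ≤ Real.exp e * (Z (j + 1) / Z j)) :
    Real.exp (-(m * e)) * (Z m / Z 0) ≤ (∏ j ∈ range m, V j) / (∏ j ∈ range m, U j) ∧
      (∏ j ∈ range m, V j) / (∏ j ∈ range m, U j) ≤ Real.exp (m * e) * (Z m / Z 0) := by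
  have hr : ∀ j, 0 < Z (j + 1) / Z j := fun j => div_pos (hZ _) (hZ _)
  have e1 : Real.exp (-(m * e)) * (Z m / Z 0) =
      ∏ j ∈ range m, Real.exp (-e) * (Z (j + 1) / Z j) := by
    rw [prod_mul_distrib, prod_const, card_range, quotG_tele Z hZ, ← Real.exp_nat_mul, mul_neg]
  have e2 : Real.exp (m * e) * (Z m / Z 0) =
      ∏ j ∈ range m, Real.exp e * (Z (j + 1) / Z j) := by
    rw [prod_mul_distrib, prod_const, card_range, quotG_tele Z hZ, ← Real.exp_nat_mul]
  rw [e1, e2, ← prod_div_distrib]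
  constructor
  · refine prod_le_prod (fun j _ => (mul_pos (Real.exp_pos _) (hr j)).le) fun j hj => ?_
    exact (h j (mem_range.1 hj)).2.1
  · refine prod_le_prod (fun j hj => ?_) fun j hj => ?_
    · exact (mul_pos (Real.exp_pos _) (hr j)).le.trans (h j (mem_range.1 hj)).2.1
    · exact (h j (mem_range.1 hj)).2.2

/-- the estimated quotient of partition functions for the part `a` -/
theorem quotG (p a ω : ℕ) (hS : G.Short ∅ (2 * r)) (hp : 0 < p) (hpq : p < q) (hN : 1 ≤ N)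
    (hω : G.GoodG N q r k T A p ω) (haa : a < 2 ^ k) (ha : G.SolG T A a) :
    0 < denX (G.code N) p q 0 (T a) (A a) (G.tG N q r) (G.sG N q r k) a ω ∧
    Real.exp (-(1 / (4 * N))) * (G.Zs ∅ (fun _ => (p : ℝ) / q) (G.vvec (T a)) /
      G.Zs ∅ (G.wj ((p : ℝ) / q) 0) (G.vvec (T a))) ≤
      (numX (G.code N) p q 0 (T a) (A a) (G.tG N q r) (G.sG N q r k) a ω : ℝ) /
      (denX (G.code N) p q 0 (T a) (A a) (G.tG N q r) (G.sG N q r k) a ω : ℝ) ∧
    (numX (G.code N) p q 0 (T a) (A a) (G.tG N q r) (G.sG N q r k) a ω : ℝ) /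
      (denX (G.code N) p q 0 (T a) (A a) (G.tG N q r) (G.sG N q r k) a ω : ℝ) ≤
      Real.exp (1 / (4 * N)) * (G.Zs ∅ (fun _ => (p : ℝ) / q) (G.vvec (T a)) /
      G.Zs ∅ (G.wj ((p : ℝ) / q) 0) (G.vvec (T a))) := by
  have hq0 : 0 < q := hp.trans hpq
  have hq : (0 : ℝ) < q := by exact_mod_cast hq0
  have hp' : (0 : ℝ) < p := by exact_mod_cast hp
  set x := G.code N with hx
  set l : ℝ := (p : ℝ) / q with hl
  set Z : ℕ → ℝ := fun j => G.Zs ∅ (G.wj l j) (G.vvec (T a)) with hZdef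
  have hZ : ∀ j, 0 < Z j := by
    intro j
    have h1 := G.Zs_pos ∅ (G.wj l j) (fun i => by
      unfold wj
      split_ifs
      · exact div_pos hp' hq
      · exact zero_lt_one) (G.eset (A a)) (disjoint_empty_right _)
    have hAb : G.bd (G.eset (A a)) = G.vvec (T a) := ha
    rw [hAb] at h1
    exact h1
  have hZm : Z G.m = G.Zs ∅ (fun _ => l) (G.vvec (T a)) := by
    simp only [hZdef]
    rw [G.wj_last]
  set Un : ℕ → ℕ := fun j => q * cntU x p q 0 (T a) (A a) j (G.tG N q r)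
    (G.sG N q r k) ((a * mm x + j) * G.sG N q r k) ω with hUn
  set Vn : ℕ → ℕ := fun j => q * (cntU x p q 0 (T a) (A a) j (G.tG N q r)
      (G.sG N q r k) ((a * mm x + j) * G.sG N q r k) ω -
      cntB x p q 0 (T a) (A a) j (G.tG N q r)
      (G.sG N q r k) ((a * mm x + j) * G.sG N q r k) ω) +
      p * cntB x p q 0 (T a) (A a) j (G.tG N q r)
      (G.sG N q r k) ((a * mm x + j) * G.sG N q r k) ω with hVn
  have hden : denX x p q 0 (T a) (A a) (G.tG N q r) (G.sG N q r k) a ω =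
      ∏ j ∈ range G.m, Un j := by
    unfold denX
    rw [show mm x = G.m from G.mm_code N]
    rfl
  have hnum : numX x p q 0 (T a) (A a) (G.tG N q r) (G.sG N q r k) a ω =
      ∏ j ∈ range G.m, Vn j := by
    unfold numX
    rw [show mm x = G.m from G.mm_code N]
    rfl
  have hs : (0 : ℝ) < (G.sG N q r k : ℕ) := by
    have : 0 < G.sG N q r k := by
      unfold sG
      positivity
    exact_mod_cast this
  have hfac : ∀ j < G.m, 0 < (Un j : ℝ) ∧
      Real.exp (-(1 / (4 * G.m * N))) * (Z (j + 1) / Z j) ≤ (Vn j : ℝ) / (Un j : ℝ) ∧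
      (Vn j : ℝ) / (Un j : ℝ) ≤ Real.exp (1 / (4 * G.m * N)) * (Z (j + 1) / Z j) := by
    intro j hj
    have hm : 1 ≤ G.m := by omega
    obtain ⟨hU, hV⟩ := hω a haa ha ⟨j, hj⟩
    obtain ⟨hu1, hu2⟩ := G.meanG_obsU q r T A p a j hS ha hp hpq
    obtain ⟨hv1, hv2⟩ := G.meanG_obsV q r T A p a ⟨j, hj⟩ hS ha hp hpq
    have hu0 : 0 < G.meanG q T p a j (G.obsU (G.vvec (T a))) :=
      lt_of_lt_of_le (by positivity) hu2
    have hv0 : 0 < G.meanG q T p a j (G.obsV (G.vvec (T a)) ((p : ℝ) / q) ⟨j, hj⟩) :=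
      lt_of_lt_of_le (by positivity) hv2
    have h1 := num_quot G.m N hm hN _ _ _ _ _ hs hu0 hv0 hU hV
    have hS0 : (∑ B, G.nuJ ∅ (G.vvec (T a)) p q j B) ≠ 0 := by
      intro h0
      rw [hu1, h0, div_zero] at hu0
      exact lt_irrefl _ hu0
    have hvu : G.meanG q T p a j (G.obsV (G.vvec (T a)) ((p : ℝ) / q) ⟨j, hj⟩) /
        G.meanG q T p a j (G.obsU (G.vvec (T a))) = Z (j + 1) / Z j := by
      have hv1' : G.meanG q T p a j (G.obsV (G.vvec (T a)) ((p : ℝ) / q) ⟨j, hj⟩) =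
          Z (j + 1) / ∑ B, G.nuJ ∅ (G.vvec (T a)) p q j B := hv1
      have hu1' : G.meanG q T p a j (G.obsU (G.vvec (T a))) =
          Z j / ∑ B, G.nuJ ∅ (G.vvec (T a)) p q j B := hu1
      rw [hv1', hu1', div_div_div_cancel_right₀ hS0]
    have hUn1 : (Un j : ℝ) = q * G.smpG N q r k T A p a j ω (G.obsU (G.vvec (T a))) := by
      have h2 := G.cntU_smpG N q r k T A p a j ω
      simp only [hUn]
      rw [Nat.cast_mul, ← h2]
    have hVn1 : (Vn j : ℝ) =
        q * G.smpG N q r k T A p a j ω (G.obsV (G.vvec (T a)) ((p : ℝ) / q) ⟨j, hj⟩) :=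
      G.cntV_smpG N q r k T A p a ω ⟨j, hj⟩ hp hpq
    obtain ⟨h2, h3, h4, h5⟩ := h1
    rw [hUn1, hVn1, mul_div_mul_left _ _ hq.ne']
    rw [← hvu]
    exact ⟨mul_pos hq h2, h4, h5⟩
  have hdpos : 0 < denX x p q 0 (T a) (A a) (G.tG N q r) (G.sG N q r k) a ω := by
    rw [hden]
    refine prod_pos fun j hj => ?_
    have := (hfac j (mem_range.1 hj)).1
    exact_mod_cast this
  have hmain := quotG_prod G.m Z (fun j => (Vn j : ℝ)) (fun j => (Un j : ℝ))
    (1 / (4 * G.m * N)) hZ hfac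
  rw [hden, hnum]
  rw [hden] at hdpos
  refine ⟨hdpos, ?_⟩
  push_cast
  have hN0 : (0 : ℝ) < N := by exact_mod_cast hN
  rcases Nat.eq_zero_or_pos G.m with hm | hm
  · have h1 : Z 0 = G.Zs ∅ (fun _ => l) (G.vvec (T a)) := by
      rw [← hZm, hm]
    have h2 : G.Zs ∅ (fun _ => l) (G.vvec (T a)) / G.Zs ∅ (G.wj l 0) (G.vvec (T a)) = 1 := by
      rw [← h1]
      exact div_self (hZ 0).ne'
    rw [h2]
    have h3 : range G.m = ∅ := by rw [hm]; rfl
    rw [h3, prod_empty, prod_empty, div_one, mul_one, mul_one]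
    refine ⟨Real.exp_le_one_iff.2 ?_, Real.one_le_exp ?_⟩
    · rw [neg_nonpos]
      positivity
    · positivity
  · have hm0 : (0 : ℝ) < G.m := by exact_mod_cast hm
    have h1 : (G.m : ℝ) * (1 / (4 * G.m * N)) = 1 / (4 * N) := by
      field_simp
    rw [h1, hZm] at hmain
    exact hmain

end MGraph

end Pool.Agent.Lib.H2
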