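import Pool.Agent.Lib.MP_3493b8_lc.V.Num3
import Pool.Agent.Lib.MP_3493b8_lc.V.Par

/-! The split graph used by the second algorithm. -/

set_option autoImplicit false

open Finset

namespace Pool.Agent.Lib.H2

open Pool.Agent.Lib.PTC

namespace MGraph

variable (G : MGraph) (N : ℕ)

/-- the labels used by the algorithm -/
def labc (i : Fin G.m) : Fin G.n :=
  ⟨(G.labF N (lbU (G.code N)) i - 1) % G.n,
    Nat.mod_lt _ (lt_of_le_of_lt (Nat.zero_le _) (G.e i).1.isLt)⟩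

/-- the split graph -/
def sp : MGraph := G.spl (G.labc N)

private theorem sp_key : ∃ ρ : Fin G.n → Fin G.n,
    (∀ i, G.labF N (lbU (G.code N)) i = G.labc N i + 1) ∧
    (∀ v r, G.pr v r ∈ G.pset (mU (G.code N)) ↔ r = ρ v) ∧
    (∀ v, G.pr v (ρ v) ∉ G.pset (fU (G.code N))) ∧
    (∀ i, (G.labc N i = ρ (G.e i).1 ∨ G.pr (G.e i).1 (G.labc N i) ∈ G.pset (fU (G.code N))) ∧
      (G.labc N i = ρ (G.e i).2 ∨ G.pr (G.e i).2 (G.labc N i) ∈ G.pset (fU (G.code N)))) ∧
    (G.sp N).Clu (G.layF (lyU (G.code N))) ∅ (BU (G.code N) + 1) ∧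
    (G.pset (fU (G.code N))).card * BU (G.code N) ≤ LU (G.code N) * G.n := by
  obtain ⟨h1, h2, -, -, -, -⟩ := G.splU_inv N (BU (G.code N)) (LU (G.code N)) (G.LU_code N).1
    (G.LU_code N).2
  obtain ⟨lab', ρ, h3, h4, h5, h6, h7, h8⟩ := InvE.clu G h1 h2
  have h9 : lab' = G.labc N := by
    funext i
    apply Fin.ext
    have h10 : G.labF N (lbU (G.code N)) i = lab' i + 1 := h3 i
    unfold labc
    simp only [h10, Nat.add_sub_cancel]
    rw [Nat.mod_eq_of_lt (lab' i).isLt]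
  subst h9
  exact ⟨ρ, h3, h4, h5, h6, h7, h8⟩

theorem yU_code : yU (G.code N) = (G.sp N).code N := by
  obtain ⟨ρ, h, -⟩ := G.sp_key N
  exact G.splL_code N (lbU (G.code N)) (G.labc N) h

/-- the main copies and the extra copies -/
theorem sp_spec : ∃ ρ : Fin G.n → Fin G.n,
    (∀ v r, G.pr v r ∈ G.pset (mU (G.code N)) ↔ r = ρ v) ∧
    (∀ v, G.pr v (ρ v) ∉ G.pset (fU (G.code N))) ∧
    (∀ i, (G.labc N i = ρ (G.e i).1 ∨ G.pr (G.e i).1 (G.labc N i) ∈ G.pset (fU (G.code N))) ∧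
      (G.labc N i = ρ (G.e i).2 ∨ G.pr (G.e i).2 (G.labc N i) ∈ G.pset (fU (G.code N)))) := by
  obtain ⟨ρ, -, h1, h2, h3, -, -⟩ := G.sp_key N
  exact ⟨ρ, h1, h2, h3⟩

private theorem sp_lay (Ly : ℕ) : (G.sp N).lay N Ly = G.layF Ly := rfl

private theorem sp_maxLay_le (D : ℕ) (h : ∀ w, G.layF (lyU (G.code N)) w ≤ D) :
    maxLay (yU (G.code N)) (lyU (G.code N)) ≤ D := by
  rw [G.yU_code N]
  exact maxLay_le _ _ _ fun v hv => h ⟨v, hv⟩

theorem clu_sp : (G.sp N).Clu ((G.sp N).lay N (lyU (G.code N))) ∅ (rU (G.code N)) := by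
  obtain ⟨ρ, -, -, -, -, h3, -⟩ := G.sp_key N
  rw [G.sp_lay N]
  refine ⟨h3.pos, fun v => ?_, h3.par, h3.root⟩
  have h4 := maxLay_ge ((G.sp N).code N) (lyU (G.code N)) v v.2
  have h5 := h3.pos v
  rw [← G.sp_lay N] at h5 ⊢
  unfold rU
  rw [G.yU_code N]
  unfold lay at h5 ⊢
  omega

theorem kU2_code : kU2 (G.code N) = (G.pset (fU (G.code N))).card :=
  G.belowN_card (fU (G.code N))

private theorem kU2_BU : kU2 (G.code N) * BU (G.code N) ≤ G.n * LU (G.code N) := by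
  obtain ⟨ρ, -, -, -, -, -, h3⟩ := G.sp_key N
  rw [kU2_code]
  exact h3.trans_eq (mul_comm _ _)

private theorem BU_sq : G.n * LU (G.code N) < BU (G.code N) * BU (G.code N) := by
  have h2 : Nat.sqrt (G.n * LU (G.code N)) + 1 ≤ BU (G.code N) := by
    unfold BU
    rw [nn_code]
    omega
  have h3 := Nat.lt_succ_sqrt (G.n * LU (G.code N))
  exact lt_of_lt_of_le h3 (Nat.mul_le_mul h2 h2)

private theorem kU2_lt : kU2 (G.code N) < BU (G.code N) := by
  by_contra hcon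
  rw [not_lt] at hcon
  have h1 := Nat.mul_le_mul_right (BU (G.code N)) hcon
  have h2 := G.kU2_BU N
  have h3 := G.BU_sq N
  omega

/-- the number of extra copies is at most `√(n L)` -/
theorem kU2_sq : kU2 (G.code N) * kU2 (G.code N) ≤ G.n * LU (G.code N) :=
  (Nat.mul_le_mul_left _ (G.kU2_lt N).le).trans (G.kU2_BU N)

theorem kU2_le : kU2 (G.code N) ≤ G.n := by
  have h1 : 0 < BU (G.code N) := by
    unfold BU
    omega
  have h2 := (G.kU2_BU N).trans (Nat.mul_le_mul_left G.n (G.LU_code N).1)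
  exact Nat.le_of_mul_le_mul_right h2 h1

theorem rU_le : rU (G.code N) ≤ BU (G.code N) + 1 := by
  obtain ⟨ρ, -, -, -, -, h3, -⟩ := G.sp_key N
  have h4 := G.sp_maxLay_le N (BU (G.code N) + 2) fun w => h3.le w
  unfold rU
  omega

/-- small diameter -/
theorem kU2_diam (d : ℕ) (hd : G.DiamLe d) : kU2 (G.code N) ≤ d ∧ rU (G.code N) ≤ d := by
  by_cases hdB : d ≤ BU (G.code N)
  · obtain ⟨h1, h2⟩ := G.splU_diam N (BU (G.code N)) (LU (G.code N)) d hdB hd
    have h3 := G.sp_maxLay_le N (d + 1) h2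
    refine ⟨?_, ?_⟩
    · rw [kU2_code]
      have h4 : fU (G.code N) = 0 := h1
      rw [h4]
      unfold pset
      simp
    · unfold rU
      omega
  · have h1 := G.kU2_lt N
    have h2 := G.rU_le N
    exact ⟨by omega, by omega⟩

private theorem LU_log : (LU (G.code N) : ℝ) ≤ 3 * Real.log (G.n + 2) := by
  have h6 := Real.log_two_gt_d9
  have h5 : Real.log 2 ≤ Real.log (G.n + 2) :=
    Real.log_le_log (by norm_num) (by have : (0 : ℝ) ≤ G.n := Nat.cast_nonneg _; linarith)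
  rcases Nat.eq_zero_or_pos G.n with h0 | h0
  · have h7 : LU (G.code N) = 0 := by
      unfold LU
      rw [nn_code, h0]
      exact Nat.size_zero
    rw [h7]
    push_cast
    linarith
  have h1 : 2 ^ (LU (G.code N) - 1) ≤ G.n := by
    unfold LU
    rw [nn_code]
    exact Nat.lt_size.1 (Nat.sub_lt (Nat.size_pos.2 h0) one_pos)
  have h2 : (2 : ℝ) ^ (LU (G.code N) - 1) ≤ (G.n : ℝ) + 2 := by
    have h3 : ((2 ^ (LU (G.code N) - 1) : ℕ) : ℝ) ≤ ((G.n : ℕ) : ℝ) := by exact_mod_cast h1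
    push_cast at h3
    linarith
  have h3 : ((LU (G.code N) - 1 : ℕ) : ℝ) * Real.log 2 ≤ Real.log (G.n + 2) := by
    rw [← Real.log_pow]
    exact Real.log_le_log (by positivity) h2
  have h4 : (LU (G.code N) : ℝ) ≤ ((LU (G.code N) - 1 : ℕ) : ℝ) + 1 := by
    have : LU (G.code N) ≤ (LU (G.code N) - 1) + 1 := by omega
    exact_mod_cast this
  have h7 : (0 : ℝ) ≤ ((LU (G.code N) - 1 : ℕ) : ℝ) := Nat.cast_nonneg _
  nlinarith

/-- in general -/
theorem kU2_rU_sqrt : ((kU2 (G.code N) : ℝ) + rU (G.code N)) ≤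
    10 * Real.sqrt (G.n * Real.log (G.n + 2)) + 10 * Real.log (G.n + 2) + 3 := by
  have hm : (0 : ℝ) ≤ G.n := Nat.cast_nonneg _
  have hL := G.LU_log N
  have hlog : 0 ≤ Real.log (G.n + 2) := Real.log_nonneg (by linarith)
  have h1 : (G.n : ℝ) * LU (G.code N) ≤ 4 * (G.n * Real.log (G.n + 2)) := by
    have := mul_le_mul_of_nonneg_left hL hm
    have := mul_nonneg hm hlog
    linarith
  have h2 : Real.sqrt ((G.n : ℝ) * LU (G.code N)) ≤
      2 * Real.sqrt (G.n * Real.log (G.n + 2)) := by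
    have h3 : Real.sqrt (4 * (G.n * Real.log (G.n + 2))) =
        2 * Real.sqrt (G.n * Real.log (G.n + 2)) := by
      rw [Real.sqrt_mul (by norm_num)]
      have : Real.sqrt 4 = 2 := by
        rw [show (4 : ℝ) = 2 ^ 2 by norm_num]
        exact Real.sqrt_sq (by norm_num)
      rw [this]
    rw [← h3]
    exact Real.sqrt_le_sqrt h1
  have h3 : (kU2 (G.code N) : ℝ) ≤ Real.sqrt ((G.n : ℝ) * LU (G.code N)) := by
    refine Real.le_sqrt_of_sq_le ?_
    have := G.kU2_sq N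
    rw [pow_two]
    exact_mod_cast this
  have h4 : (rU (G.code N) : ℝ) ≤ Real.sqrt ((G.n : ℝ) * LU (G.code N)) + LU (G.code N) + 2 := by
    have h5 := G.rU_le N
    unfold BU at h5
    rw [nn_code] at h5
    have h6 : (rU (G.code N) : ℝ) ≤
        ((Nat.sqrt (G.n * LU (G.code N)) + LU (G.code N) + 1 + 1 : ℕ) : ℝ) := by
      exact_mod_cast h5
    push_cast at h6
    have h7 := @Real.nat_sqrt_le_real_sqrt (G.n * LU (G.code N))
    push_cast at h7
    linarith
  have h8 : 0 ≤ Real.sqrt (G.n * Real.log (G.n + 2)) := Real.sqrt_nonneg _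
  linarith

end MGraph

end Pool.Agent.Lib.H2
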