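import Pool.Agent.Lib.MP_3493b8_lc.Bd

/-! Splitting the vertices of a graph along a labelling of the edges. -/

set_option autoImplicit false

open Finset

namespace Pool.Agent.Lib.H2

namespace MGraph

variable (G : MGraph)

/-- the copy `(v, r)` of the vertex `v` -/
def pr (v r : Fin G.n) : Fin (G.n * G.n) := finProdFinEquiv (v, r)

theorem pr_val (v r : Fin G.n) : ((G.pr v r : Fin (G.n * G.n)) : ℕ) = (v : ℕ) * G.n + r := by
  simp only [pr, finProdFinEquiv_apply_val]
  ring

theorem pr_inj {v r v' r' : Fin G.n} : G.pr v r = G.pr v' r' ↔ v = v' ∧ r = r' := by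
  simp only [pr, EmbeddingLike.apply_eq_iff_eq, Prod.mk.injEq]

theorem exists_pr (w : Fin (G.n * G.n)) : ∃ v r, w = G.pr v r :=
  ⟨(finProdFinEquiv.symm w).1, (finProdFinEquiv.symm w).2,
    (finProdFinEquiv.apply_symm_apply w).symm⟩

/-- The split graph: the edge `i = (u, v)` with the label `r` joins `(u, r)` and `(v, r)`. -/
def spl (lab : Fin G.m → Fin G.n) : MGraph where
  n := G.n * G.n
  m := G.m
  e := fun i => (G.pr (G.e i).1 (lab i), G.pr (G.e i).2 (lab i))

/-- The boundary for the part `X` of the extra copies: arbitrary at the extra copies, determined at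
the main copies `(v, ρ v)`. -/
def tvec (ρ : Fin G.n → Fin G.n) (T : Fin G.n → ZMod 2) (X : Finset (Fin (G.n * G.n))) :
    Fin (G.n * G.n) → ZMod 2 := fun w =>
  (if w ∈ X then 1 else 0) +
    (if w = G.pr (finProdFinEquiv.symm w).1 (ρ (finProdFinEquiv.symm w).1) then
      T (finProdFinEquiv.symm w).1 +
        ∑ r, (if G.pr (finProdFinEquiv.symm w).1 r ∈ X then 1 else 0) else 0)

theorem symm_pr (v r : Fin G.n) : finProdFinEquiv.symm (G.pr v r) = (v, r) := by
  simp [pr]

theorem tvec_pr (ρ : Fin G.n → Fin G.n) (T : Fin G.n → ZMod 2) (X : Finset (Fin (G.n * G.n)))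
    (v r : Fin G.n) :
    G.tvec ρ T X (G.pr v r) = (if G.pr v r ∈ X then 1 else 0) +
      (if r = ρ v then T v + ∑ s, (if G.pr v s ∈ X then 1 else 0) else 0) := by
  unfold tvec
  rw [symm_pr]
  simp only [pr_inj, true_and]

theorem bd_apply (A : Finset (Fin G.m)) (v : Fin G.n) :
    G.bd A v = ∑ i ∈ A, ((if v = (G.e i).1 then 1 else 0) + (if v = (G.e i).2 then 1 else 0)) := by
  unfold bd
  rw [Finset.sum_apply]
  refine Finset.sum_congr rfl fun i _ => ?_
  rw [Pi.add_apply, Pi.single_apply, Pi.single_apply]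

theorem spl_bd_apply (lab : Fin G.m → Fin G.n) (A : Finset (Fin G.m)) (v r : Fin G.n) :
    (G.spl lab).bd A (G.pr v r) = ∑ i ∈ A, ((if v = (G.e i).1 ∧ r = lab i then 1 else 0) +
      (if v = (G.e i).2 ∧ r = lab i then 1 else 0)) := by
  refine ((G.spl lab).bd_apply A (G.pr v r)).trans ?_
  refine Finset.sum_congr rfl fun i _ => ?_
  have h1 : (G.pr v r = ((G.spl lab).e i).1) ↔ (v = (G.e i).1 ∧ r = lab i) := G.pr_inj
  have h2 : (G.pr v r = ((G.spl lab).e i).2) ↔ (v = (G.e i).2 ∧ r = lab i) := G.pr_inj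
  have e1 : (if G.pr v r = ((G.spl lab).e i).1 then (1 : ZMod 2) else 0) =
      if v = (G.e i).1 ∧ r = lab i then 1 else 0 := if_congr h1 rfl rfl
  have e2 : (if G.pr v r = ((G.spl lab).e i).2 then (1 : ZMod 2) else 0) =
      if v = (G.e i).2 ∧ r = lab i then 1 else 0 := if_congr h2 rfl rfl
  exact congrArg₂ (· + ·) e1 e2

/-- the boundary at a vertex is the sum of the boundaries at its copies -/
theorem bd_spl (lab : Fin G.m → Fin G.n) (A : Finset (Fin G.m)) (v : Fin G.n) :
    G.bd A v = ∑ r, (G.spl lab).bd A (G.pr v r) := by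
  rw [bd_apply]
  simp_rw [spl_bd_apply]
  rw [Finset.sum_comm]
  refine Finset.sum_congr rfl fun i _ => ?_
  rw [Finset.sum_add_distrib]
  have key : ∀ u : Fin G.n, (∑ r, if v = u ∧ r = lab i then (1 : ZMod 2) else 0) =
      if v = u then 1 else 0 := by
    intro u
    by_cases h : v = u
    · simp [h]
    · simp [h]
  rw [key, key]

theorem bd_spl_zero (lab : Fin G.m → Fin G.n) (A : Finset (Fin G.m)) (v r : Fin G.n)
    (h : ∀ i, lab i = r → (G.e i).1 ≠ v ∧ (G.e i).2 ≠ v) :
    (G.spl lab).bd A (G.pr v r) = 0 := by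
  rw [spl_bd_apply]
  refine Finset.sum_eq_zero fun i _ => ?_
  rw [if_neg, if_neg, add_zero]
  · rintro ⟨h1, h2⟩
    exact (h i h2.symm).2 h1.symm
  · rintro ⟨h1, h2⟩
    exact (h i h2.symm).1 h1.symm

/-- Sum over the boundaries at the extra copies `F`. -/
theorem Zs_spl (lab : Fin G.m → Fin G.n) (ρ : Fin G.n → Fin G.n) (F : Finset (Fin (G.n * G.n)))
    (h1 : ∀ v, G.pr v (ρ v) ∉ F)
    (h2 : ∀ i, (lab i = ρ (G.e i).1 ∨ G.pr (G.e i).1 (lab i) ∈ F) ∧
      (lab i = ρ (G.e i).2 ∨ G.pr (G.e i).2 (lab i) ∈ F))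
    (w : Fin G.m → ℝ) (T : Fin G.n → ZMod 2) :
    G.Zs ∅ w T = ∑ X ∈ F.powerset, (G.spl lab).Zs ∅ w (G.tvec ρ T X) := by
  have hz : ∀ x : ZMod 2, x = if x ≠ 0 then 1 else 0 := by decide
  have hself : ∀ x : ZMod 2, x + x = 0 := by decide
  -- the split boundary vanishes outside the main copies and `F`
  have hsupp : ∀ (A : Finset (Fin G.m)) (v r : Fin G.n), r ≠ ρ v → G.pr v r ∉ F →
      (G.spl lab).bd A (G.pr v r) = 0 := by
    intro A v r hr hF
    refine G.bd_spl_zero lab A v r fun i hi => ⟨?_, ?_⟩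
    · intro he
      rcases (h2 i).1 with h | h
      · exact hr (by rw [← hi, h, he])
      · exact hF (by rw [← hi, ← he]; exact h)
    · intro he
      rcases (h2 i).2 with h | h
      · exact hr (by rw [← hi, h, he])
      · exact hF (by rw [← hi, ← he]; exact h)
  -- the key equivalence
  have hkey : ∀ A : Finset (Fin G.m), ∀ X ∈ F.powerset,
      ((G.spl lab).bd A = G.tvec ρ T X ↔
        (G.bd A = T ∧ X = F.filter fun u => (G.spl lab).bd A u ≠ 0)) := by
    intro A X hX
    rw [Finset.mem_powerset] at hX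
    constructor
    · intro h
      have hbd : ∀ v r, (G.spl lab).bd A (G.pr v r) = (if G.pr v r ∈ X then 1 else 0) +
          (if r = ρ v then T v + ∑ s, (if G.pr v s ∈ X then 1 else 0) else 0) := by
        intro v r
        rw [h]
        exact G.tvec_pr ρ T X v r
      refine ⟨?_, ?_⟩
      · funext v
        rw [G.bd_spl lab A v]
        simp_rw [hbd v]
        rw [Finset.sum_add_distrib, Finset.sum_ite_eq' Finset.univ (ρ v), if_pos (Finset.mem_univ _)]
        rw [add_comm (T v), ← add_assoc, hself, zero_add]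
      · ext u
        obtain ⟨v, r, hu'⟩ := G.exists_pr u
        rw [hu']
        refine Iff.trans ?_ (Finset.mem_filter (s := F)
          (p := fun u => (G.spl lab).bd A u ≠ 0)).symm
        constructor
        · intro hu
          refine ⟨hX hu, ?_⟩
          have hr : r ≠ ρ v := fun hr => h1 v (hr ▸ hX hu)
          rw [hbd v r, if_pos hu, if_neg hr, add_zero]
          exact one_ne_zero
        · rintro ⟨hu, hne⟩
          have hr : r ≠ ρ v := fun hr => h1 v (hr ▸ hu)
          rw [hbd v r, if_neg hr, add_zero] at hne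
          by_contra hnX
          rw [if_neg hnX] at hne
          exact hne rfl
    · rintro ⟨hT, hXe⟩
      have hmem : ∀ v r, (if G.pr v r ∈ X then (1 : ZMod 2) else 0) =
          if r = ρ v then 0 else (G.spl lab).bd A (G.pr v r) := by
        intro v r
        by_cases hr : r = ρ v
        · rw [if_pos hr, if_neg]
          rw [hr]
          exact fun h => h1 v (hX h)
        · rw [if_neg hr]
          by_cases hF : G.pr v r ∈ F
          · have : (G.pr v r ∈ X) ↔ ((G.spl lab).bd A (G.pr v r) ≠ 0) := by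
              rw [hXe]
              exact ⟨fun h => (Finset.mem_filter.1 h).2, fun h => Finset.mem_filter.2 ⟨hF, h⟩⟩
            rw [if_congr this rfl rfl]
            exact (hz _).symm
          · rw [if_neg (fun h => hF (hX h)), hsupp A v r hr hF]
      have hall : ∀ v r, (G.spl lab).bd A (G.pr v r) = G.tvec ρ T X (G.pr v r) := by
        intro v r
        rw [tvec_pr]
        simp_rw [hmem v]
        by_cases hr : r = ρ v
        · rw [if_pos hr, if_pos hr, zero_add, ← hT, G.bd_spl lab A v]
          rw [← Finset.add_sum_erase Finset.univ (fun s => (G.spl lab).bd A (G.pr v s))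
            (Finset.mem_univ (ρ v))]
          rw [← Finset.add_sum_erase Finset.univ
            (fun s => if s = ρ v then (0 : ZMod 2) else (G.spl lab).bd A (G.pr v s))
            (Finset.mem_univ (ρ v))]
          rw [if_pos rfl, zero_add]
          have : ∑ x ∈ Finset.univ.erase (ρ v),
              (if x = ρ v then (0 : ZMod 2) else (G.spl lab).bd A (G.pr v x)) =
              ∑ x ∈ Finset.univ.erase (ρ v), (G.spl lab).bd A (G.pr v x) := by
            refine Finset.sum_congr rfl fun x hx => ?_
            rw [if_neg (Finset.ne_of_mem_erase hx)]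
          rw [this, add_assoc, hself, add_zero, hr]
        · rw [if_neg hr, if_neg hr, add_zero]
      funext u
      obtain ⟨v, r, hu⟩ := G.exists_pr u
      rw [hu]
      exact hall v r
  unfold Zs
  rw [Finset.sum_comm]
  refine Finset.sum_congr rfl fun A _ => ?_
  have hd : Disjoint A ∅ := Finset.disjoint_empty_right A
  by_cases hA : G.bd A = T
  · rw [if_pos ⟨hd, hA⟩]
    symm
    refine (Finset.sum_eq_single (F.filter fun u => (G.spl lab).bd A u ≠ 0) ?_ ?_).trans ?_
    · intro X hX hne
      refine if_neg ?_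
      rintro ⟨-, h⟩
      exact hne ((hkey A X hX).1 h).2
    · intro h
      exact absurd (Finset.mem_powerset.2 (Finset.filter_subset _ _)) h
    · refine if_pos ?_
      exact ⟨hd, (hkey A _ (Finset.mem_powerset.2 (Finset.filter_subset _ _))).2 ⟨hA, rfl⟩⟩
  · rw [if_neg (fun h => hA h.2)]
    symm
    refine Finset.sum_eq_zero fun X hX => ?_
    refine if_neg ?_
    rintro ⟨-, h⟩
    exact hA ((hkey A X hX).1 h).1

end MGraph

end Pool.Agent.Lib.H2
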