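import Pool.Agent.Lib.MP_3493b8_lc.V.Term

/-! The sum of the exact terms of the second algorithm. -/

set_option autoImplicit false

open Finset

namespace Pool.Agent.Lib.H2

open Pool.Agent.Lib.PTC

namespace MGraph

variable (G : MGraph) (N : ℕ)

/-- the sum of the exact terms -/
theorem sum_exactU (p q b K : ℕ) :
    ∑ a ∈ range (2 ^ kU2 (G.code N)), G.exactU N p q b K a =
      (K : ℝ) ^ S1 (G.code N) * (((q : ℝ) / (2 * b)) ^ nul (G.code N) *
        G.Zs ∅ (fun _ => (p : ℝ) / q) (G.bd univ)) := by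
  obtain ⟨ρ, hρ1, hρ2, hρ3⟩ := G.sp_spec N
  have hn : nn (G.code N) = G.n := G.nn_code N
  have hk : kU2 (G.code N) = belowN (fU (G.code N)) (G.n * G.n) := by
    rw [kU2, hn]
  have hb : ∀ a, (G.sp N).vvec (bU (G.code N) a) =
      G.tvec ρ (G.bd univ) (G.pset (subK (G.n * G.n) (fU (G.code N)) a)) := by
    intro a
    rw [bU, hn]
    exact G.maskT_code N (G.labc N) ρ (mU (G.code N)) _ hρ1
  have h1 : ∀ a, G.exactU N p q b K a =
      (K : ℝ) ^ S1 (G.code N) * ((q : ℝ) / (2 * b)) ^ nul (G.code N) *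
        (G.spl (G.labc N)).Zs ∅ (fun _ => (p : ℝ) / q)
          (G.tvec ρ (G.bd univ) (G.pset (subK (G.n * G.n) (fU (G.code N)) a))) := by
    intro a
    rw [exactU, hb]
    rfl
  rw [Finset.sum_congr rfl fun a _ => h1 a, ← Finset.mul_sum, hk,
    G.sum_subK (fU (G.code N)) (fun X => (G.spl (G.labc N)).Zs ∅ (fun _ => (p : ℝ) / q)
      (G.tvec ρ (G.bd univ) X)),
    ← G.Zs_spl (G.labc N) ρ (G.pset (fU (G.code N))) hρ2 hρ3, mul_assoc]
  rfl

end MGraph

end Pool.Agent.Lib.H2
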