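import Pool.Agent.Lib.MP_3493b8_lc.V.Sp
import Pool.Agent.Lib.MP_3493b8_lc.V.Quot

/-! The terms of the output of the second algorithm for good random numbers. -/

set_option autoImplicit false

open Finset

namespace Pool.Agent.Lib.H2

open Pool.Agent.Lib.PTC

namespace MGraph

variable (G : MGraph) (N : ℕ)

/-- the parameters of the algorithm -/
theorem tU_code (q : ℕ) : tU (G.code N) q = (G.sp N).tG N q (rU (G.code N)) := by
  unfold tU tG S1
  rw [yU_code, nn_code, mm_code, NN_code]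

theorem smU_code (q : ℕ) : smU (G.code N) q = (G.sp N).sG N q (rU (G.code N)) (kU2 (G.code N)) := by
  unfold smU sG S1
  rw [yU_code, nn_code, mm_code, NN_code]

theorem bitsU_code (q : ℕ) :
    bitsU (G.code N) q = (G.sp N).bG N q (rU (G.code N)) (kU2 (G.code N)) := by
  unfold bitsU bG
  rw [tU_code, smU_code, yU_code, mm_code]

/-- good random numbers -/
def GoodU (p q ω : ℕ) : Prop :=
  (G.sp N).GoodG N q (rU (G.code N)) (kU2 (G.code N)) (bU (G.code N)) (aU (G.code N)) p ω

/-- the exact value of the term `a`, in fixed point format -/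
noncomputable def exactU (p q b K a : ℕ) : ℝ :=
  (K : ℝ) ^ S1 (G.code N) * ((q : ℝ) / (2 * b)) ^ nul (G.code N) *
    (G.sp N).Zs ∅ (fun _ => (p : ℝ) / q) ((G.sp N).vvec (bU (G.code N) a))

/-- solvable boundaries -/
theorem solU_iff (a : ℕ) : (G.sp N).SolG (bU (G.code N)) (aU (G.code N)) a ↔
    ∃ A, (G.sp N).bd A = (G.sp N).vvec (bU (G.code N) a) := by
  unfold SolG aU
  rw [yU_code]
  exact (G.sp N).startU_iff N (G.clu_sp N) (bU (G.code N) a)

/-- the number of sets of the class -/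
theorem Zs_zero_countU (l : ℝ) (a : ℕ)
    (ha : (G.sp N).SolG (bU (G.code N)) (aU (G.code N)) a) :
    (G.sp N).Zs ∅ ((G.sp N).wj l 0) ((G.sp N).vvec (bU (G.code N) a)) *
        2 ^ nn (yU (G.code N)) =
      2 ^ mm (yU (G.code N)) * 2 ^ rootsN (yU (G.code N)) (lyU (G.code N)) := by
  obtain ⟨A, hb⟩ := (G.solU_iff N a).1 ha
  have h1 := (G.clu_sp N).count A (disjoint_empty_right A)
  rw [Finset.card_empty, Nat.sub_zero] at h1
  rw [Zs_wj_zero, ← hb, yU_code, nn_code, mm_code, rootsN_code]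
  exact_mod_cast h1

private theorem trm_floor (A B : ℕ) (hB : 0 < B) :
    (A : ℝ) / B - 1 ≤ ((A / B : ℕ) : ℝ) ∧ ((A / B : ℕ) : ℝ) ≤ (A : ℝ) / B := by
  refine ⟨?_, Nat.cast_div_le⟩
  have h1 : (A : ℝ) < ((A / B : ℕ) + 1 : ℝ) * B := by
    have := Nat.lt_div_mul_add (a := A) hB
    have h2 : A < (A / B + 1) * B := by
      rw [add_mul, one_mul]
      exact this
    exact_mod_cast h2
  have hB' : (0 : ℝ) < B := by exact_mod_cast hB
  have h3 : (A : ℝ) / B < ((A / B : ℕ) + 1 : ℝ) := by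
    rw [div_lt_iff₀ hB']
    exact h1
  linarith

/-- the term `a` of the output -/
theorem termU_bound (p q b K a ω : ℕ) (hp : 0 < p) (hpq : p < q) (hb : 0 < b) (hN : 1 ≤ N)
    (hω : G.GoodU N p q ω) (haa : a < 2 ^ kU2 (G.code N)) :
    Real.exp (-(1 / (4 * N))) * G.exactU N p q b K a - 1 ≤ (termU (G.code N) p q b K a ω : ℝ) ∧
      (termU (G.code N) p q b K a ω : ℝ) ≤ Real.exp (1 / (4 * N)) * G.exactU N p q b K a := by
  by_cases ha : (G.sp N).SolG (bU (G.code N)) (aU (G.code N)) a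
  · obtain ⟨hd, h1, h2⟩ := (G.sp N).quotG N q (rU (G.code N)) (kU2 (G.code N)) (bU (G.code N))
      (aU (G.code N)) p a ω (G.clu_sp N).short hp hpq hN hω haa ha
    have hc := G.Zs_zero_countU N ((p : ℝ) / q) a ha
    rw [← tU_code, ← smU_code, ← yU_code] at hd h1 h2
    set Z0 : ℝ := (G.sp N).Zs ∅ ((G.sp N).wj ((p : ℝ) / q) 0) ((G.sp N).vvec (bU (G.code N) a))
      with hZ0
    set Z1 : ℝ := (G.sp N).Zs ∅ (fun _ => (p : ℝ) / q) ((G.sp N).vvec (bU (G.code N) a)) with hZ1
    set nX : ℕ := numX (yU (G.code N)) p q 0 (bU (G.code N) a) (aU (G.code N) a)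
        (tU (G.code N) q) (smU (G.code N) q) a ω with hnX
    set dX : ℕ := denX (yU (G.code N)) p q 0 (bU (G.code N) a) (aU (G.code N) a)
        (tU (G.code N) q) (smU (G.code N) q) a ω with hdX
    have hq : 0 < q := lt_trans hp hpq
    have hq' : (0 : ℝ) < q := by exact_mod_cast hq
    have hb' : (0 : ℝ) < b := by exact_mod_cast hb
    have hp' : (0 : ℝ) < p := by exact_mod_cast hp
    have hd' : (0 : ℝ) < dX := by exact_mod_cast hd
    have hZ0p : 0 < Z0 := by
      have h3 : (0 : ℝ) < 2 ^ mm (yU (G.code N)) * 2 ^ rootsN (yU (G.code N)) (lyU (G.code N)) := by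
        positivity
      rw [← hc] at h3
      exact pos_of_mul_pos_left h3 (by positivity)
    have hterm : termU (G.code N) p q b K a ω =
        (K ^ S1 (G.code N) * q ^ nul (G.code N) *
          2 ^ (mm (yU (G.code N)) + rootsN (yU (G.code N)) (lyU (G.code N))) * nX) /
        ((2 * b) ^ nul (G.code N) * 2 ^ nn (yU (G.code N)) * dX) := by
      unfold termU
      refine if_pos ?_
      rw [yU_code]
      exact ((G.sp N).solG_iff N (bU (G.code N)) (aU (G.code N)) a).2 ha
    have hDpos : 0 < (2 * b) ^ nul (G.code N) * 2 ^ nn (yU (G.code N)) * dX := by positivity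
    obtain ⟨h3, h4⟩ := trm_floor (K ^ S1 (G.code N) * q ^ nul (G.code N) *
      2 ^ (mm (yU (G.code N)) + rootsN (yU (G.code N)) (lyU (G.code N))) * nX) _ hDpos
    rw [← hterm] at h3 h4
    set C : ℝ := (K : ℝ) ^ S1 (G.code N) * ((q : ℝ) / (2 * b)) ^ nul (G.code N) with hC
    have hC0 : 0 ≤ C := by positivity
    have hR : ((K ^ S1 (G.code N) * q ^ nul (G.code N) *
          2 ^ (mm (yU (G.code N)) + rootsN (yU (G.code N)) (lyU (G.code N))) * nX : ℕ) : ℝ) /
        (((2 * b) ^ nul (G.code N) * 2 ^ nn (yU (G.code N)) * dX : ℕ) : ℝ) =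
          C * Z0 * ((nX : ℝ) / dX) := by
      have h5 : Z0 = 2 ^ (mm (yU (G.code N)) + rootsN (yU (G.code N)) (lyU (G.code N))) /
          2 ^ nn (yU (G.code N)) := by
        rw [pow_add, eq_div_iff (by positivity)]
        exact hc
      rw [h5, hC, div_pow]
      push_cast
      field_simp
    rw [hR] at h3 h4
    have hex : G.exactU N p q b K a = C * Z0 * (Z1 / Z0) := by
      have h6 : C * Z0 * (Z1 / Z0) = C * Z1 := by
        field_simp
      rw [h6, hC]
      rfl
    have hCZ : 0 ≤ C * Z0 := mul_nonneg hC0 hZ0p.le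
    rw [hex]
    constructor
    · have h7 := mul_le_mul_of_nonneg_left h1 hCZ
      calc _ = C * Z0 * (Real.exp (-(1 / (4 * N))) * (Z1 / Z0)) - 1 := by ring
        _ ≤ C * Z0 * ((nX : ℝ) / dX) - 1 := by linarith
        _ ≤ _ := h3
    · have h7 := mul_le_mul_of_nonneg_left h2 hCZ
      calc _ ≤ C * Z0 * ((nX : ℝ) / dX) := h4
        _ ≤ C * Z0 * (Real.exp (1 / (4 * N)) * (Z1 / Z0)) := h7
        _ = _ := by ring
  · have h1 : termU (G.code N) p q b K a ω = 0 := by
      unfold termU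
      refine if_neg fun h => ha ?_
      rw [yU_code] at h
      exact ((G.sp N).solG_iff N (bU (G.code N)) (aU (G.code N)) a).1 h
    have h2 : G.exactU N p q b K a = 0 := by
      unfold exactU
      rw [(G.sp N).Zs_eq_zero ∅ _ ((G.sp N).vvec (bU (G.code N) a)) fun A _ hb =>
        ha ((G.solU_iff N a).2 ⟨A, hb⟩)]
      ring
    rw [h1, h2]
    constructor <;> norm_num

end MGraph

end Pool.Agent.Lib.H2
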